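import Pool.Agent.H799R2.CI.Defs

/-!
Task 01: kernel algebra.
-/

set_option autoImplicit false

open MeasureTheory Set Filter
open scoped ENNReal NNReal ComplexConjugate Topology

namespace Pool.Agent.H799R2.CI

theorem near_lower {Z : ℝ → ℂ} (hZ : Near Z) (x y : ℝ) : (1 / 2) * |y - x| ≤ ‖Z y - Z x‖ := by
  have h := hZ y x
  have h2 : |y - x| ≤ ‖Z y - Z x‖ + ‖Z y - Z x - ((y - x : ℝ) : ℂ)‖ := by
    have h3 : ‖((y - x : ℝ) : ℂ)‖ = |y - x| := by rw [Complex.norm_real, Real.norm_eq_abs]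
    rw [← h3]
    have h4 : ((y - x : ℝ) : ℂ) = (Z y - Z x) - (Z y - Z x - ((y - x : ℝ) : ℂ)) := by ring
    calc ‖((y - x : ℝ) : ℂ)‖ = ‖(Z y - Z x) - (Z y - Z x - ((y - x : ℝ) : ℂ))‖ := by rw [← h4]
      _ ≤ _ := norm_sub_le _ _
  linarith

theorem near_upper {Z : ℝ → ℂ} (hZ : Near Z) (x y : ℝ) : ‖Z y - Z x‖ ≤ (3 / 2) * |y - x| := by
  have h := hZ y x
  have h3 : ‖((y - x : ℝ) : ℂ)‖ = |y - x| := by rw [Complex.norm_real, Real.norm_eq_abs]
  have h4 : Z y - Z x = (Z y - Z x - ((y - x : ℝ) : ℂ)) + ((y - x : ℝ) : ℂ) := by ring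
  rw [h4]
  refine (norm_add_le _ _).trans ?_
  rw [h3]
  linarith

theorem near_cont {Z : ℝ → ℂ} (hZ : Near Z) : Continuous Z := by
  have : LipschitzWith (3 / 2 : ℝ≥0) Z := by
    apply LipschitzWith.of_dist_le_mul
    intro x y
    rw [dist_eq_norm, Real.dist_eq]
    have := near_upper hZ y x
    simpa using this
  exact this.continuous

theorem k_bound {Z : ℝ → ℂ} (hZ : Near Z) (x y : ℝ) : ‖k Z x y‖ ≤ 2 / |y - x| := by
  unfold k
  rcases eq_or_ne y x with h | h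
  · subst h
    simp
  · have h0 : 0 < |y - x| := abs_pos.2 (sub_ne_zero.2 h)
    have h1 := near_lower hZ x y
    have h2 : 0 < ‖Z y - Z x‖ := by linarith
    rw [norm_inv, inv_eq_one_div, div_le_div_iff₀ h2 h0]
    linarith

theorem k_antisymm (Z : ℝ → ℂ) (x y : ℝ) : k Z x y = - k Z y x := by
  unfold k
  rw [← neg_sub (Z x) (Z y), inv_neg]

theorem kt_antisymm (Z : ℝ → ℂ) (ε x y : ℝ) : kt Z ε x y = - kt Z ε y x := by
  unfold kt
  rw [abs_sub_comm y x]
  split_ifs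
  · exact k_antisymm Z x y
  · simp

theorem kt_bound {Z : ℝ → ℂ} (hZ : Near Z) {ε : ℝ} (hε : 0 < ε) (x y : ℝ) :
    ‖kt Z ε x y‖ ≤ 2 / ε := by
  unfold kt
  split_ifs with h
  · refine (k_bound hZ x y).trans ?_
    exact div_le_div_of_nonneg_left (by norm_num) hε h.le
  · rw [norm_zero]
    positivity

theorem k_diff {Z : ℝ → ℂ} (hZ : Near Z) {x x' y : ℝ} (h : x ≠ y) (h' : x' ≠ y) :
    ‖k Z x y - k Z x' y‖ ≤ 6 * |x - x'| / (|y - x| * |y - x'|) := by
  have h0 : 0 < |y - x| := abs_pos.2 (sub_ne_zero.2 h.symm)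
  have h0' : 0 < |y - x'| := abs_pos.2 (sub_ne_zero.2 h'.symm)
  have h1 := near_lower hZ x y
  have h1' := near_lower hZ x' y
  have h2 : 0 < ‖Z y - Z x‖ := by linarith
  have h2' : 0 < ‖Z y - Z x'‖ := by linarith
  have n1 : Z y - Z x ≠ 0 := norm_pos_iff.1 h2
  have n2 : Z y - Z x' ≠ 0 := norm_pos_iff.1 h2'
  have e1 : k Z x y - k Z x' y = (Z x - Z x') / ((Z y - Z x) * (Z y - Z x')) := by
    unfold k
    field_simp
    ring
  rw [e1, norm_div, norm_mul, div_le_div_iff₀ (by positivity) (by positivity)]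
  have h3 := near_upper hZ x' x
  have h4 : (1 / 4) * (|y - x| * |y - x'|) ≤ ‖Z y - Z x‖ * ‖Z y - Z x'‖ := by
    have := mul_le_mul h1 h1' (by positivity) h2.le
    linarith
  calc ‖Z x - Z x'‖ * (|y - x| * |y - x'|) ≤ (3 / 2 * |x - x'|) * (|y - x| * |y - x'|) :=
        mul_le_mul_of_nonneg_right h3 (by positivity)
    _ = 6 * |x - x'| * ((1 / 4) * (|y - x| * |y - x'|)) := by ring
    _ ≤ 6 * |x - x'| * (‖Z y - Z x‖ * ‖Z y - Z x'‖) :=
        mul_le_mul_of_nonneg_left h4 (by positivity)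

theorem kap_nonneg (Z : ℝ → ℂ) (x y z : ℝ) : 0 ≤ kap Z x y z := by
  unfold kap
  positivity

theorem kap_swap12 (Z : ℝ → ℂ) (x y z : ℝ) : kap Z x y z = kap Z y x z := by
  unfold kap
  rw [norm_sub_rev (Z x) (Z y), norm_sub_rev (Z z) (Z y), norm_sub_rev (Z z) (Z x)]
  have e1 : ((Z y - Z x) * conj (Z z - Z x)).im = -((Z x - Z y) * conj (Z z - Z y)).im := by
    simp only [Complex.mul_im, Complex.conj_re, Complex.conj_im, Complex.sub_re, Complex.sub_im]
    ring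
  rw [e1]
  ring

theorem kap_swap23 (Z : ℝ → ℂ) (x y z : ℝ) : kap Z x y z = kap Z x z y := by
  unfold kap
  rw [norm_sub_rev (Z y) (Z z)]
  have e1 : ((Z y - Z x) * conj (Z z - Z x)).im = -((Z z - Z x) * conj (Z y - Z x)).im := by
    simp only [Complex.mul_im, Complex.conj_re, Complex.conj_im, Complex.sub_re, Complex.sub_im]
    ring
  rw [e1]
  ring

lemma alg_core (a b A B : ℂ) (ha : a ≠ 0) (hb : b ≠ 0) (hab : a - b ≠ 0) (hA : A ≠ 0) (hB : B ≠ 0)
    (hAB : A - B ≠ 0) :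
    a⁻¹ * B⁻¹ + b⁻¹ * A⁻¹ + (-a)⁻¹ * (-(A - B))⁻¹ + (-(a - b))⁻¹ * (-A)⁻¹
      + (-b)⁻¹ * (A - B)⁻¹ + (a - b)⁻¹ * (-B)⁻¹
      = -(a * B - A * b) ^ 2 / ((a * A) * (b * B) * ((a - b) * (A - B))) := by
  simp only [inv_neg]
  field_simp
  ring

theorem kap_id {Z : ℝ → ℂ} {x y z : ℝ} (hxy : Z x ≠ Z y) (hxz : Z x ≠ Z z) (hyz : Z y ≠ Z z) :
    k Z x y * conj (k Z x z) + k Z x z * conj (k Z x y)
      + k Z y x * conj (k Z y z) + k Z y z * conj (k Z y x)
      + k Z z x * conj (k Z z y) + k Z z y * conj (k Z z x) = (kap Z x y z : ℂ) := by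
  set a := Z y - Z x with ha
  set b := Z z - Z x with hb
  have ha0 : a ≠ 0 := sub_ne_zero.2 hxy.symm
  have hb0 : b ≠ 0 := sub_ne_zero.2 hxz.symm
  have hab : a - b = Z y - Z z := by rw [ha, hb]; ring
  have hab0 : a - b ≠ 0 := by rw [hab]; exact sub_ne_zero.2 hyz
  have cA : conj a ≠ 0 := (map_ne_zero _).2 ha0
  have cB : conj b ≠ 0 := (map_ne_zero _).2 hb0
  have cAB : conj a - conj b ≠ 0 := by rw [← map_sub]; exact (map_ne_zero _).2 hab0
  have e1 : k Z x y = a⁻¹ := rfl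
  have e2 : k Z x z = b⁻¹ := rfl
  have e3 : k Z y x = (-a)⁻¹ := by
    unfold k
    rw [ha, neg_sub]
  have e4 : k Z y z = (-(a - b))⁻¹ := by
    unfold k
    rw [hab, neg_sub]
  have e5 : k Z z x = (-b)⁻¹ := by
    unfold k
    rw [hb, neg_sub]
  have e6 : k Z z y = (a - b)⁻¹ := by
    unfold k
    rw [hab]
  rw [e1, e2, e3, e4, e5, e6]
  have hcab : conj (a - b) = conj a - conj b := map_sub _ _ _
  simp only [map_inv₀, map_neg]
  rw [hcab]
  have hcore := alg_core a b (conj a) (conj b) ha0 hb0 hab0 cA cB cAB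
  rw [hcore]
  unfold kap
  rw [← ha, ← hb, ← hab]
  have n1 : ∀ w : ℂ, ((‖w‖ ^ 2 : ℝ) : ℂ) = w * conj w := by
    intro w
    rw [Complex.mul_conj, Complex.normSq_eq_norm_sq]
  have n2 : ((2 * (a * conj b).im : ℝ) : ℂ) ^ 2 = -(a * conj b - conj a * b) ^ 2 := by
    have h1 : (a * conj b) - conj (a * conj b) = ((2 * (a * conj b).im : ℝ) : ℂ) * Complex.I := by
      rw [Complex.sub_conj]
    have h2 : conj (a * conj b) = conj a * b := by
      rw [map_mul, Complex.conj_conj]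
    rw [h2] at h1
    rw [h1, mul_pow, Complex.I_sq]
    ring
  push_cast
  have n3 := n1 a
  have n4 := n1 b
  have n5 := n1 (a - b)
  push_cast at n2 n3 n4 n5
  rw [n3, n4, n5, n2, hcab]

theorem kap_le_dq {Z : ℝ → ℂ} (hZ : Near Z) {x y z : ℝ} (hxy : x ≠ y) (hxz : x ≠ z) (hyz : y ≠ z) :
    kap Z x y z ≤ 64 * ((dq (fun s => (Z s).re) x y - dq (fun s => (Z s).re) x z) ^ 2
      + (dq (fun s => (Z s).im) x y - dq (fun s => (Z s).im) x z) ^ 2) / (y - z) ^ 2 := by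
  set E : ℝ := (dq (fun s => (Z s).re) x y - dq (fun s => (Z s).re) x z) ^ 2
      + (dq (fun s => (Z s).im) x y - dq (fun s => (Z s).im) x z) ^ 2 with hE
  have hyx : y - x ≠ 0 := sub_ne_zero.2 hxy.symm
  have hzx : z - x ≠ 0 := sub_ne_zero.2 hxz.symm
  have hyz' : y - z ≠ 0 := sub_ne_zero.2 hyz
  have l1 := near_lower hZ x y
  have l2 := near_lower hZ x z
  have l3 := near_lower hZ z y
  have p1 : 0 < |y - x| := abs_pos.2 hyx
  have p2 : 0 < |z - x| := abs_pos.2 hzx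
  have p3 : 0 < |y - z| := abs_pos.2 hyz'
  have q1 : 0 < ‖Z y - Z x‖ := by linarith
  have q2 : 0 < ‖Z z - Z x‖ := by linarith
  have q3 : 0 < ‖Z y - Z z‖ := by linarith
  set D : ℂ := (Z y - Z x) / ((y - x : ℝ) : ℂ) - (Z z - Z x) / ((z - x : ℝ) : ℂ) with hD
  have hDE : ‖D‖ ^ 2 = E := by
    rw [← Complex.normSq_eq_norm_sq, Complex.normSq_apply, hE]
    have r1 : D.re = dq (fun s => (Z s).re) x y - dq (fun s => (Z s).re) x z := by
      simp only [hD, dq, Complex.sub_re, Complex.div_ofReal_re]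
    have r2 : D.im = dq (fun s => (Z s).im) x y - dq (fun s => (Z s).im) x z := by
      simp only [hD, dq, Complex.sub_im, Complex.div_ofReal_im]
    rw [r1, r2]
    ring
  have hE0 : 0 ≤ E := by positivity
  have him : ((Z y - Z x) * conj (Z z - Z x)).im = (y - x) * (D * conj (Z z - Z x)).im := by
    have c1 : ((y - x : ℝ) : ℂ) ≠ 0 := by exact_mod_cast hyx
    have c2 : ((z - x : ℝ) : ℂ) ≠ 0 := by exact_mod_cast hzx
    have h1 : ((y - x : ℝ) : ℂ) * (D * conj (Z z - Z x)) =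
        (Z y - Z x) * conj (Z z - Z x) -
          (((y - x) / (z - x) * ‖Z z - Z x‖ ^ 2 : ℝ) : ℂ) := by
      have h2 : (((y - x) / (z - x) * ‖Z z - Z x‖ ^ 2 : ℝ) : ℂ) =
          ((y - x : ℝ) : ℂ) / ((z - x : ℝ) : ℂ) * ((Z z - Z x) * conj (Z z - Z x)) := by
        rw [Complex.mul_conj, Complex.normSq_eq_norm_sq]
        push_cast
        ring
      rw [h2, hD]
      field_simp
    have h3 := congrArg Complex.im h1
    rw [Complex.im_ofReal_mul, Complex.sub_im, Complex.ofReal_im, sub_zero] at h3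
    exact h3.symm
  have hnum : (2 * ((Z y - Z x) * conj (Z z - Z x)).im) ^ 2 ≤
      4 * (y - x) ^ 2 * E * ‖Z z - Z x‖ ^ 2 := by
    rw [him]
    have h1 : |(D * conj (Z z - Z x)).im| ≤ ‖D‖ * ‖Z z - Z x‖ := by
      refine (Complex.abs_im_le_norm _).trans ?_
      rw [norm_mul, Complex.norm_conj]
    have h2 : (D * conj (Z z - Z x)).im ^ 2 ≤ (‖D‖ * ‖Z z - Z x‖) ^ 2 := by
      rw [← sq_abs]
      gcongr
    calc (2 * ((y - x) * (D * conj (Z z - Z x)).im)) ^ 2
        = 4 * (y - x) ^ 2 * (D * conj (Z z - Z x)).im ^ 2 := by ring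
      _ ≤ 4 * (y - x) ^ 2 * (‖D‖ * ‖Z z - Z x‖) ^ 2 := mul_le_mul_of_nonneg_left h2 (by positivity)
      _ = 4 * (y - x) ^ 2 * E * ‖Z z - Z x‖ ^ 2 := by rw [← hDE]; ring
  unfold kap
  rw [div_le_div_iff₀ (by positivity) (by positivity)]
  have s1 : (1 / 4) * (y - x) ^ 2 ≤ ‖Z y - Z x‖ ^ 2 := by
    have := mul_self_le_mul_self (by positivity) l1
    rw [← sq_abs (y - x)]
    nlinarith
  have s3 : (1 / 4) * (y - z) ^ 2 ≤ ‖Z y - Z z‖ ^ 2 := by
    have := mul_self_le_mul_self (by positivity) l3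
    rw [← sq_abs (y - z)]
    nlinarith
  calc (2 * ((Z y - Z x) * conj (Z z - Z x)).im) ^ 2 * (y - z) ^ 2
      ≤ (4 * (y - x) ^ 2 * E * ‖Z z - Z x‖ ^ 2) * (y - z) ^ 2 :=
        mul_le_mul_of_nonneg_right hnum (by positivity)
    _ = 64 * E * (((1 / 4) * (y - x) ^ 2) * ‖Z z - Z x‖ ^ 2 * ((1 / 4) * (y - z) ^ 2)) := by ring
    _ ≤ 64 * E * (‖Z y - Z x‖ ^ 2 * ‖Z z - Z x‖ ^ 2 * ‖Z y - Z z‖ ^ 2) := by
        gcongr

theorem er_nonneg (ε c a b : ℝ) : 0 ≤ er ε c a b := by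
  unfold er
  split_ifs
  · positivity
  · exact le_rfl

lemma two_terms {Z : ℝ → ℂ} (hZ : Near Z) {ε : ℝ} (hε : 0 < ε) (c a b : ℝ) (hab : |a - b| ≤ ε)
    (ha : ε < |c - a|) (hb : ε < |c - b|) :
    ‖kt Z ε c a * conj (kt Z ε c b) + kt Z ε c b * conj (kt Z ε c a)‖ ≤ er ε c a b := by
  have e0 : er ε c a b = 8 / (|c - a| * |c - b|) := by
    unfold er
    rw [if_pos ⟨hab, ha, hb⟩]
  have p1 : 0 < |c - a| := hε.trans ha
  have p2 : 0 < |c - b| := hε.trans hb
  have k1 : ‖kt Z ε c a‖ ≤ 2 / |c - a| := by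
    unfold kt
    split_ifs
    · have := k_bound hZ c a
      rwa [abs_sub_comm a c] at this
    · rw [norm_zero]
      positivity
  have k2 : ‖kt Z ε c b‖ ≤ 2 / |c - b| := by
    unfold kt
    split_ifs
    · have := k_bound hZ c b
      rwa [abs_sub_comm b c] at this
    · rw [norm_zero]
      positivity
  have k3 : ‖kt Z ε c a‖ * ‖kt Z ε c b‖ ≤ (2 / |c - a|) * (2 / |c - b|) :=
    mul_le_mul k1 k2 (norm_nonneg _) (by positivity)
  have k4 : (2 / |c - a|) * (2 / |c - b|) = 4 / (|c - a| * |c - b|) := by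
    field_simp
    norm_num
  refine (norm_add_le _ _).trans ?_
  rw [norm_mul, norm_mul, Complex.norm_conj, Complex.norm_conj, e0]
  have k5 : 8 / (|c - a| * |c - b|) = 2 * (4 / (|c - a| * |c - b|)) := by ring
  rw [k5, ← k4]
  linarith

theorem kapt_le {Z : ℝ → ℂ} (hZ : Near Z) {ε : ℝ} (hε : 0 < ε) (x y z : ℝ) :
    ‖kapt Z ε x y z‖ ≤ kap Z x y z + er ε x y z + er ε y x z + er ε z x y := by
  have n0 := kap_nonneg Z x y z
  have n1 := er_nonneg ε x y z
  have n2 := er_nonneg ε y x z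
  have n3 := er_nonneg ε z x y
  have ktz : ∀ u v : ℝ, ¬ ε < |v - u| → kt Z ε u v = 0 := by
    intro u v h
    unfold kt
    rw [if_neg h]
  have ktz' : ∀ u v : ℝ, ¬ ε < |v - u| → kt Z ε v u = 0 := by
    intro u v h
    unfold kt
    rw [abs_sub_comm, if_neg h]
  have ktp : ∀ u v : ℝ, ε < |v - u| → kt Z ε u v = k Z u v := by
    intro u v h
    unfold kt
    rw [if_pos h]
  have ktp' : ∀ u v : ℝ, ε < |v - u| → kt Z ε v u = k Z v u := by
    intro u v h
    unfold kt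
    rw [abs_sub_comm, if_pos h]
  have hne : ∀ u v : ℝ, ε < |v - u| → Z u ≠ Z v := by
    intro u v h huv
    have := near_lower hZ u v
    rw [huv, sub_self, norm_zero] at this
    linarith
  unfold kapt
  by_cases h1 : ε < |y - x|
  · by_cases h2 : ε < |z - x|
    · by_cases h3 : ε < |z - y|
      · rw [ktp x y h1, ktp' x y h1, ktp x z h2, ktp' x z h2, ktp y z h3, ktp' y z h3,
          kap_id (hne x y h1) (hne x z h2) (hne y z h3), Complex.norm_real, Real.norm_eq_abs,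
          abs_of_nonneg n0]
        linarith
      · rw [ktz y z h3, ktz' y z h3]
        have := two_terms hZ hε x y z (by rw [abs_sub_comm]; exact not_lt.1 h3)
          (by rwa [abs_sub_comm]) (by rwa [abs_sub_comm])
        simp only [map_zero, mul_zero, zero_mul, add_zero]
        linarith
    · rw [ktz x z h2, ktz' x z h2]
      by_cases h3 : ε < |z - y|
      · have := two_terms hZ hε y x z (by rw [abs_sub_comm]; exact not_lt.1 h2)
          h1 (by rwa [abs_sub_comm])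
        simp only [map_zero, mul_zero, zero_mul, add_zero, zero_add]
        linarith
      · rw [ktz y z h3, ktz' y z h3]
        simp only [map_zero, mul_zero, zero_mul, add_zero, norm_zero]
        linarith
  · rw [ktz x y h1, ktz' x y h1]
    by_cases h2 : ε < |z - x|
    · by_cases h3 : ε < |z - y|
      · have := two_terms hZ hε z x y (by rw [abs_sub_comm]; exact not_lt.1 h1) h2 h3
        simp only [map_zero, mul_zero, zero_mul, add_zero, zero_add]
        linarith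
      · rw [ktz y z h3, ktz' y z h3]
        simp only [map_zero, mul_zero, zero_mul, add_zero, norm_zero]
        linarith
    · rw [ktz x z h2, ktz' x z h2]
      simp only [map_zero, mul_zero, zero_mul, add_zero, norm_zero]
      linarith

end Pool.Agent.H799R2.CI
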