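import Pool.Agent.H799R2.CI.Defs

/-! Task 02: the logarithmic lemma. -/

set_option autoImplicit false

open MeasureTheory Set Filter
open scoped ENNReal NNReal ComplexConjugate Topology

namespace Pool.Agent.H799R2.CI

theorem ratio_intble {R : ℝ → ℝ} (hR : Measurable R) {N : ℝ} (hN : ∀ s, |R s| ≤ N) {a b : ℝ}
    (ha : 0 < a) (hb : 0 < b) : IntervalIntegrable (fun s => R s / s) volume a b := by
  have hN0 : 0 ≤ N := (abs_nonneg _).trans (hN 0)
  have h1 : IntervalIntegrable (fun s : ℝ => N / s) volume a b := by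
    apply ContinuousOn.intervalIntegrable
    apply ContinuousOn.div continuousOn_const continuousOn_id
    intro x hx
    have : 0 < x := lt_of_lt_of_le (lt_min ha hb) hx.1
    exact this.ne'
  refine IntervalIntegrable.mono_fun h1 (hR.div measurable_id).aestronglyMeasurable ?_
  filter_upwards with x
  rw [Real.norm_eq_abs, Real.norm_eq_abs, abs_div, abs_div]
  exact div_le_div_of_nonneg_right ((hN x).trans (le_abs_self _)) (abs_nonneg _)

theorem ratio_bound {R : ℝ → ℝ} {N : ℝ} (hN : ∀ s, |R s| ≤ N) {a τ : ℝ}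
    (ha : 0 < a) (hτ : 0 < τ) (hτ1 : τ ≤ 1) :
    |∫ s in (a * τ)..a, R s / s| ≤ N * Real.log (1 / τ) := by
  have h1 : a * τ ≤ a := by nlinarith
  have h0 : 0 < a * τ := by positivity
  have h2 : ‖∫ s in (a * τ)..a, R s / s‖ ≤ ∫ s in (a * τ)..a, N / s := by
    apply intervalIntegral.norm_integral_le_of_norm_le h1
    · filter_upwards with s hs
      have hs0 : 0 < s := lt_trans h0 hs.1
      rw [Real.norm_eq_abs, abs_div, abs_of_pos hs0]
      gcongr
      exact hN s
    · apply ContinuousOn.intervalIntegrable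
      apply ContinuousOn.div continuousOn_const continuousOn_id
      intro x hx
      have : 0 < x := lt_of_lt_of_le (lt_min h0 ha) hx.1
      exact this.ne'
  have h3 : ∫ s in (a * τ)..a, N / s = N * Real.log (1 / τ) := by
    have h4 : ∀ s : ℝ, N / s = N * (1 / s) := by
      intro s
      ring
    simp_rw [h4]
    rw [intervalIntegral.integral_const_mul, integral_one_div_of_pos h0 ha]
    congr 2
    field_simp
  rw [h3] at h2
  exact h2

theorem phi_log {R : ℝ → ℝ} (hR : Measurable R) {N : ℝ} (hN : ∀ s, |R s| ≤ N) {ρ l τ : ℝ}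
    (hρ : 0 < ρ) (hl : ρ ≤ l) (hτ : 0 < τ) (hτ1 : τ ≤ 1) :
    |(∫ r in ρ..l, R (r * τ) / r) - ∫ r in ρ..l, R r / r| ≤ 2 * N * Real.log (1 / τ) := by
  have hl0 : 0 < l := lt_of_lt_of_le hρ hl
  have h1 : (∫ r in ρ..l, R (r * τ) / r) = ∫ s in (ρ * τ)..(l * τ), R s / s := by
    have h2 := intervalIntegral.integral_comp_mul_right (a := ρ) (b := l)
      (fun s => R s / s * τ) hτ.ne'
    have h3 : ∀ r : ℝ, R (r * τ) / r = (fun s => R s / s * τ) (r * τ) := by
      intro r
      simp only
      rcases eq_or_ne r 0 with h | h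
      · subst h
        simp
      · field_simp
    rw [show (fun r : ℝ => R (r * τ) / r) = fun r => (fun s => R s / s * τ) (r * τ) from
      funext h3]
    rw [h2, intervalIntegral.integral_mul_const, smul_eq_mul]
    field_simp
  rw [h1]
  have i1 := ratio_intble hR hN (a := ρ * τ) (b := l * τ) (by positivity) (by positivity)
  have i2 := ratio_intble hR hN (a := ρ * τ) (b := ρ) (by positivity) (by positivity)
  have i3 := ratio_intble hR hN (a := l * τ) (b := l) (by positivity) (by positivity)
  have i4 := ratio_intble hR hN (a := ρ) (b := l) (by positivity) (by positivity)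
  have e1 := intervalIntegral.integral_add_adjacent_intervals i1 i3
  have e2 := intervalIntegral.integral_add_adjacent_intervals i2 i4
  have b1 := ratio_bound hN hρ hτ hτ1
  have b2 := ratio_bound hN hl0 hτ hτ1
  have e3 : (∫ s in (ρ * τ)..(l * τ), R s / s) - ∫ r in ρ..l, R r / r =
      (∫ s in (ρ * τ)..ρ, R s / s) - ∫ s in (l * τ)..l, R s / s := by
    linarith
  rw [e3]
  calc |(∫ s in (ρ * τ)..ρ, R s / s) - ∫ s in (l * τ)..l, R s / s|
      ≤ |∫ s in (ρ * τ)..ρ, R s / s| + |∫ s in (l * τ)..l, R s / s| := abs_sub _ _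
    _ ≤ _ := by linarith

theorem log_intble (c : ℝ) :
    IntervalIntegrable (fun t : ℝ => Real.log (1 / |c - t|)) volume 0 1 := by
  have h1 : (fun t : ℝ => Real.log (1 / |c - t|)) = fun t => -Real.log (c - t) := by
    ext t
    rw [one_div, Real.log_inv, Real.log_abs]
  rw [h1]
  apply IntervalIntegrable.neg
  have h2 : IntervalIntegrable Real.log volume (c - 0) (c - 1) :=
    intervalIntegral.intervalIntegrable_log'
  have h3 := h2.comp_sub_left c
  simpa using h3

theorem log_int_bound {c : ℝ} (hc : 0 ≤ c) (hc1 : c ≤ 1) :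
    ∫ t in (0 : ℝ)..1, Real.log (1 / |c - t|) ≤ 2 := by
  have h1 : (fun t : ℝ => Real.log (1 / |c - t|)) = fun t => -Real.log (c - t) := by
    ext t
    rw [one_div, Real.log_inv, Real.log_abs]
  rw [h1, intervalIntegral.integral_neg]
  have h2 := intervalIntegral.integral_comp_sub_left (a := 0) (b := 1) Real.log c
  rw [h2, integral_log]
  simp only [sub_zero]
  have h3 : ∀ x : ℝ, 0 ≤ x → -(x * Real.log x) ≤ 1 - x := by
    intro x hx
    rcases eq_or_lt_of_le hx with h | h
    · rw [← h]
      simp
    · have h4 := Real.one_sub_inv_le_log_of_pos h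
      have h5 : x * (1 - x⁻¹) ≤ x * Real.log x := mul_le_mul_of_nonneg_left h4 hx
      have h6 : x * (1 - x⁻¹) = x - 1 := by
        field_simp
      linarith
  have h4 := h3 c hc
  have h5 := h3 (1 - c) (by linarith)
  have h6 : Real.log (c - 1) = Real.log (1 - c) := by
    rw [← Real.log_neg_eq_log]
    congr 1
    ring
  rw [h6]
  linarith

end Pool.Agent.H799R2.CI
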