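import Pool.Agent.H799R2.CI.Defs
import Pool.Agent.H799R2.CI.Log

/-!
Task 03: autocorrelation bound.
-/

set_option autoImplicit false

open MeasureTheory Set Filter
open scoped ENNReal NNReal ComplexConjugate Topology

namespace Pool.Agent.H799R2.CI



/-- Lebesgue measure on `(0,1]`. -/
noncomputable abbrev autoM : Measure ℝ := volume.restrict (Ioc (0 : ℝ) 1)

instance autoM_prob : IsProbabilityMeasure autoM := ⟨by simp [autoM]⟩

/-- autocorrelation -/
noncomputable def autoR (al : ℝ → ℝ) (τ : ℝ) : ℝ := ∫ u, al u * al (u + τ)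

theorem auto_intble {f : ℝ → ℝ} (hf : Measurable f) {C c d : ℝ} (hC : ∀ x, |f x| ≤ C)
    (h0 : ∀ x, x ∉ Icc c d → f x = 0) : Integrable f := by
  have hg : Integrable ((Icc c d).indicator (fun _ : ℝ => C)) :=
    (integrable_indicator_iff measurableSet_Icc).mpr (integrableOn_const (by simp) enorm_ne_top)
  refine hg.mono' hf.aestronglyMeasurable (ae_of_all _ fun x => ?_)
  by_cases hx : x ∈ Icc c d
  · rw [indicator_of_mem hx]; exact hC x
  · rw [indicator_of_notMem hx, h0 x hx]; simp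

section
variable {al : ℝ → ℝ} {B a b : ℝ}

theorem auto_sq_intble (hal : Measurable al) (hB : ∀ x, |al x| ≤ B)
    (hs : ∀ x, x ∉ Icc a b → al x = 0) : Integrable (fun x => al x ^ 2) := by
  refine auto_intble (hal.pow_const 2) (C := B ^ 2) (c := a) (d := b) (fun x => ?_)
    (fun x hx => by rw [hs x hx]; simp)
  rw [abs_pow]
  exact pow_le_pow_left₀ (abs_nonneg _) (hB x) 2

theorem autoR_meas (hal : Measurable al) : Measurable (autoR al) := by
  have h : StronglyMeasurable (Function.uncurry fun τ u : ℝ => al u * al (u + τ)) :=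
    ((hal.comp measurable_snd).mul
      (hal.comp (measurable_snd.add measurable_fst))).stronglyMeasurable
  exact h.integral_prod_right.measurable

theorem autoR_bound (hal : Measurable al) (hB : ∀ x, |al x| ≤ B)
    (hs : ∀ x, x ∉ Icc a b → al x = 0) (τ : ℝ) : |autoR al τ| ≤ ∫ x, al x ^ 2 := by
  have h1 := auto_sq_intble hal hB hs
  have h2 : Integrable (fun x => al (x + τ) ^ 2) := h1.comp_add_right τ
  have h3 : ∫ x, al (x + τ) ^ 2 = ∫ x, al x ^ 2 :=
    integral_add_right_eq_self (fun x => al x ^ 2) τ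
  have h4 : |autoR al τ| ≤ ∫ x, (1 / 2 * al x ^ 2 + 1 / 2 * al (x + τ) ^ 2) := by
    rw [← Real.norm_eq_abs, autoR]
    refine norm_integral_le_of_norm_le ((h1.const_mul _).add (h2.const_mul _))
      (ae_of_all _ fun x => ?_)
    rw [Real.norm_eq_abs, abs_le]
    constructor
    · nlinarith [sq_nonneg (al x + al (x + τ))]
    · nlinarith [sq_nonneg (al x - al (x + τ))]
  rw [integral_add (h1.const_mul _) (h2.const_mul _), integral_const_mul, integral_const_mul,
    h3] at h4
  linarith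

theorem autoR_even (al : ℝ → ℝ) (τ : ℝ) : autoR al (-τ) = autoR al τ := by
  unfold autoR
  rw [← integral_add_right_eq_self (fun u => al u * al (u + -τ)) τ]
  refine integral_congr_ae (ae_of_all _ fun u => ?_)
  simp only []
  rw [add_neg_cancel_right, mul_comm]

theorem auto_m_eq (al : ℝ → ℝ) (p u : ℝ) : m al p u = ∫ t, al (u + p * t) ∂autoM := by
  rw [m, intervalIntegral.integral_of_le zero_le_one]

theorem auto_m_meas (hal : Measurable al) (p : ℝ) : Measurable (fun u => m al p u) := by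
  simp_rw [auto_m_eq]
  have h : StronglyMeasurable (Function.uncurry fun u t : ℝ => al (u + p * t)) :=
    (hal.comp (measurable_fst.add (measurable_snd.const_mul p))).stronglyMeasurable
  exact h.integral_prod_right.measurable

theorem auto_m_bound (hB : ∀ x, |al x| ≤ B) (p u : ℝ) : |m al p u| ≤ B := by
  rw [auto_m_eq, ← Real.norm_eq_abs]
  have h := norm_integral_le_of_norm_le_const (μ := autoM) (f := fun t => al (u + p * t)) (C := B)
    (ae_of_all _ fun t => hB _)
  simpa using h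

theorem auto_zero (hs : ∀ x, x ∉ Icc a b → al x = 0) {p u t : ℝ} (ht : t ∈ Ioc (0 : ℝ) 1)
    (hu : u ∉ Icc (a - |p|) (b + |p|)) : al (u + p * t) = 0 := by
  apply hs
  intro h
  apply hu
  have h1 : |p * t| ≤ |p| := by
    rw [abs_mul, abs_of_pos ht.1]
    exact mul_le_of_le_one_right (abs_nonneg _) ht.2
  have h2 := abs_le.mp h1
  exact ⟨by linarith [h.1], by linarith [h.2]⟩

theorem auto_m_zero (hs : ∀ x, x ∉ Icc a b → al x = 0) {p u : ℝ}
    (hu : u ∉ Icc (a - |p|) (b + |p|)) : m al p u = 0 := by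
  rw [auto_m_eq]
  refine integral_eq_zero_of_ae ?_
  filter_upwards [ae_restrict_mem measurableSet_Ioc] with t ht
  exact auto_zero hs ht hu

theorem auto_mm_intble (hal : Measurable al) (hB : ∀ x, |al x| ≤ B)
    (hs : ∀ x, x ∉ Icc a b → al x = 0) (p q : ℝ) :
    Integrable (fun u => m al p u * m al q u) := by
  have hB0 : 0 ≤ B := (abs_nonneg _).trans (hB 0)
  refine auto_intble ((auto_m_meas hal p).mul (auto_m_meas hal q)) (C := B * B)
    (c := a - |p|) (d := b + |p|) (fun x => ?_) (fun x hx => ?_)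
  · rw [abs_mul]
    exact mul_le_mul (auto_m_bound hB p x) (auto_m_bound hB q x) (abs_nonneg _) hB0
  · rw [auto_m_zero hs hx, zero_mul]

theorem auto_J (hal : Measurable al) (hB : ∀ x, |al x| ≤ B)
    (hs : ∀ x, x ∉ Icc a b → al x = 0) (p q : ℝ) :
    ∫ u, m al p u * m al q u = ∫ z : ℝ × ℝ, autoR al (q * z.2 - p * z.1) ∂(autoM.prod autoM) := by
  have hB0 : 0 ≤ B := (abs_nonneg _).trans (hB 0)
  have h1 : ∀ u, m al p u * m al q u =
      ∫ z : ℝ × ℝ, al (u + p * z.1) * al (u + q * z.2) ∂(autoM.prod autoM) := by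
    intro u
    rw [auto_m_eq, auto_m_eq,
      ← integral_prod_mul (fun t => al (u + p * t)) (fun t => al (u + q * t))]
  simp_rw [h1]
  rw [integral_integral_swap]
  · refine integral_congr_ae (ae_of_all _ fun z => ?_)
    simp only [autoR]
    rw [← integral_add_right_eq_self (fun u => al u * al (u + (q * z.2 - p * z.1))) (p * z.1)]
    refine integral_congr_ae (ae_of_all _ fun u => ?_)
    simp only []
    congr 2
    ring
  · have hg : Integrable (fun w : ℝ × (ℝ × ℝ) =>
        (Icc (a - |p|) (b + |p|)).indicator (fun _ : ℝ => B * B) w.1 * (1 : ℝ))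
        (volume.prod (autoM.prod autoM)) := by
      refine Integrable.mul_prod (f := (Icc (a - |p|) (b + |p|)).indicator (fun _ : ℝ => B * B))
        (g := fun _ : ℝ × ℝ => (1 : ℝ)) ?_ (integrable_const _)
      exact (integrable_indicator_iff measurableSet_Icc).mpr
        (integrableOn_const (by simp) enorm_ne_top)
    refine hg.mono' ?_ ?_
    · refine Measurable.aestronglyMeasurable ?_
      exact (hal.comp (measurable_fst.add ((measurable_fst.comp measurable_snd).const_mul p))).mul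
        (hal.comp (measurable_fst.add ((measurable_snd.comp measurable_snd).const_mul q)))
    · have h2 : ∀ᵐ z : ℝ × ℝ ∂(autoM.prod autoM), z.1 ∈ Ioc (0 : ℝ) 1 :=
        Measure.quasiMeasurePreserving_fst.ae (ae_restrict_mem measurableSet_Ioc)
      have h3 : ∀ᵐ w : ℝ × (ℝ × ℝ) ∂(volume.prod (autoM.prod autoM)), w.2.1 ∈ Ioc (0 : ℝ) 1 :=
        Measure.quasiMeasurePreserving_snd.ae h2
      filter_upwards [h3] with w hw
      simp only [Function.uncurry, mul_one]
      by_cases hu : w.1 ∈ Icc (a - |p|) (b + |p|)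
      · rw [indicator_of_mem hu, norm_mul]
        exact mul_le_mul (hB _) (hB _) (norm_nonneg _) hB0
      · rw [indicator_of_notMem hu, auto_zero hs hw hu]
        simp

theorem autoR_intble (hal : Measurable al) (hB : ∀ x, |al x| ≤ B)
    (hs : ∀ x, x ∉ Icc a b → al x = 0) {g : ℝ × ℝ → ℝ} (hg : Measurable g) :
    Integrable (fun z => autoR al (g z)) (autoM.prod autoM) := by
  refine (integrable_const (∫ x, al x ^ 2)).mono' ((autoR_meas hal).comp hg).aestronglyMeasurable
    (ae_of_all _ fun z => ?_)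
  exact autoR_bound hal hB hs _

/-- the kernel after expanding the square -/
noncomputable def autoG (al : ℝ → ℝ) (θ r : ℝ) (z : ℝ × ℝ) : ℝ :=
  autoR al (r * (θ * (z.2 - z.1))) + autoR al (r * (z.2 - z.1))
    - 2 * autoR al (r * (z.2 - θ * z.1))

theorem auto_sq (hal : Measurable al) (hB : ∀ x, |al x| ≤ B)
    (hs : ∀ x, x ∉ Icc a b → al x = 0) (θ r : ℝ) :
    ∫ u, (m al (θ * r) u - m al r u) ^ 2 = ∫ z, autoG al θ r z ∂(autoM.prod autoM) := by
  have e1 : ∀ u, (m al (θ * r) u - m al r u) ^ 2 =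
      (m al (θ * r) u * m al (θ * r) u + m al r u * m al r u)
        - 2 * (m al (θ * r) u * m al r u) := fun u => by ring
  simp_rw [e1]
  have i1 := auto_mm_intble hal hB hs (θ * r) (θ * r)
  have i2 := auto_mm_intble hal hB hs r r
  have i3 := auto_mm_intble hal hB hs (θ * r) r
  have i12 : Integrable (fun u => m al (θ * r) u * m al (θ * r) u + m al r u * m al r u) :=
    i1.add i2
  rw [integral_sub i12 (i3.const_mul 2), integral_add i1 i2, integral_const_mul,
    auto_J hal hB hs, auto_J hal hB hs, auto_J hal hB hs]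
  have j1 : Integrable (fun z : ℝ × ℝ => autoR al (r * (θ * (z.2 - z.1)))) (autoM.prod autoM) :=
    autoR_intble hal hB hs (by fun_prop)
  have j2 : Integrable (fun z : ℝ × ℝ => autoR al (r * (z.2 - z.1))) (autoM.prod autoM) :=
    autoR_intble hal hB hs (by fun_prop)
  have j3 : Integrable (fun z : ℝ × ℝ => autoR al (r * (z.2 - θ * z.1))) (autoM.prod autoM) :=
    autoR_intble hal hB hs (by fun_prop)
  have j12 : Integrable (fun z : ℝ × ℝ => autoR al (r * (θ * (z.2 - z.1)))
    + autoR al (r * (z.2 - z.1))) (autoM.prod autoM) := j1.add j2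
  have q1 : ∫ z : ℝ × ℝ, autoR al (θ * r * z.2 - θ * r * z.1) ∂(autoM.prod autoM) =
      ∫ z : ℝ × ℝ, autoR al (r * (θ * (z.2 - z.1))) ∂(autoM.prod autoM) := by
    congr 1
    ext z
    congr 1
    ring
  have q2 : ∫ z : ℝ × ℝ, autoR al (r * z.2 - r * z.1) ∂(autoM.prod autoM) =
      ∫ z : ℝ × ℝ, autoR al (r * (z.2 - z.1)) ∂(autoM.prod autoM) := by
    congr 1
    ext z
    congr 1
    ring
  have q3 : ∫ z : ℝ × ℝ, autoR al (r * z.2 - θ * r * z.1) ∂(autoM.prod autoM) =
      ∫ z : ℝ × ℝ, autoR al (r * (z.2 - θ * z.1)) ∂(autoM.prod autoM) := by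
    congr 1
    ext z
    congr 1
    ring
  unfold autoG
  rw [integral_sub j12 (j3.const_mul 2), integral_add j1 j2, integral_const_mul, q1, q2, q3]

theorem autoG_meas (hal : Measurable al) (θ : ℝ) :
    Measurable (fun w : ℝ × (ℝ × ℝ) => autoG al θ w.1 w.2) := by
  have hR := autoR_meas hal
  unfold autoG
  refine ((hR.comp ?_).add (hR.comp ?_)).sub ((hR.comp ?_).const_mul 2)
  · fun_prop
  · fun_prop
  · fun_prop

theorem autoG_bound (hal : Measurable al) (hB : ∀ x, |al x| ≤ B)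
    (hs : ∀ x, x ∉ Icc a b → al x = 0) (θ r : ℝ) (z : ℝ × ℝ) :
    |autoG al θ r z| ≤ 4 * ∫ x, al x ^ 2 := by
  have h1 := abs_le.mp (autoR_bound hal hB hs (r * (θ * (z.2 - z.1))))
  have h2 := abs_le.mp (autoR_bound hal hB hs (r * (z.2 - z.1)))
  have h3 := abs_le.mp (autoR_bound hal hB hs (r * (z.2 - θ * z.1)))
  unfold autoG
  rw [abs_le]
  constructor <;> linarith [h1.1, h1.2, h2.1, h2.2, h3.1, h3.2]

theorem autoPhi_intble (hal : Measurable al) (hB : ∀ x, |al x| ≤ B)
    (hs : ∀ x, x ∉ Icc a b → al x = 0) {ρ l : ℝ} (hρ : 0 < ρ) (hl : ρ ≤ l) (τ : ℝ) :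
    IntervalIntegrable (fun r => autoR al (r * τ) / r) volume ρ l := by
  rw [intervalIntegrable_iff_integrableOn_Ioc_of_le hl]
  have hc : Integrable (fun _ : ℝ => (∫ x, al x ^ 2) / ρ) (volume.restrict (Ioc ρ l)) :=
    integrable_const _
  refine hc.mono' ?_ ?_
  · exact (((autoR_meas hal).comp (measurable_id.mul_const τ)).div
      measurable_id).aestronglyMeasurable
  · filter_upwards [ae_restrict_mem measurableSet_Ioc] with r hr
    have hr0 : 0 < r := hρ.trans hr.1
    rw [norm_div, Real.norm_eq_abs, Real.norm_eq_abs, abs_of_pos hr0]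
    have h1 := autoR_bound hal hB hs (r * τ)
    have h2 : 0 ≤ ∫ x, al x ^ 2 := (abs_nonneg _).trans h1
    exact div_le_div₀ h2 h1 hρ hr.1.le

theorem auto_swap (hal : Measurable al) (hB : ∀ x, |al x| ≤ B)
    (hs : ∀ x, x ∉ Icc a b → al x = 0) {ρ l : ℝ} (hρ : 0 < ρ) (hl : ρ ≤ l) (θ : ℝ) :
    ∫ r in ρ..l, (1 / r) * ∫ z, autoG al θ r z ∂(autoM.prod autoM) =
      ∫ z : ℝ × ℝ, ((∫ r in ρ..l, autoR al (r * (θ * (z.2 - z.1))) / r)
        + (∫ r in ρ..l, autoR al (r * (z.2 - z.1)) / r)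
        - 2 * (∫ r in ρ..l, autoR al (r * (z.2 - θ * z.1)) / r)) ∂(autoM.prod autoM) := by
  have h1 : ∀ r : ℝ, (1 / r) * ∫ z, autoG al θ r z ∂(autoM.prod autoM) =
      ∫ z, (1 / r) * autoG al θ r z ∂(autoM.prod autoM) := fun r => by rw [integral_const_mul]
  simp_rw [h1]
  rw [intervalIntegral.integral_of_le hl, integral_integral_swap]
  · refine integral_congr_ae (ae_of_all _ fun z => ?_)
    simp only []
    rw [← intervalIntegral.integral_of_le hl]
    have k1 := autoPhi_intble hal hB hs hρ hl (θ * (z.2 - z.1))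
    have k2 := autoPhi_intble hal hB hs hρ hl (z.2 - z.1)
    have k3 := autoPhi_intble hal hB hs hρ hl (z.2 - θ * z.1)
    rw [← intervalIntegral.integral_add k1 k2, ← intervalIntegral.integral_const_mul,
      ← intervalIntegral.integral_sub (k1.add k2) (k3.const_mul 2)]
    refine intervalIntegral.integral_congr fun r _ => ?_
    simp only [autoG]
    ring
  · have hc : Integrable (fun _ : ℝ × (ℝ × ℝ) => (1 / ρ) * (4 * ∫ x, al x ^ 2))
        ((volume.restrict (Ioc ρ l)).prod (autoM.prod autoM)) := integrable_const _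
    refine hc.mono' ?_ ?_
    · exact (((measurable_const.div measurable_fst).mul (autoG_meas hal θ))).aestronglyMeasurable
    · have h3 : ∀ᵐ w : ℝ × (ℝ × ℝ) ∂((volume.restrict (Ioc ρ l)).prod (autoM.prod autoM)),
          w.1 ∈ Ioc ρ l := Measure.quasiMeasurePreserving_fst.ae (ae_restrict_mem measurableSet_Ioc)
      filter_upwards [h3] with w hw
      simp only [Function.uncurry]
      have hw0 : 0 < w.1 := hρ.trans hw.1
      rw [norm_mul, Real.norm_eq_abs, Real.norm_eq_abs, abs_of_pos (by positivity)]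
      refine mul_le_mul ?_ (autoG_bound hal hB hs _ _ _) (abs_nonneg _) (by positivity)
      exact one_div_le_one_div_of_le hρ hw.1.le

end

theorem auto_ae_ne (c : ℝ) : ∀ᵐ z : ℝ × ℝ ∂(autoM.prod autoM), z.2 ≠ c * z.1 := by
  have hm : MeasurableSet {z : ℝ × ℝ | z.2 = c * z.1} :=
    measurableSet_eq_fun measurable_snd (measurable_fst.const_mul c)
  have h : (autoM.prod autoM) {z : ℝ × ℝ | z.2 = c * z.1} = 0 := by
    rw [Measure.measure_prod_null hm]
    refine ae_of_all _ fun x => ?_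
    have : Prod.mk x ⁻¹' {z : ℝ × ℝ | z.2 = c * z.1} = {c * x} := by
      ext y; simp
    change autoM (Prod.mk x ⁻¹' {z : ℝ × ℝ | z.2 = c * z.1}) = 0
    rw [this]
    simp
  rw [ae_iff]
  simpa using h

theorem auto_ae_mem : ∀ᵐ z : ℝ × ℝ ∂(autoM.prod autoM),
    z.1 ∈ Ioc (0 : ℝ) 1 ∧ z.2 ∈ Ioc (0 : ℝ) 1 := by
  have h1 : ∀ᵐ z : ℝ × ℝ ∂(autoM.prod autoM), z.1 ∈ Ioc (0 : ℝ) 1 :=
    Measure.quasiMeasurePreserving_fst.ae (ae_restrict_mem measurableSet_Ioc)
  have h2 : ∀ᵐ z : ℝ × ℝ ∂(autoM.prod autoM), z.2 ∈ Ioc (0 : ℝ) 1 :=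
    Measure.quasiMeasurePreserving_snd.ae (ae_restrict_mem measurableSet_Ioc)
  exact h1.and h2

theorem auto_abs_le {c : ℝ} (hc : 0 ≤ c) (hc1 : c ≤ 1) {x y : ℝ} (hx : x ∈ Ioc (0 : ℝ) 1)
    (hy : y ∈ Ioc (0 : ℝ) 1) : |y - c * x| ≤ 1 := by
  have h1 : 0 ≤ c * x := mul_nonneg hc hx.1.le
  have h2 : c * x ≤ 1 := mul_le_one₀ hc1 hx.1.le hx.2
  rw [abs_le]
  constructor <;> linarith [hy.1, hy.2]

theorem auto_log_nonneg {x : ℝ} (hx : |x| ≤ 1) : 0 ≤ Real.log (1 / |x|) := by
  rcases eq_or_lt_of_le (abs_nonneg x) with h | h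
  · rw [← h]; simp
  · exact Real.log_nonneg (by rw [le_div_iff₀ h]; linarith)

/-- the logarithmic double integral -/
theorem auto_log_prod {c : ℝ} (hc : 0 ≤ c) (hc1 : c ≤ 1) :
    Integrable (fun z : ℝ × ℝ => Real.log (1 / |z.2 - c * z.1|)) (autoM.prod autoM) ∧
    ∫ z : ℝ × ℝ, Real.log (1 / |z.2 - c * z.1|) ∂(autoM.prod autoM) ≤ 2 := by
  have hmeas : Measurable (fun z : ℝ × ℝ => Real.log (1 / |z.2 - c * z.1|)) := by fun_prop
  have hin : ∀ x : ℝ, Integrable (fun y => Real.log (1 / |y - c * x|)) autoM := by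
    intro x
    have := (intervalIntegrable_iff_integrableOn_Ioc_of_le zero_le_one).mp (log_intble (c * x))
    simpa only [IntegrableOn, abs_sub_comm (c * x)] using this
  have hint : ∀ x : ℝ, x ∈ Ioc (0 : ℝ) 1 →
      ∫ y, Real.log (1 / |y - c * x|) ∂autoM ≤ 2 := by
    intro x hx
    have := log_int_bound (c := c * x) (mul_nonneg hc hx.1.le) (mul_le_one₀ hc1 hx.1.le hx.2)
    rw [intervalIntegral.integral_of_le zero_le_one] at this
    simpa only [abs_sub_comm (c * x)] using this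
  have hnn : ∀ x : ℝ, x ∈ Ioc (0 : ℝ) 1 →
      ∫ y, ‖Real.log (1 / |y - c * x|)‖ ∂autoM = ∫ y, Real.log (1 / |y - c * x|) ∂autoM := by
    intro x hx
    refine integral_congr_ae ?_
    filter_upwards [ae_restrict_mem measurableSet_Ioc] with y hy
    rw [Real.norm_eq_abs, abs_of_nonneg (auto_log_nonneg (auto_abs_le hc hc1 hx hy))]
  have hI : Integrable (fun z : ℝ × ℝ => Real.log (1 / |z.2 - c * z.1|)) (autoM.prod autoM) := by
    rw [integrable_prod_iff hmeas.aestronglyMeasurable]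
    refine ⟨ae_of_all _ fun x => hin x, ?_⟩
    refine (integrable_const (2 : ℝ)).mono'
      (hmeas.aestronglyMeasurable.norm.integral_prod_right') ?_
    filter_upwards [ae_restrict_mem measurableSet_Ioc] with x hx
    rw [hnn x hx, Real.norm_eq_abs, abs_of_nonneg]
    · exact hint x hx
    · rw [← hnn x hx]
      exact integral_nonneg fun _ => norm_nonneg _
  refine ⟨hI, ?_⟩
  rw [integral_prod _ hI]
  have h5 : ∫ x, (∫ y, Real.log (1 / |y - c * x|) ∂autoM) ∂autoM ≤ ∫ _x : ℝ, (2 : ℝ) ∂autoM := by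
    refine integral_mono_ae hI.integral_prod_left (integrable_const _) ?_
    filter_upwards [ae_restrict_mem measurableSet_Ioc] with x hx
    exact hint x hx
  simpa using h5

theorem auto_bound {al : ℝ → ℝ} (hal : Measurable al) {B a b : ℝ} (hB : ∀ x, |al x| ≤ B)
    (hs : ∀ x, x ∉ Icc a b → al x = 0) {ρ l θ : ℝ} (hρ : 0 < ρ) (hl : ρ ≤ l) (hθ : 0 < θ)
    (hθ1 : θ ≤ 1) :
    ∫ r in ρ..l, (1 / r) * ∫ u, (m al (θ * r) u - m al r u) ^ 2
      ≤ 2 * (∫ x, al x ^ 2) * (8 + Real.log (1 / θ)) := by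
  set N := ∫ x, al x ^ 2 with hN
  have hNb : ∀ s, |autoR al s| ≤ N := autoR_bound hal hB hs
  have hN0 : 0 ≤ N := (abs_nonneg _).trans (hNb 0)
  simp_rw [auto_sq hal hB hs]
  rw [auto_swap hal hB hs hρ hl θ]
  set Φ : ℝ → ℝ := fun τ => ∫ r in ρ..l, autoR al (r * τ) / r with hΦ
  have hΦeven : ∀ τ, Φ (-τ) = Φ τ := by
    intro τ
    simp only [hΦ, mul_neg, autoR_even]
  have hΦb : ∀ τ, τ ≠ 0 → |τ| ≤ 1 → |Φ τ - Φ 1| ≤ 2 * N * Real.log (1 / |τ|) := by
    intro τ hτ hτ1
    have h1 : Φ τ = Φ |τ| := by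
      rcases abs_choice τ with h | h
      · rw [h]
      · rw [h, hΦeven]
    rw [h1]
    have h2 := phi_log (autoR_meas hal) hNb hρ hl (abs_pos.mpr hτ) hτ1
    simpa only [hΦ, mul_one] using h2
  have hΦm : Measurable Φ := by
    have h : StronglyMeasurable (Function.uncurry fun τ r : ℝ => autoR al (r * τ) / r) :=
      (((autoR_meas hal).comp (measurable_snd.mul measurable_fst)).div
        measurable_snd).stronglyMeasurable
    have h2 : Φ = fun τ => ∫ r, autoR al (r * τ) / r ∂(volume.restrict (Ioc ρ l)) := by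
      ext τ
      simp only [hΦ]
      rw [intervalIntegral.integral_of_le hl]
    rw [h2]
    exact h.integral_prod_right.measurable
  have hΦbdd : ∀ τ, |Φ τ| ≤ (N / ρ) * |l - ρ| := by
    intro τ
    simp only [hΦ]
    rw [← Real.norm_eq_abs]
    refine intervalIntegral.norm_integral_le_of_norm_le_const fun r hr => ?_
    rw [uIoc_of_le hl] at hr
    have hr0 : 0 < r := hρ.trans hr.1
    rw [norm_div, Real.norm_eq_abs, Real.norm_eq_abs, abs_of_pos hr0]
    exact div_le_div₀ hN0 (hNb _) hρ hr.1.le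
  have hΦi : ∀ {g : ℝ × ℝ → ℝ}, Measurable g → Integrable (fun z => Φ (g z)) (autoM.prod autoM) :=
    fun hg => (integrable_const ((N / ρ) * |l - ρ|)).mono' (hΦm.comp hg).aestronglyMeasurable
      (ae_of_all _ fun z => hΦbdd _)
  have i1 : Integrable (fun z : ℝ × ℝ => Φ (θ * (z.2 - z.1))) (autoM.prod autoM) :=
    hΦi (by fun_prop)
  have i2 : Integrable (fun z : ℝ × ℝ => Φ (z.2 - z.1)) (autoM.prod autoM) := hΦi (by fun_prop)
  have i3 : Integrable (fun z : ℝ × ℝ => Φ (z.2 - θ * z.1)) (autoM.prod autoM) :=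
    hΦi (by fun_prop)
  obtain ⟨l1, l1b⟩ := auto_log_prod (c := 1) zero_le_one le_rfl
  obtain ⟨l2, l2b⟩ := auto_log_prod (c := θ) hθ.le hθ1
  simp only [one_mul] at l1 l1b
  have hR : Integrable (fun z : ℝ × ℝ => 2 * N * (Real.log (1 / θ)
      + 2 * Real.log (1 / |z.2 - z.1|) + 2 * Real.log (1 / |z.2 - θ * z.1|)))
      (autoM.prod autoM) :=
    (((integrable_const _).add (l1.const_mul 2)).add (l2.const_mul 2)).const_mul _
  have hmono : ∫ z : ℝ × ℝ, (Φ (θ * (z.2 - z.1)) + Φ (z.2 - z.1) - 2 * Φ (z.2 - θ * z.1))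
      ∂(autoM.prod autoM) ≤ ∫ z : ℝ × ℝ, 2 * N * (Real.log (1 / θ)
      + 2 * Real.log (1 / |z.2 - z.1|) + 2 * Real.log (1 / |z.2 - θ * z.1|))
      ∂(autoM.prod autoM) := by
    refine integral_mono_ae ((i1.add i2).sub (i3.const_mul 2)) hR ?_
    filter_upwards [auto_ae_mem, auto_ae_ne 1, auto_ae_ne θ] with z hz h1 h2
    rw [one_mul] at h1
    have hd1 : z.2 - z.1 ≠ 0 := sub_ne_zero.mpr h1
    have hd2 : z.2 - θ * z.1 ≠ 0 := sub_ne_zero.mpr h2
    have ha1 : |z.2 - z.1| ≤ 1 := by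
      have := auto_abs_le zero_le_one le_rfl hz.1 hz.2
      rwa [one_mul] at this
    have ha2 : |z.2 - θ * z.1| ≤ 1 := auto_abs_le hθ.le hθ1 hz.1 hz.2
    have ha3 : |θ * (z.2 - z.1)| ≤ 1 := by
      rw [abs_mul, abs_of_pos hθ]
      exact mul_le_one₀ hθ1 (abs_nonneg _) ha1
    have b1 := abs_le.mp (hΦb _ (mul_ne_zero hθ.ne' hd1) ha3)
    have b2 := abs_le.mp (hΦb _ hd1 ha1)
    have b3 := abs_le.mp (hΦb _ hd2 ha2)
    have e1 : Real.log (1 / |θ * (z.2 - z.1)|) =
        Real.log (1 / θ) + Real.log (1 / |z.2 - z.1|) := by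
      rw [abs_mul, abs_of_pos hθ, ← Real.log_mul (by positivity)
        (by have := abs_pos.mpr hd1; positivity)]
      congr 1
      rw [one_div_mul_one_div]
    rw [e1] at b1
    nlinarith [b1.2, b2.2, b3.1]
  refine hmono.trans ?_
  rw [integral_const_mul]
  have hsum : ∫ z : ℝ × ℝ, (Real.log (1 / θ)
      + 2 * Real.log (1 / |z.2 - z.1|) + 2 * Real.log (1 / |z.2 - θ * z.1|))
      ∂(autoM.prod autoM) = Real.log (1 / θ)
      + 2 * (∫ z : ℝ × ℝ, Real.log (1 / |z.2 - z.1|) ∂(autoM.prod autoM))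
      + 2 * ∫ z : ℝ × ℝ, Real.log (1 / |z.2 - θ * z.1|) ∂(autoM.prod autoM) := by
    have s1 : Integrable (fun z : ℝ × ℝ => Real.log (1 / θ) + 2 * Real.log (1 / |z.2 - z.1|))
        (autoM.prod autoM) := (integrable_const _).add (l1.const_mul 2)
    rw [integral_add s1 (l2.const_mul 2), integral_add (integrable_const _) (l1.const_mul 2),
      integral_const_mul, integral_const_mul]
    simp
  rw [hsum]
  refine mul_le_mul_of_nonneg_left ?_ (by positivity)
  linarith

end Pool.Agent.H799R2.CI
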