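import Pool.Agent.H799R2.CI.Auto

/-!
Task 04: passage to lintegral and integration in theta.
-/

set_option autoImplicit false

open MeasureTheory Set Filter
open scoped ENNReal NNReal ComplexConjugate Topology

namespace Pool.Agent.H799R2.CI

section
variable {al : ℝ → ℝ} {B a b : ℝ}

theorem autoL_sq_intble (hal : Measurable al) (hB : ∀ x, |al x| ≤ B)
    (hs : ∀ x, x ∉ Icc a b → al x = 0) (p q : ℝ) :
    Integrable (fun u => (m al p u - m al q u) ^ 2) := by
  have i1 := auto_mm_intble hal hB hs p p
  have i2 := auto_mm_intble hal hB hs q q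
  have i3 := auto_mm_intble hal hB hs p q
  have h := (i1.add i2).sub (i3.const_mul 2)
  refine h.congr (ae_of_all _ fun u => ?_)
  simp only [Pi.add_apply, Pi.sub_apply]
  ring

theorem autoL_D_intble (hal : Measurable al) (hB : ∀ x, |al x| ≤ B)
    (hs : ∀ x, x ∉ Icc a b → al x = 0) {ρ l : ℝ} (hρ : 0 < ρ) (θ : ℝ) :
    Integrable (fun r => (1 / r) * ∫ u, (m al (θ * r) u - m al r u) ^ 2)
      (volume.restrict (Ioc ρ l)) := by
  simp_rw [auto_sq hal hB hs]
  have hc : Integrable (fun _ : ℝ => (1 / ρ) * (4 * ∫ x, al x ^ 2))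
    (volume.restrict (Ioc ρ l)) := integrable_const _
  have hm : Measurable fun r => ∫ z, autoG al θ r z ∂(autoM.prod autoM) := by
    have h : StronglyMeasurable (Function.uncurry fun (r : ℝ) (z : ℝ × ℝ) => autoG al θ r z) :=
      (autoG_meas hal θ).stronglyMeasurable
    exact h.integral_prod_right.measurable
  refine hc.mono' ((measurable_const.div measurable_id).mul hm).aestronglyMeasurable ?_
  filter_upwards [ae_restrict_mem measurableSet_Ioc] with r hr
  have hr0 : 0 < r := hρ.trans hr.1
  rw [norm_mul, Real.norm_eq_abs, abs_of_pos (by positivity)]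
  refine mul_le_mul (one_div_le_one_div_of_le hρ hr.1.le) ?_ (norm_nonneg _) (by positivity)
  have h := norm_integral_le_of_norm_le_const (μ := autoM.prod autoM)
    (f := fun z => autoG al θ r z) (C := 4 * ∫ x, al x ^ 2)
    (ae_of_all _ fun z => autoG_bound hal hB hs θ r z)
  simpa using h

end

theorem auto_lint {al : ℝ → ℝ} (hal : Measurable al) {B a b : ℝ} (hB : ∀ x, |al x| ≤ B)
    (hs : ∀ x, x ∉ Icc a b → al x = 0) :
    ∫⁻ θ in Ioc (0 : ℝ) (1 / 2), ∫⁻ r in Ioi (0 : ℝ), ENNReal.ofReal (1 / r) *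
      ∫⁻ u, ENNReal.ofReal ((m al (θ * r) u - m al r u) ^ 2)
      ≤ ENNReal.ofReal (10 * ∫ x, al x ^ 2) := by
  set N := ∫ x, al x ^ 2 with hN
  have hN0 : 0 ≤ N := integral_nonneg fun x => sq_nonneg _
  have hθ : ∀ θ ∈ Ioc (0 : ℝ) (1 / 2), ∫⁻ r in Ioi (0 : ℝ), ENNReal.ofReal (1 / r) *
      ∫⁻ u, ENNReal.ofReal ((m al (θ * r) u - m al r u) ^ 2)
      ≤ ENNReal.ofReal (2 * N * (8 + Real.log (1 / θ))) := by
    intro θ hθ
    have e1 : ∀ r ∈ Ioi (0 : ℝ), ENNReal.ofReal (1 / r) *
        ∫⁻ u, ENNReal.ofReal ((m al (θ * r) u - m al r u) ^ 2) =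
        ENNReal.ofReal ((1 / r) * ∫ u, (m al (θ * r) u - m al r u) ^ 2) := by
      intro r hr
      have hr0 : (0 : ℝ) < r := hr
      rw [ENNReal.ofReal_mul (by positivity), ofReal_integral_eq_lintegral_ofReal
        (autoL_sq_intble hal hB hs _ _) (ae_of_all _ fun u => sq_nonneg _)]
    rw [setLIntegral_congr_fun measurableSet_Ioi e1]
    have hU : Ioi (0 : ℝ) = ⋃ n : ℕ, Ioc (1 / ((n : ℝ) + 1)) ((n : ℝ) + 1) := by
      ext r
      simp only [mem_Ioi, mem_iUnion, mem_Ioc]
      constructor
      · intro hr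
        obtain ⟨n1, hn1⟩ := exists_nat_one_div_lt hr
        obtain ⟨n2, hn2⟩ := exists_nat_ge r
        refine ⟨max n1 n2, ?_, ?_⟩
        · refine lt_of_le_of_lt ?_ hn1
          exact one_div_le_one_div_of_le (by positivity)
            (by have : (n1 : ℝ) ≤ ((max n1 n2 : ℕ) : ℝ) := by exact_mod_cast le_max_left _ _
                linarith)
        · have : (n2 : ℝ) ≤ ((max n1 n2 : ℕ) : ℝ) := by exact_mod_cast le_max_right _ _
          linarith
      · rintro ⟨n, hn, -⟩
        exact lt_trans (by positivity) hn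
    rw [hU, setLIntegral_iUnion_of_directed]
    · refine iSup_le fun n => ?_
      have hρ : (0 : ℝ) < 1 / ((n : ℝ) + 1) := by positivity
      have hl : 1 / ((n : ℝ) + 1) ≤ (n : ℝ) + 1 := by
        rw [div_le_iff₀ (by positivity)]
        nlinarith [Nat.cast_nonneg (α := ℝ) n]
      rw [← ofReal_integral_eq_lintegral_ofReal (autoL_D_intble hal hB hs hρ θ)]
      · apply ENNReal.ofReal_le_ofReal
        rw [← intervalIntegral.integral_of_le hl]
        exact auto_bound hal hB hs hρ hl hθ.1 (by linarith [hθ.2])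
      · filter_upwards [ae_restrict_mem measurableSet_Ioc] with r hr
        have hr0 : 0 < r := hρ.trans hr.1
        exact mul_nonneg (by positivity) (integral_nonneg fun u => sq_nonneg _)
    · refine Monotone.directed_le fun n1 n2 h => ?_
      have h' : (n1 : ℝ) ≤ n2 := by exact_mod_cast h
      exact Ioc_subset_Ioc (one_div_le_one_div_of_le (by positivity) (by linarith)) (by linarith)
  refine (setLIntegral_mono' measurableSet_Ioc hθ).trans ?_
  have hli : IntervalIntegrable (fun θ : ℝ => 2 * N * (8 + Real.log (1 / θ))) volume 0 (1 / 2) := by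
    have h1 : (fun θ : ℝ => 2 * N * (8 + Real.log (1 / θ))) =
        fun θ => 2 * N * (8 - Real.log θ) := by
      ext θ
      rw [one_div, Real.log_inv]
      ring
    rw [h1]
    exact (intervalIntegrable_const.sub intervalIntegral.intervalIntegrable_log').const_mul _
  rw [← ofReal_integral_eq_lintegral_ofReal
    ((intervalIntegrable_iff_integrableOn_Ioc_of_le (by norm_num)).mp hli)]
  · apply ENNReal.ofReal_le_ofReal
    rw [← intervalIntegral.integral_of_le (by norm_num)]
    have h1 : ∫ θ in (0:ℝ)..(1 / 2), 2 * N * (8 + Real.log (1 / θ)) =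
        2 * N * (4 + (1 / 2 + Real.log 2 / 2)) := by
      rw [intervalIntegral.integral_const_mul]
      congr 1
      have h2 : ∀ θ : ℝ, 8 + Real.log (1 / θ) = 8 - Real.log θ := by
        intro θ
        rw [one_div, Real.log_inv]
        ring
      simp_rw [h2]
      rw [intervalIntegral.integral_sub intervalIntegrable_const
        intervalIntegral.intervalIntegrable_log', integral_log]
      rw [one_div, Real.log_inv]
      simp
      ring
    rw [h1]
    have h3 : Real.log 2 < 0.6931471808 := Real.log_two_lt_d9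
    nlinarith
  · filter_upwards [ae_restrict_mem measurableSet_Ioc] with θ hθ'
    have h1 : 0 ≤ Real.log (1 / θ) := Real.log_nonneg (by
      rw [le_div_iff₀ hθ'.1]
      linarith [hθ'.2])
    simp only [Pi.zero_apply]
    positivity

end Pool.Agent.H799R2.CI
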