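import Pool.Agent.H799R2.CI.Defs

/-!
Task 05 (chg_right), by helper861.
-/

set_option autoImplicit false

open MeasureTheory Set Filter
open scoped ENNReal NNReal ComplexConjugate Topology

namespace Pool.Agent.H799R2.CI

namespace Chg

theorem m_meas {al : ℝ → ℝ} (hal : Measurable al) :
    Measurable (fun p : ℝ × ℝ => m al p.1 p.2) := by
  unfold m
  simp only [intervalIntegral.integral_of_le zero_le_one]
  have h : StronglyMeasurable (fun q : (ℝ × ℝ) × ℝ => al (q.1.2 + q.1.1 * q.2)) := by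
    apply Measurable.stronglyMeasurable
    apply hal.comp
    fun_prop
  exact (StronglyMeasurable.integral_prod_right' (ν := volume.restrict (Ioc (0 : ℝ) 1)) h).measurable

/-- the integrand -/
noncomputable def Phi (al : ℝ → ℝ) (θ r x : ℝ) : ℝ≥0∞ :=
  ENNReal.ofReal (1 / r) * ENNReal.ofReal ((m al (θ * r) x - m al r x) ^ 2)

theorem Phi_meas {al : ℝ → ℝ} (hal : Measurable al) :
    Measurable (fun p : ℝ × ℝ × ℝ => Phi al p.1 p.2.1 p.2.2) := by
  unfold Phi
  have h1 : Measurable (fun p : ℝ × ℝ × ℝ => m al (p.1 * p.2.1) p.2.2) :=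
    (m_meas hal).comp (by fun_prop : Measurable (fun p : ℝ × ℝ × ℝ => (p.1 * p.2.1, p.2.2)))
  have h2 : Measurable (fun p : ℝ × ℝ × ℝ => m al p.2.1 p.2.2) :=
    (m_meas hal).comp (by fun_prop : Measurable (fun p : ℝ × ℝ × ℝ => (p.2.1, p.2.2)))
  have h3 : Measurable (fun p : ℝ × ℝ × ℝ => 1 / p.2.1) := by fun_prop
  exact h3.ennreal_ofReal.mul ((h1.sub h2).pow_const 2).ennreal_ofReal

theorem scale (F : ℝ → ℝ≥0∞) {r : ℝ} (hr : 0 < r) (x : ℝ) :
    ∫⁻ y, F y = ENNReal.ofReal r * ∫⁻ θ, F (x + r * θ) := by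
  rw [← lintegral_add_left_eq_self F x]
  have h := Real.smul_map_volume_mul_left (ne_of_gt hr)
  conv_lhs => rw [← h]
  rw [lintegral_smul_measure, abs_of_pos hr, smul_eq_mul]
  congr 1
  exact lintegral_map_equiv (fun y => F (x + y)) (Homeomorph.mulLeft₀ r (ne_of_gt hr)).toMeasurableEquiv

theorem dq_eq {A : ℝ → ℝ} (hA : LipschitzWith (1 / 2 : ℝ≥0) A) {a b x y : ℝ} (hx : x ∈ Icc a b)
    (hy : y ∈ Icc a b) (hxy : x < y) :
    dq A x y = m ((Icc a b).indicator (deriv A)) (y - x) x := by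
  have h1 : ∫ s in x..y, deriv A s = A y - A x :=
    (hA.lipschitzOnWith.absolutelyContinuousOnInterval).integral_deriv_eq_sub
  have h2 : ∫ s in x..y, (Icc a b).indicator (deriv A) s = ∫ s in x..y, deriv A s := by
    apply intervalIntegral.integral_congr
    intro s hs
    rw [uIcc_of_le hxy.le] at hs
    exact indicator_of_mem (show s ∈ Icc a b from ⟨hx.1.trans hs.1, hs.2.trans hy.2⟩) _
  have h3 : y - x ≠ 0 := sub_ne_zero.2 hxy.ne'
  rw [m, intervalIntegral.integral_comp_add_mul _ h3, mul_zero, mul_one, add_zero,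
    add_sub_cancel, h2, h1, dq, smul_eq_mul, div_eq_inv_mul]

open Classical in
theorem inner_le {A : ℝ → ℝ} (hA : LipschitzWith (1 / 2 : ℝ≥0) A) {a b x z : ℝ}
    (hx : x ∈ Icc a b) (hz : z ∈ Icc a b) :
    ∫⁻ y in Icc a b, (if x < y ∧ y - x ≤ (z - x) / 2 then
        ENNReal.ofReal ((dq A x y - dq A x z) ^ 2 / (z - x) ^ 2) else 0)
      ≤ (Ioi x).indicator (fun z => ∫⁻ θ in Ioc (0 : ℝ) (1 / 2),
          Phi ((Icc a b).indicator (deriv A)) θ (z - x) x) z := by
  by_cases hxz : x < z
  · rw [indicator_of_mem (show z ∈ Ioi x from hxz)]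
    have hr : 0 < z - x := sub_pos.2 hxz
    refine (setLIntegral_le_lintegral _ _).trans ?_
    rw [scale _ hr x, ← lintegral_const_mul' _ _ ENNReal.ofReal_ne_top,
      ← lintegral_indicator measurableSet_Ioc]
    apply lintegral_mono
    intro θ
    by_cases hθ : θ ∈ Ioc (0 : ℝ) (1 / 2)
    · have hy1 : x < x + (z - x) * θ := by nlinarith [hθ.1]
      have hy2 : x + (z - x) * θ - x ≤ (z - x) / 2 := by nlinarith [hθ.2]
      have hy3 : x + (z - x) * θ ≤ z := by nlinarith [hθ.2]
      show ENNReal.ofReal (z - x) * (if _ then _ else _) ≤ _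
      rw [if_pos ⟨hy1, hy2⟩, indicator_of_mem hθ, Phi,
        dq_eq hA hx ⟨hx.1.trans hy1.le, hy3.trans hz.2⟩ hy1, dq_eq hA hx hz hxz,
        ← ENNReal.ofReal_mul hr.le, ← ENNReal.ofReal_mul (by positivity)]
      apply le_of_eq
      congr 1
      have e1 : x + (z - x) * θ - x = θ * (z - x) := by ring
      rw [e1]
      field_simp
    · show ENNReal.ofReal (z - x) * (if _ then _ else _) ≤ _
      rw [if_neg, mul_zero]
      · exact zero_le
      · rintro ⟨h1, h2⟩
        apply hθ
        constructor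
        · by_contra h
          rw [not_lt] at h
          nlinarith
        · by_contra h
          rw [not_le] at h
          nlinarith
  · rw [indicator_of_notMem (show z ∉ Ioi x from hxz)]
    apply le_of_eq
    rw [lintegral_eq_zero_iff']
    · refine Eventually.of_forall fun y => ?_
      show (if _ then _ else _) = _
      rw [if_neg]
      · rfl
      · rintro ⟨h1, h2⟩
        rw [not_lt] at hxz
        linarith
    · have : (fun y => (if x < y ∧ y - x ≤ (z - x) / 2 then
        ENNReal.ofReal ((dq A x y - dq A x z) ^ 2 / (z - x) ^ 2) else 0)) = fun _ => (0 : ℝ≥0∞) := by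
        funext y
        rw [if_neg]
        rintro ⟨h1, h2⟩
        rw [not_lt] at hxz
        linarith
      rw [this]
      exact aemeasurable_const

end Chg

open Chg

open Classical in
theorem chg_right_of
    (auto_lint : ∀ {al : ℝ → ℝ} (_ : Measurable al) {B a b : ℝ} (_ : ∀ x, |al x| ≤ B)
      (_ : ∀ x, x ∉ Icc a b → al x = 0),
      ∫⁻ θ in Ioc (0 : ℝ) (1 / 2), ∫⁻ r in Ioi (0 : ℝ), ENNReal.ofReal (1 / r) *
        ∫⁻ u, ENNReal.ofReal ((m al (θ * r) u - m al r u) ^ 2)
        ≤ ENNReal.ofReal (10 * ∫ x, al x ^ 2))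
    {A : ℝ → ℝ} (hA : LipschitzWith (1 / 2 : ℝ≥0) A) {a b : ℝ} (hab : a ≤ b) :
    ∫⁻ x in Icc a b, ∫⁻ z in Icc a b, ∫⁻ y in Icc a b,
      (if x < y ∧ y - x ≤ (z - x) / 2 then
        ENNReal.ofReal ((dq A x y - dq A x z) ^ 2 / (z - x) ^ 2) else 0)
      ≤ ENNReal.ofReal (5 / 2 * (b - a)) := by
  set al : ℝ → ℝ := (Icc a b).indicator (deriv A) with hal
  have halm : Measurable al := (measurable_deriv A).indicator measurableSet_Icc
  have hd : ∀ x, |deriv A x| ≤ 1 / 2 := fun x => by
    have := norm_deriv_le_of_lipschitz (x₀ := x) hA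
    rw [Real.norm_eq_abs] at this
    simpa using this
  have hB : ∀ x, |al x| ≤ 1 / 2 := fun x => by
    by_cases hx : x ∈ Icc a b
    · rw [hal, indicator_of_mem hx]; exact hd x
    · rw [hal, indicator_of_notMem hx]; norm_num
  have hs : ∀ x, x ∉ Icc a b → al x = 0 := fun x hx => indicator_of_notMem hx _
  have h0 := auto_lint halm hB hs
  have hI : 10 * ∫ x, al x ^ 2 ≤ 5 / 2 * (b - a) := by
    have h1 : (fun x => al x ^ 2) = (Icc a b).indicator (fun x => deriv A x ^ 2) := by
      funext x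
      by_cases hx : x ∈ Icc a b
      · rw [hal, indicator_of_mem hx, indicator_of_mem hx]
      · rw [hal, indicator_of_notMem hx, indicator_of_notMem hx]; norm_num
    rw [h1, integral_indicator measurableSet_Icc]
    have h2 : ∫ x in Icc a b, deriv A x ^ 2 ≤ ∫ x in Icc a b, (1 / 4 : ℝ) := by
      apply setIntegral_mono_on _ _ measurableSet_Icc
      · intro x _
        have := hd x
        rw [← sq_abs]
        nlinarith [abs_nonneg (deriv A x)]
      · refine Measure.integrableOn_of_bounded (M := 1 / 4) (by simp) ?_ ?_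
        · exact ((measurable_deriv A).pow_const 2).aestronglyMeasurable
        · refine Eventually.of_forall fun x => ?_
          have := hd x
          rw [Real.norm_eq_abs, abs_pow]
          nlinarith [abs_nonneg (deriv A x)]
      · simp
    rw [setIntegral_const, smul_eq_mul, Measure.real, Real.volume_Icc,
      ENNReal.toReal_ofReal (sub_nonneg.2 hab)] at h2
    linarith
  refine le_trans ?_ (h0.trans (ENNReal.ofReal_le_ofReal hI))
  -- pointwise
  have h1 : ∀ x ∈ Icc a b, (∫⁻ z in Icc a b, ∫⁻ y in Icc a b,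
      (if x < y ∧ y - x ≤ (z - x) / 2 then
        ENNReal.ofReal ((dq A x y - dq A x z) ^ 2 / (z - x) ^ 2) else 0))
      ≤ ∫⁻ r in Ioi (0 : ℝ), ∫⁻ θ in Ioc (0 : ℝ) (1 / 2), Phi al θ r x := by
    intro x hx
    calc _ ≤ ∫⁻ z in Icc a b, (Ioi x).indicator (fun z => ∫⁻ θ in Ioc (0 : ℝ) (1 / 2),
          Phi al θ (z - x) x) z :=
          setLIntegral_mono' measurableSet_Icc fun z hz => inner_le hA hx hz
      _ ≤ ∫⁻ z, (Ioi x).indicator (fun z => ∫⁻ θ in Ioc (0 : ℝ) (1 / 2),
          Phi al θ (z - x) x) z := setLIntegral_le_lintegral _ _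
      _ = ∫⁻ r, (Ioi x).indicator (fun z => ∫⁻ θ in Ioc (0 : ℝ) (1 / 2),
          Phi al θ (z - x) x) (x + r) := (lintegral_add_left_eq_self _ x).symm
      _ = ∫⁻ r, (Ioi (0 : ℝ)).indicator (fun r => ∫⁻ θ in Ioc (0 : ℝ) (1 / 2), Phi al θ r x) r := by
          apply lintegral_congr
          intro r
          by_cases hr : 0 < r
          · rw [indicator_of_mem (show x + r ∈ Ioi x by simpa using hr),
              indicator_of_mem (show r ∈ Ioi (0 : ℝ) from hr), add_sub_cancel_left]
          · rw [indicator_of_notMem (show x + r ∉ Ioi x by simpa using hr),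
              indicator_of_notMem (show r ∉ Ioi (0 : ℝ) from hr)]
      _ = _ := lintegral_indicator measurableSet_Ioi _
  calc _ ≤ ∫⁻ x in Icc a b, ∫⁻ r in Ioi (0 : ℝ), ∫⁻ θ in Ioc (0 : ℝ) (1 / 2), Phi al θ r x :=
        setLIntegral_mono' measurableSet_Icc h1
    _ ≤ ∫⁻ x, ∫⁻ r in Ioi (0 : ℝ), ∫⁻ θ in Ioc (0 : ℝ) (1 / 2), Phi al θ r x :=
        setLIntegral_le_lintegral _ _
    _ = ∫⁻ r in Ioi (0 : ℝ), ∫⁻ x, ∫⁻ θ in Ioc (0 : ℝ) (1 / 2), Phi al θ r x := by
        apply lintegral_lintegral_swap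
        apply Measurable.aemeasurable
        have : Measurable (fun q : (ℝ × ℝ) × ℝ => Phi al q.2 q.1.2 q.1.1) :=
          (Phi_meas halm).comp (by fun_prop : Measurable
            (fun q : (ℝ × ℝ) × ℝ => (q.2, q.1.2, q.1.1)))
        exact this.lintegral_prod_right'
    _ = ∫⁻ r in Ioi (0 : ℝ), ∫⁻ θ in Ioc (0 : ℝ) (1 / 2), ∫⁻ x, Phi al θ r x := by
        apply lintegral_congr
        intro r
        apply lintegral_lintegral_swap
        apply Measurable.aemeasurable
        exact (Phi_meas halm).comp (by fun_prop : Measurable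
            (fun q : ℝ × ℝ => (q.2, r, q.1)))
    _ = ∫⁻ θ in Ioc (0 : ℝ) (1 / 2), ∫⁻ r in Ioi (0 : ℝ), ∫⁻ x, Phi al θ r x := by
        apply lintegral_lintegral_swap
        apply Measurable.aemeasurable
        have : Measurable (fun q : (ℝ × ℝ) × ℝ => Phi al q.1.2 q.1.1 q.2) :=
          (Phi_meas halm).comp (by fun_prop : Measurable
            (fun q : (ℝ × ℝ) × ℝ => (q.1.2, q.1.1, q.2)))
        exact this.lintegral_prod_right'
    _ = _ := by
        apply lintegral_congr
        intro θ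
        apply lintegral_congr
        intro r
        unfold Phi
        rw [lintegral_const_mul' _ _ ENNReal.ofReal_ne_top]

end Pool.Agent.H799R2.CI
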