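import Pool.Agent.H799R2.CI.AutoL
import Pool.Agent.H799R2.CI.Chg0

/-!
Task 05 (chg_right), by helper861.
-/

set_option autoImplicit false

open MeasureTheory Set Filter
open scoped ENNReal NNReal ComplexConjugate Topology

namespace Pool.Agent.H799R2.CI

open Classical in
theorem chg_right {A : ℝ → ℝ} (hA : LipschitzWith (1 / 2 : ℝ≥0) A) {a b : ℝ} (hab : a ≤ b) :
    ∫⁻ x in Icc a b, ∫⁻ z in Icc a b, ∫⁻ y in Icc a b,
      (if x < y ∧ y - x ≤ (z - x) / 2 then
        ENNReal.ofReal ((dq A x y - dq A x z) ^ 2 / (z - x) ^ 2) else 0)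
      ≤ ENNReal.ofReal (5 / 2 * (b - a)) :=
  chg_right_of auto_lint hA hab

end Pool.Agent.H799R2.CI
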