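import Pool.Agent.H799R2.CI.Defs

set_option autoImplicit false

open MeasureTheory Set Filter
open scoped ENNReal NNReal ComplexConjugate Topology

namespace Pool.Agent.H799R2.CI

/-! local copies of the elementary facts of task 01 -/

private theorem ms_lower {Z : ℝ → ℂ} (hZ : Near Z) (x y : ℝ) : (1 / 2) * |y - x| ≤ ‖Z y - Z x‖ := by
  have h := hZ y x
  have h2 : ‖((y - x : ℝ) : ℂ)‖ = |y - x| := by rw [Complex.norm_real, Real.norm_eq_abs]
  have h3 : ‖((y - x : ℝ) : ℂ)‖ ≤ ‖Z y - Z x‖ + ‖Z y - Z x - ((y - x : ℝ) : ℂ)‖ := by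
    calc ‖((y - x : ℝ) : ℂ)‖ = ‖(Z y - Z x) - (Z y - Z x - ((y - x : ℝ) : ℂ))‖ := by
          congr 1; ring
      _ ≤ _ := norm_sub_le _ _
  linarith

private theorem ms_upper {Z : ℝ → ℂ} (hZ : Near Z) (x y : ℝ) : ‖Z y - Z x‖ ≤ (3 / 2) * |y - x| := by
  have h := hZ y x
  have h2 : ‖((y - x : ℝ) : ℂ)‖ = |y - x| := by rw [Complex.norm_real, Real.norm_eq_abs]
  have h3 : ‖Z y - Z x‖ ≤ ‖((y - x : ℝ) : ℂ)‖ + ‖Z y - Z x - ((y - x : ℝ) : ℂ)‖ := by
    calc ‖Z y - Z x‖ = ‖((y - x : ℝ) : ℂ) + (Z y - Z x - ((y - x : ℝ) : ℂ))‖ := by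
          congr 1; ring
      _ ≤ _ := norm_add_le _ _
  linarith

private theorem ms_cont {Z : ℝ → ℂ} (hZ : Near Z) : Continuous Z := by
  have : LipschitzWith (3 / 2 : ℝ≥0) Z := by
    apply LipschitzWith.of_dist_le_mul
    intro x y
    rw [dist_eq_norm, Real.dist_eq]
    have := ms_upper hZ y x
    simpa using this
  exact this.continuous

private theorem ms_kt_anti (Z : ℝ → ℂ) (ε x y : ℝ) : kt Z ε x y = - kt Z ε y x := by
  unfold kt k
  rw [abs_sub_comm y x]
  split_ifs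
  · rw [← inv_neg, neg_sub]
  · simp

private theorem ms_kt_bound {Z : ℝ → ℂ} (hZ : Near Z) {ε : ℝ} (hε : 0 < ε) (x y : ℝ) :
    ‖kt Z ε x y‖ ≤ 2 / ε := by
  unfold kt
  split_ifs with h
  · unfold k
    rw [norm_inv]
    have h1 := ms_lower hZ x y
    have h2 : ε / 2 ≤ ‖Z y - Z x‖ := by linarith
    calc ‖Z y - Z x‖⁻¹ ≤ (ε / 2)⁻¹ := by
          apply inv_anti₀ (by positivity) h2
      _ = 2 / ε := by rw [inv_div]
  · simp; positivity

theorem kt_meas {Z : ℝ → ℂ} (hZ : Near Z) (ε : ℝ) :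
    Measurable (fun p : ℝ × ℝ => kt Z ε p.1 p.2) := by
  have hc := (ms_cont hZ).measurable
  unfold kt k
  apply Measurable.ite
  · exact measurableSet_lt measurable_const (by fun_prop)
  · exact ((hc.comp measurable_snd).sub (hc.comp measurable_fst)).inv
  · exact measurable_const

theorem kap_meas {Z : ℝ → ℂ} (hZ : Near Z) :
    Measurable (fun p : ℝ × ℝ × ℝ => kap Z p.1 p.2.1 p.2.2) := by
  have hc := (ms_cont hZ).measurable
  unfold kap
  fun_prop

theorem K_meas {Z : ℝ → ℂ} (hZ : Near Z) (a b : ℝ) : Measurable (K Z a b) := by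
  have hF : Measurable (fun q : (ℝ × ℝ) × ℝ => ENNReal.ofReal (kap Z q.1.2 q.1.1 q.2)) :=
    ((kap_meas hZ).comp
      (by fun_prop : Measurable (fun p : (ℝ × ℝ) × ℝ => (p.1.2, p.1.1, p.2)))).ennreal_ofReal
  have h1 : Measurable (fun p : ℝ × ℝ => ∫⁻ z in Icc a b, ENNReal.ofReal (kap Z p.2 p.1 z)) :=
    hF.lintegral_prod_right' (ν := volume.restrict (Icc a b))
  exact h1.lintegral_prod_right' (ν := volume.restrict (Icc a b))

theorem T_meas {Z : ℝ → ℂ} (hZ : Near Z) (ε : ℝ) {g : ℝ → ℂ}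
    (hg : AEStronglyMeasurable g volume) : Measurable (T Z ε g) := by
  have e : T Z ε g = T Z ε (hg.mk g) := by
    funext x
    unfold T
    apply integral_congr_ae
    filter_upwards [hg.ae_eq_mk] with y hy
    rw [hy]
  rw [e]
  unfold T
  apply StronglyMeasurable.measurable
  apply StronglyMeasurable.integral_prod_right'
    (f := fun p : ℝ × ℝ => hg.mk g p.2 * kt Z ε p.1 p.2)
  apply Measurable.stronglyMeasurable
  exact (hg.stronglyMeasurable_mk.measurable.comp measurable_snd).mul (kt_meas hZ ε)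

theorem T_intble {Z : ℝ → ℂ} (hZ : Near Z) {ε : ℝ} (hε : 0 < ε) {g : ℝ → ℂ}
    (hg : Integrable g) (x : ℝ) : Integrable (fun y => g y * kt Z ε x y) := by
  have hm : Measurable (fun y => kt Z ε x y) :=
    (kt_meas hZ ε).comp (measurable_const.prodMk measurable_id)
  exact hg.mul_bdd hm.aestronglyMeasurable
    (Eventually.of_forall (fun y => ms_kt_bound hZ hε x y))

theorem T_bound {Z : ℝ → ℂ} (hZ : Near Z) {ε : ℝ} (hε : 0 < ε) {g : ℝ → ℂ}
    (hg : Integrable g) (x : ℝ) : ‖T Z ε g x‖ ≤ 2 / ε * ∫ y, ‖g y‖ := by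
  unfold T
  rw [← integral_const_mul]
  apply norm_integral_le_of_norm_le (hg.norm.const_mul _)
  apply Eventually.of_forall
  intro y
  rw [norm_mul, mul_comm]
  exact mul_le_mul_of_nonneg_right (ms_kt_bound hZ hε x y) (norm_nonneg _)

theorem T_add {Z : ℝ → ℂ} (hZ : Near Z) {ε : ℝ} (hε : 0 < ε) {g h : ℝ → ℂ}
    (hg : Integrable g) (hh : Integrable h) (x : ℝ) :
    T Z ε (fun y => g y + h y) x = T Z ε g x + T Z ε h x := by
  unfold T
  rw [← integral_add (T_intble hZ hε hg x) (T_intble hZ hε hh x)]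
  congr 1
  ext y
  ring

theorem T_smul (Z : ℝ → ℂ) (ε : ℝ) (c : ℂ) (g : ℝ → ℂ) (x : ℝ) :
    T Z ε (fun y => c * g y) x = c * T Z ε g x := by
  unfold T
  rw [← integral_const_mul]
  congr 1
  ext y
  ring

theorem T_antisymm {Z : ℝ → ℂ} (hZ : Near Z) {ε : ℝ} (hε : 0 < ε) {g h : ℝ → ℂ}
    (hg : Integrable g) (hh : Integrable h) :
    ∫ x, h x * T Z ε g x = - ∫ x, g x * T Z ε h x := by
  have hint : Integrable (fun p : ℝ × ℝ => (h p.1 * g p.2) * kt Z ε p.1 p.2)
      (volume.prod volume) := by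
    have h1 : Integrable (fun p : ℝ × ℝ => h p.1 * g p.2) (volume.prod volume) := hh.mul_prod hg
    exact h1.mul_bdd (kt_meas hZ ε).aestronglyMeasurable
      (Eventually.of_forall (fun p => ms_kt_bound hZ hε p.1 p.2))
  have e1 : ∫ x, h x * T Z ε g x = ∫ x, ∫ y, (h x * g y) * kt Z ε x y := by
    congr 1
    ext x
    unfold T
    rw [← integral_const_mul]
    congr 1
    ext y
    ring
  have e2 : ∫ x, g x * T Z ε h x = ∫ y, ∫ x, (h x * g y) * kt Z ε y x := by
    congr 1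
    ext y
    unfold T
    rw [← integral_const_mul]
    congr 1
    ext x
    ring
  rw [e1, e2, integral_integral_swap hint, ← integral_neg]
  congr 1
  ext y
  rw [← integral_neg]
  congr 1
  ext x
  rw [ms_kt_anti Z ε x y]
  ring

theorem memLp_intble {g : ℝ → ℂ} {a b : ℝ} (hg : MemLp g 2 volume)
    (hs : ∀ x, x ∉ Icc a b → g x = 0) : Integrable g := by
  have h1 : IntegrableOn g (Icc a b) := by
    have : MemLp g 2 (volume.restrict (Icc a b)) := hg.restrict _
    exact this.integrable (by norm_num)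
  rw [← integrableOn_iff_integrable_of_support_subset (s := Icc a b)]
  · exact h1
  · intro x hx
    by_contra hc
    exact hx (hs x hc)

end Pool.Agent.H799R2.CI
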