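import Pool.Agent.H799R2.CI.Alg
import Pool.Agent.H799R2.CI.Meas

/-!
Task 15: pointwise Cotlar inequality.
-/

set_option autoImplicit false

open MeasureTheory Set Filter
open scoped ENNReal NNReal ComplexConjugate Topology

namespace Pool.Agent.H799R2.CI

lemma cot1_T_intOn {Z : ℝ → ℂ} (hZ : Near Z) {g : ℝ → ℂ} (hg : Integrable g) {δ : ℝ} (hδ : 0 < δ)
    {S : Set ℝ} (hfin : volume S < ⊤) : IntegrableOn (T Z δ g) S := by
  have h1 : Measurable (T Z δ g) := T_meas hZ δ hg.aestronglyMeasurable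
  refine Measure.integrableOn_of_bounded (M := 2 / δ * ∫ y, ‖g y‖) hfin.ne h1.aestronglyMeasurable ?_
  exact Eventually.of_forall fun x => T_bound hZ hδ hg x

lemma cot1_pt {Z : ℝ → ℂ} (hZ : Near Z) {g : ℝ → ℂ} (hg : Integrable g) {t ε δ : ℝ} (hε : 0 < ε)
    (hδ : 0 < δ) (hδε : δ ≤ ε / 2) {x : ℝ} (hx : |x - t| ≤ ε / 4) :
    ‖T Z δ g x - T Z ε g t‖ ≤ ‖T Z δ ((Icc (t - ε) (t + ε)).indicator g) x‖ +
      2 * ∫ y in {y | ε < |y - t|}, ‖g y‖ * (ε / (y - t) ^ 2) := by
  set J := Icc (t - ε) (t + ε) with hJ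
  have hJm : MeasurableSet J := measurableSet_Icc
  have hgJ : Integrable (J.indicator g) := hg.indicator hJm
  have hout : ∀ y, ε < |y - t| ↔ y ∉ J := by
    intro y
    rw [← not_le, not_iff_not, abs_le, hJ, mem_Icc]
    constructor
    · rintro ⟨h1, h2⟩
      constructor <;> linarith
    · rintro ⟨h1, h2⟩
      constructor <;> linarith
  have hset : MeasurableSet {y : ℝ | ε < |y - t|} := by
    have : {y : ℝ | ε < |y - t|} = Jᶜ := by
      ext y
      exact hout y
    rw [this]
    exact hJm.compl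
  have e1 : T Z δ g x - T Z ε g t - T Z δ (J.indicator g) x =
      ∫ y in {y | ε < |y - t|}, g y * (k Z x y - k Z t y) := by
    unfold T
    have j1 : Integrable (fun y => g y * kt Z δ x y - g y * kt Z ε t y) :=
      (T_intble hZ hδ hg x).sub (T_intble hZ hε hg t)
    rw [← integral_sub (T_intble hZ hδ hg x) (T_intble hZ hε hg t),
      ← integral_sub j1 (T_intble hZ hδ hgJ x), ← integral_indicator hset]
    apply integral_congr_ae
    refine Eventually.of_forall fun y => ?_
    simp only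
    by_cases hy : ε < |y - t|
    · have hyJ := (hout y).1 hy
      rw [indicator_of_notMem hyJ, indicator_of_mem (show y ∈ {y : ℝ | ε < |y - t|} from hy)]
      have h1 : δ < |y - x| := by
        have h2 : |y - t| ≤ |y - x| + |x - t| := abs_sub_le y x t
        linarith
      unfold kt
      rw [if_pos h1, if_pos hy]
      ring
    · have hyJ : y ∈ J := by
        by_contra hcon
        exact hy ((hout y).2 hcon)
      rw [indicator_of_mem hyJ, indicator_of_notMem (show y ∉ {y : ℝ | ε < |y - t|} from hy)]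
      have h1 : kt Z ε t y = 0 := by
        unfold kt
        rw [if_neg hy]
      rw [h1]
      ring
  have hint : IntegrableOn (fun y => ‖g y‖ * (ε / (y - t) ^ 2)) {y | ε < |y - t|} := by
    have h1 : Measurable fun y : ℝ => ε / (y - t) ^ 2 := by fun_prop
    have h2 : Integrable (fun y => ‖g y‖) (volume.restrict {y | ε < |y - t|}) := hg.norm.restrict
    refine h2.mul_bdd (c := 1 / ε) h1.aestronglyMeasurable ?_
    rw [ae_restrict_iff' hset]
    refine Eventually.of_forall fun y hy => ?_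
    have hy' : ε < |y - t| := hy
    have h3 : ε ^ 2 ≤ (y - t) ^ 2 := by
      rw [← sq_abs (y - t)]
      gcongr
    rw [Real.norm_eq_abs, abs_of_nonneg (by positivity)]
    rw [div_le_div_iff₀ (by nlinarith) hε]
    nlinarith
  have e2 : ‖∫ y in {y | ε < |y - t|}, g y * (k Z x y - k Z t y)‖ ≤
      2 * ∫ y in {y | ε < |y - t|}, ‖g y‖ * (ε / (y - t) ^ 2) := by
    refine (norm_integral_le_integral_norm _).trans ?_
    rw [← integral_const_mul]
    apply integral_mono_of_nonneg
    · exact Eventually.of_forall fun y => norm_nonneg _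
    · exact hint.const_mul 2
    · rw [Filter.EventuallyLE, ae_restrict_iff' hset]
      refine Eventually.of_forall fun y hy => ?_
      have hy' : ε < |y - t| := hy
      have h0 : 0 < |y - t| := hε.trans hy'
      have h2 : |y - t| ≤ |y - x| + |x - t| := abs_sub_le y x t
      have h3 : 3 / 4 * |y - t| ≤ |y - x| := by linarith
      have h4 : 0 < |y - x| := by linarith
      have n1 : x ≠ y := by
        rintro rfl
        simp at h4
      have n2 : t ≠ y := by
        rintro rfl
        simp at h0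
      have h5 := k_diff hZ n1 n2
      have h6 : 6 * |x - t| / (|y - x| * |y - t|) ≤ 2 * (ε / (y - t) ^ 2) := by
        have h7 : 2 * (ε / (y - t) ^ 2) = 2 * ε / |y - t| ^ 2 := by
          rw [sq_abs]
          ring
        rw [h7, div_le_div_iff₀ (by positivity) (by positivity)]
        have h8 : 6 * |x - t| * |y - t| ^ 2 ≤ 6 * (ε / 4) * |y - t| ^ 2 := by gcongr
        have h9 : 2 * ε * (3 / 4 * |y - t| * |y - t|) ≤ 2 * ε * (|y - x| * |y - t|) := by gcongr
        nlinarith
      rw [norm_mul]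
      calc ‖g y‖ * ‖k Z x y - k Z t y‖ ≤ ‖g y‖ * (2 * (ε / (y - t) ^ 2)) :=
            mul_le_mul_of_nonneg_left (h5.trans h6) (norm_nonneg _)
        _ = 2 * (‖g y‖ * (ε / (y - t) ^ 2)) := by ring
  have e3 : T Z δ g x - T Z ε g t = T Z δ (J.indicator g) x +
      ∫ y in {y | ε < |y - t|}, g y * (k Z x y - k Z t y) := by
    rw [← e1]
    ring
  rw [e3]
  exact (norm_add_le _ _).trans (add_le_add le_rfl e2)

theorem cot1 {Z : ℝ → ℂ} (hZ : Near Z) {g : ℝ → ℂ} (hg : Integrable g) {t ε δ : ℝ} (hε : 0 < ε)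
    (hδ : 0 < δ) (hδε : δ ≤ ε / 2) {S : Set ℝ} (hS : MeasurableSet S)
    (hSB : S ⊆ Icc (t - ε / 4) (t + ε / 4)) :
    ‖(∫ x in S, T Z δ g x) - ((volume S).toReal : ℂ) * T Z ε g t‖
      ≤ (∫ x in S, ‖T Z δ ((Icc (t - ε) (t + ε)).indicator g) x‖)
        + (volume S).toReal * (2 * ∫ y in {y | ε < |y - t|}, ‖g y‖ * (ε / (y - t) ^ 2)) := by
  have hfin : volume S < ⊤ := by
    refine lt_of_le_of_lt (measure_mono hSB) ?_
    rw [Real.volume_Icc]
    exact ENNReal.ofReal_lt_top
  have hgJ : Integrable ((Icc (t - ε) (t + ε)).indicator g) := hg.indicator measurableSet_Icc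
  have i1 := cot1_T_intOn hZ hg hδ hfin
  have i2 := (cot1_T_intOn hZ hgJ hδ hfin).norm
  have i3 : IntegrableOn (fun _ : ℝ => T Z ε g t) S := integrableOn_const hfin.ne
  have i4 : IntegrableOn (fun _ : ℝ => 2 * ∫ y in {y | ε < |y - t|}, ‖g y‖ * (ε / (y - t) ^ 2)) S :=
    integrableOn_const hfin.ne
  have e1 : (∫ x in S, T Z δ g x) - ((volume S).toReal : ℂ) * T Z ε g t =
      ∫ x in S, (T Z δ g x - T Z ε g t) := by
    rw [integral_sub i1 i3, setIntegral_const]
    rfl
  have e2 : (∫ x in S, ‖T Z δ ((Icc (t - ε) (t + ε)).indicator g) x‖)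
        + (volume S).toReal * (2 * ∫ y in {y | ε < |y - t|}, ‖g y‖ * (ε / (y - t) ^ 2)) =
      ∫ x in S, (‖T Z δ ((Icc (t - ε) (t + ε)).indicator g) x‖ +
        2 * ∫ y in {y | ε < |y - t|}, ‖g y‖ * (ε / (y - t) ^ 2)) := by
    rw [integral_add i2 i4, setIntegral_const]
    rfl
  rw [e1, e2]
  refine (norm_integral_le_integral_norm _).trans ?_
  apply setIntegral_mono_on (i1.sub i3).norm (i2.add i4) hS
  intro x hx
  have hx' := hSB hx
  rw [mem_Icc] at hx'
  exact cot1_pt hZ hg hε hδ hδε (abs_le.2 ⟨by linarith [hx'.1], by linarith [hx'.2]⟩)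

end Pool.Agent.H799R2.CI
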