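import Pool.Agent.H799R2.CI.Defs

/-!
Task 14: Lebesgue points.
-/

set_option autoImplicit false

open MeasureTheory Set Filter
open scoped ENNReal NNReal ComplexConjugate Topology

namespace Pool.Agent.H799R2.CI

lemma vol_ball_real {t ε : ℝ} (hε : 0 < ε) : (volume.real (Metric.closedBall t ε)) = 2 * ε := by
  rw [Measure.real, Real.volume_closedBall, ENNReal.toReal_ofReal (by linarith)]

lemma leb_pt_aux {E : Type} [NormedAddCommGroup E] [NormedSpace ℝ E] {f : ℝ → E} {t : ℝ} {ε : ℝ}
    (hε : 0 < ε) :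
    ∫ y in Icc (t - ε) (t + ε), f y = (2 * ε) • (⨍ y in Metric.closedBall t ε, f y) := by
  rw [setAverage_eq, vol_ball_real hε, Real.closedBall_eq_Icc, smul_smul,
    mul_inv_cancel₀ (by linarith), one_smul]

theorem leb_ball {w : ℝ → ℝ} (hw : Integrable w) (_h0 : ∀ x, 0 ≤ w x) :
    ∀ᵐ t, ∀ η > 0, ∀ᶠ ε in 𝓝[>] (0 : ℝ), ∫ y in Icc (t - ε) (t + ε), w y ≤ ε * (2 * w t + η) := by
  filter_upwards [IsUnifLocDoublingMeasure.ae_tendsto_average volume hw.locallyIntegrable 1]
    with t ht η hη
  have h1 := ht (l := 𝓝[>] (0 : ℝ)) (fun _ => t) (fun ε => ε) tendsto_id (by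
    filter_upwards [self_mem_nhdsWithin] with ε hε
    rw [mem_Ioi] at hε
    exact Metric.mem_closedBall_self (by linarith))
  have h2 : ∀ᶠ ε in 𝓝[>] (0 : ℝ), (⨍ y in Metric.closedBall t ε, w y) < w t + η / 2 :=
    h1.eventually_lt_const (by linarith)
  filter_upwards [h2, self_mem_nhdsWithin] with ε h3 hε
  rw [mem_Ioi] at hε
  rw [leb_pt_aux hε, smul_eq_mul]
  nlinarith

lemma tail_sqrt_int {ε c : ℝ} (hε : 0 < ε) (hc : 0 ≤ c) :
    ∫⁻ s in Ioo (0 : ℝ) (1 / ε), ENNReal.ofReal (Real.sqrt (ε / s) * c) = ENNReal.ofReal (2 * c) := by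
  have hpos : 0 < 1 / ε := by positivity
  have e1 : ∫⁻ s in Ioo (0 : ℝ) (1 / ε), ENNReal.ofReal (Real.sqrt (ε / s) * c) =
      ∫⁻ s in Ioc (0 : ℝ) (1 / ε), ENNReal.ofReal ((Real.sqrt ε * c) * s ^ (-(1 / 2) : ℝ)) := by
    rw [← restrict_Ioo_eq_restrict_Ioc]
    apply setLIntegral_congr_fun measurableSet_Ioo
    intro s hs
    have hs0 : 0 < s := hs.1
    show ENNReal.ofReal (Real.sqrt (ε / s) * c) = ENNReal.ofReal ((Real.sqrt ε * c) * s ^ (-(1 / 2) : ℝ))
    congr 1
    rw [Real.sqrt_div hε.le, Real.rpow_neg hs0.le, ← Real.sqrt_eq_rpow]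
    ring
  rw [e1]
  have hint : IntervalIntegrable (fun s : ℝ => s ^ (-(1 / 2) : ℝ)) volume 0 (1 / ε) :=
    intervalIntegral.intervalIntegrable_rpow' (by norm_num)
  have hint2 : IntegrableOn (fun s : ℝ => (Real.sqrt ε * c) * s ^ (-(1 / 2) : ℝ)) (Ioc 0 (1 / ε)) := by
    rw [intervalIntegrable_iff_integrableOn_Ioc_of_le hpos.le] at hint
    exact hint.const_mul _
  rw [← ofReal_integral_eq_lintegral_ofReal hint2 (by
    filter_upwards [ae_restrict_mem measurableSet_Ioc] with s hs
    have : 0 < s := hs.1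
    show 0 ≤ _
    positivity)]
  congr 1
  rw [← intervalIntegral.integral_of_le hpos.le, intervalIntegral.integral_const_mul,
    integral_rpow (Or.inl (by norm_num))]
  have h12 : (-(1 / 2) + 1 : ℝ) = 1 / 2 := by norm_num
  rw [h12, Real.zero_rpow (by norm_num), sub_zero, ← Real.sqrt_eq_rpow, Real.sqrt_div one_pos.le,
    Real.sqrt_one]
  have : 0 < Real.sqrt ε := Real.sqrt_pos.2 hε
  field_simp

theorem leb_tail {w : ℝ → ℝ} (hw : Integrable w) (h0 : ∀ x, 0 ≤ w x) :
    ∀ᵐ t, ∀ η > 0, ∀ᶠ ε in 𝓝[>] (0 : ℝ),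
      ∫ y in {y | ε < |y - t|}, w y * (ε / (y - t) ^ 2) ≤ 4 * w t + η := by
  filter_upwards [leb_ball hw h0] with t ht η hη
  have h1 := ht (η / 4) (by linarith)
  obtain ⟨r0, hr0, h2⟩ := mem_nhdsGT_iff_exists_Ioc_subset.1 h1
  rw [mem_Ioi] at hr0
  set N : ℝ := ∫ y, w y with hN
  have hN0 : 0 ≤ N := integral_nonneg h0
  have hwt := h0 t
  -- eventually `ε N / r0^2 ≤ η / 2`
  have h3 : ∀ᶠ ε in 𝓝[>] (0 : ℝ), ε / r0 ^ 2 * N < η / 2 := by
    have : Tendsto (fun ε : ℝ => ε / r0 ^ 2 * N) (𝓝[>] (0 : ℝ)) (𝓝 (0 / r0 ^ 2 * N)) := by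
      apply Tendsto.mono_left _ nhdsWithin_le_nhds
      exact ((continuous_id.div_const _).mul continuous_const).tendsto 0
    rw [zero_div, zero_mul] at this
    exact this.eventually_lt_const (by linarith)
  filter_upwards [h3, self_mem_nhdsWithin] with ε h4 hε
  rw [mem_Ioi] at hε
  set A : Set ℝ := {y | ε < |y - t|} with hA
  have hAm : MeasurableSet A := by
    apply measurableSet_lt measurable_const
    exact (measurable_id.sub_const t).abs
  have hphi : Measurable (fun y : ℝ => ε / (y - t) ^ 2) :=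
    measurable_const.div ((measurable_id.sub_const t).pow_const 2)
  set φ : ℝ → ℝ := A.indicator (fun y : ℝ => ε / (y - t) ^ 2) with hφ
  have hφm : Measurable φ := hphi.indicator hAm
  have hφ0 : ∀ y, 0 ≤ φ y := by
    intro y
    apply indicator_nonneg
    intro y _
    positivity
  rw [integral_eq_lintegral_of_nonneg_ae]
  rotate_left
  · exact Eventually.of_forall (fun y => mul_nonneg (h0 y) (by positivity))
  · exact (hw.aestronglyMeasurable.restrict).mul hphi.aestronglyMeasurable.restrict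
  apply ENNReal.toReal_le_of_le_ofReal (by linarith)
  set μ : Measure ℝ := volume.withDensity (fun y => ENNReal.ofReal (w y)) with hμ
  have e1 : ∫⁻ y in A, ENNReal.ofReal (w y * (ε / (y - t) ^ 2)) = ∫⁻ y, ENNReal.ofReal (φ y) ∂μ := by
    rw [hμ, lintegral_withDensity_eq_lintegral_mul₀ hw.aestronglyMeasurable.aemeasurable.ennreal_ofReal
      hφm.ennreal_ofReal.aemeasurable, ← lintegral_indicator hAm]
    apply lintegral_congr
    intro y
    by_cases hy : y ∈ A
    · rw [indicator_of_mem hy, Pi.mul_apply, hφ, indicator_of_mem hy, ENNReal.ofReal_mul (h0 y)]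
    · rw [indicator_of_notMem hy, Pi.mul_apply, hφ, indicator_of_notMem hy]
      simp
  rw [e1, lintegral_eq_lintegral_meas_lt μ (Eventually.of_forall hφ0) hφm.aemeasurable]
  -- measure of balls
  have hμI : ∀ a b : ℝ, μ (Icc a b) = ENNReal.ofReal (∫ y in Icc a b, w y) := by
    intro a b
    rw [hμ, withDensity_apply _ measurableSet_Icc,
      ofReal_integral_eq_lintegral_ofReal hw.integrableOn (Eventually.of_forall h0)]
  have hμN : ∀ S : Set ℝ, μ S ≤ ENNReal.ofReal N := by
    intro S
    refine (measure_mono (subset_univ S)).trans ?_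
    rw [hμ, withDensity_apply _ MeasurableSet.univ, Measure.restrict_univ, hN,
      ofReal_integral_eq_lintegral_ofReal hw (Eventually.of_forall h0)]
  set c : ℝ := 2 * w t + η / 4 with hc
  have hc0 : 0 ≤ c := by linarith
  have hbd : ∀ s ∈ Ioi (0 : ℝ), μ {a | s < φ a} ≤
      (Ioo (0 : ℝ) (1 / ε)).indicator (fun s => ENNReal.ofReal (Real.sqrt (ε / s) * c)) s +
      (Ioo (0 : ℝ) (ε / r0 ^ 2)).indicator (fun _ => ENNReal.ofReal N) s := by
    intro s hs
    rw [mem_Ioi] at hs
    by_cases h5 : s < 1 / ε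
    · by_cases h6 : s < ε / r0 ^ 2
      · refine le_add_left ?_
        have hmem : s ∈ Ioo (0 : ℝ) (ε / r0 ^ 2) := ⟨hs, h6⟩
        rw [indicator_of_mem hmem]
        exact hμN _
      · refine le_add_right ?_
        have hmem : s ∈ Ioo (0 : ℝ) (1 / ε) := ⟨hs, h5⟩
        rw [indicator_of_mem hmem]
        push Not at h6
        set ρ := Real.sqrt (ε / s) with hρ
        have hρ0 : 0 < ρ := Real.sqrt_pos.2 (by positivity)
        have hρr : ρ ≤ r0 := by
          rw [hρ]
          apply Real.sqrt_le_iff.2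
          refine ⟨hr0.le, ?_⟩
          rw [div_le_iff₀ hs]
          rw [div_le_iff₀ (by positivity)] at h6
          linarith
        have hsub : {a | s < φ a} ⊆ Icc (t - ρ) (t + ρ) := by
          intro a ha
          rw [mem_ofPred_eq] at ha
          have haA : a ∈ A := by
            by_contra hn
            rw [hφ, indicator_of_notMem hn] at ha
            linarith
          rw [hφ, indicator_of_mem haA] at ha
          have ha' : ε < |a - t| := haA
          have hat : 0 < (a - t) ^ 2 := by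
            rw [← sq_abs]
            have : 0 < |a - t| := hε.trans ha'
            positivity
          have h7 : (a - t) ^ 2 ≤ ε / s := by
            rw [le_div_iff₀ hs]
            rw [lt_div_iff₀ hat] at ha
            linarith
          have h8 : |a - t| ≤ ρ := by
            rw [hρ]
            apply Real.le_sqrt_of_sq_le
            rw [sq_abs]
            exact h7
          rw [abs_le] at h8
          constructor <;> linarith [h8.1, h8.2]
        refine (measure_mono hsub).trans ?_
        rw [hμI]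
        apply ENNReal.ofReal_le_ofReal
        exact h2 ⟨hρ0, hρr⟩
    · have : {a | s < φ a} = ∅ := by
        rw [eq_empty_iff_forall_notMem]
        intro a ha
        rw [mem_ofPred_eq] at ha
        have haA : a ∈ A := by
          by_contra hn
          rw [hφ, indicator_of_notMem hn] at ha
          linarith
        rw [hφ, indicator_of_mem haA] at ha
        have ha' : ε < |a - t| := haA
        have h9 : ε ^ 2 < (a - t) ^ 2 := by
          rw [← sq_abs (a - t)]
          exact pow_lt_pow_left₀ ha' hε.le two_ne_zero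
        have h11 : 0 < (a - t) ^ 2 := by nlinarith
        have h10 : ε / (a - t) ^ 2 ≤ 1 / ε := by
          rw [div_le_div_iff₀ h11 hε]
          nlinarith
        linarith
      rw [this, measure_empty]
      exact bot_le
  calc ∫⁻ s in Ioi (0 : ℝ), μ {a | s < φ a}
      ≤ ∫⁻ s in Ioi (0 : ℝ), ((Ioo (0 : ℝ) (1 / ε)).indicator
          (fun s => ENNReal.ofReal (Real.sqrt (ε / s) * c)) s +
          (Ioo (0 : ℝ) (ε / r0 ^ 2)).indicator (fun _ => ENNReal.ofReal N) s) :=
        setLIntegral_mono' measurableSet_Ioi hbd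
    _ ≤ ∫⁻ s, ((Ioo (0 : ℝ) (1 / ε)).indicator
          (fun s => ENNReal.ofReal (Real.sqrt (ε / s) * c)) s +
          (Ioo (0 : ℝ) (ε / r0 ^ 2)).indicator (fun _ => ENNReal.ofReal N) s) :=
        setLIntegral_le_lintegral _ _
    _ = ENNReal.ofReal (2 * c) + ENNReal.ofReal N * ENNReal.ofReal (ε / r0 ^ 2) := by
        rw [lintegral_add_right _ (measurable_const.indicator measurableSet_Ioo),
          lintegral_indicator measurableSet_Ioo, lintegral_indicator measurableSet_Ioo,
          tail_sqrt_int hε hc0, setLIntegral_const, Real.volume_Ioo, sub_zero]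
    _ ≤ ENNReal.ofReal (4 * w t + η) := by
        rw [← ENNReal.ofReal_mul hN0, ← ENNReal.ofReal_add (by positivity) (by positivity)]
        apply ENNReal.ofReal_le_ofReal
        rw [hc]
        nlinarith

theorem leb_density {F : Set ℝ} (hF : MeasurableSet F) :
    ∀ᵐ t ∂(volume.restrict F), ∀ᶠ ε in 𝓝[>] (0 : ℝ),
      ε ≤ (volume (F ∩ Icc (t - ε) (t + ε))).toReal := by
  filter_upwards [Besicovitch.ae_tendsto_measure_inter_div volume F] with t ht
  have h1 : ∀ᶠ ε in 𝓝[>] (0 : ℝ), (1 / 2 : ℝ≥0∞) <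
      volume (F ∩ Metric.closedBall t ε) / volume (Metric.closedBall t ε) :=
    ht.eventually_const_lt (by
      rw [ENNReal.div_lt_iff (by norm_num) (by norm_num)]
      norm_num)
  filter_upwards [h1, self_mem_nhdsWithin] with ε h2 hε
  rw [mem_Ioi] at hε
  rw [Real.closedBall_eq_Icc, Real.volume_Icc] at h2
  have h3 : (t + ε - (t - ε)) = 2 * ε := by ring
  rw [h3, ENNReal.lt_div_iff_mul_lt (by left; simp [hε]) (by left; exact ENNReal.ofReal_ne_top)] at h2
  have h4 : (1 / 2 : ℝ≥0∞) * ENNReal.ofReal (2 * ε) = ENNReal.ofReal ε := by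
    rw [ENNReal.ofReal_mul (by norm_num), ← mul_assoc]
    have : (1 / 2 : ℝ≥0∞) * ENNReal.ofReal 2 = 1 := by
      rw [ENNReal.ofReal_ofNat, one_div, ENNReal.inv_mul_cancel (by norm_num) (by norm_num)]
    rw [this, one_mul]
  rw [h4] at h2
  have hfin : volume (F ∩ Icc (t - ε) (t + ε)) ≠ ⊤ :=
    ne_top_of_le_ne_top (by rw [Real.volume_Icc]; exact ENNReal.ofReal_ne_top)
      (measure_mono inter_subset_right)
  exact (ENNReal.ofReal_le_iff_le_toReal hfin).1 h2.le

theorem leb_avg {F : Set ℝ} (hF : MeasurableSet F) {h : ℝ → ℂ} (hh : IntegrableOn h F) :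
    ∀ᵐ t ∂(volume.restrict F), ∀ η > 0, ∀ᶠ ε in 𝓝[>] (0 : ℝ),
      ‖(∫ x in F ∩ Icc (t - ε) (t + ε), h x)
        - ((volume (F ∩ Icc (t - ε) (t + ε))).toReal : ℂ) * h t‖ ≤ η * ε := by
  have hf : Integrable (F.indicator h) := (integrable_indicator_iff hF).2 hh
  filter_upwards [ae_restrict_of_ae (IsUnifLocDoublingMeasure.ae_tendsto_average_norm_sub volume
    hf.locallyIntegrable 1), ae_restrict_mem hF] with t ht htF η hη
  have h1 := ht (l := 𝓝[>] (0 : ℝ)) (fun _ => t) (fun ε => ε) tendsto_id (by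
    filter_upwards [self_mem_nhdsWithin] with ε hε
    rw [mem_Ioi] at hε
    exact Metric.mem_closedBall_self (by linarith))
  have h2 : ∀ᶠ ε in 𝓝[>] (0 : ℝ),
      (⨍ y in Metric.closedBall t ε, ‖F.indicator h y - F.indicator h t‖) < η / 2 :=
    h1.eventually_lt_const (by linarith)
  filter_upwards [h2, self_mem_nhdsWithin] with ε h3 hε
  rw [mem_Ioi] at hε
  have hSm : MeasurableSet (F ∩ Icc (t - ε) (t + ε)) := hF.inter measurableSet_Icc
  have hSfin : volume (F ∩ Icc (t - ε) (t + ε)) ≠ ⊤ :=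
    ne_top_of_le_ne_top (by rw [Real.volume_Icc]; exact ENNReal.ofReal_ne_top)
      (measure_mono inter_subset_right)
  have hhS : IntegrableOn h (F ∩ Icc (t - ε) (t + ε)) := hh.mono_set inter_subset_left
  have hcS : IntegrableOn (fun _ : ℝ => h t) (F ∩ Icc (t - ε) (t + ε)) :=
    integrableOn_const hSfin
  have e1 : (∫ x in F ∩ Icc (t - ε) (t + ε), h x)
        - ((volume (F ∩ Icc (t - ε) (t + ε))).toReal : ℂ) * h t =
      ∫ x in F ∩ Icc (t - ε) (t + ε), (F.indicator h x - F.indicator h t) := by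
    have : ∫ x in F ∩ Icc (t - ε) (t + ε), (F.indicator h x - F.indicator h t) =
        ∫ x in F ∩ Icc (t - ε) (t + ε), (h x - h t) := by
      apply setIntegral_congr_fun hSm
      intro x hx
      show F.indicator h x - F.indicator h t = h x - h t
      rw [indicator_of_mem hx.1, indicator_of_mem htF]
    rw [this, integral_sub hhS hcS, setIntegral_const, Measure.real, Complex.real_smul]
  rw [e1]
  have hfl : IntegrableOn (fun x => ‖F.indicator h x - F.indicator h t‖) (Icc (t - ε) (t + ε)) := by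
    apply Integrable.norm
    apply Integrable.sub hf.integrableOn
    exact integrableOn_const (by rw [Real.volume_Icc]; exact ENNReal.ofReal_ne_top)
  calc ‖∫ x in F ∩ Icc (t - ε) (t + ε), (F.indicator h x - F.indicator h t)‖
      ≤ ∫ x in F ∩ Icc (t - ε) (t + ε), ‖F.indicator h x - F.indicator h t‖ :=
        norm_integral_le_integral_norm _
    _ ≤ ∫ x in Icc (t - ε) (t + ε), ‖F.indicator h x - F.indicator h t‖ := by
        apply setIntegral_mono_set hfl
        · exact Eventually.of_forall (fun x => norm_nonneg _)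
        · exact Eventually.of_forall inter_subset_right
    _ ≤ η * ε := by
        rw [leb_pt_aux hε, smul_eq_mul]
        nlinarith

end Pool.Agent.H799R2.CI
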