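import Pool.Agent.H799R2.CI.Defs

/-!
Task 13: weak limits in L2.
-/

set_option autoImplicit false

open MeasureTheory Set Filter
open scoped ENNReal NNReal ComplexConjugate Topology

namespace Pool.Agent.H799R2.CI

/-- `∫⁻ |f|^2` is the square of the `L2` norm. -/
lemma lint_sq_eq (μ : Measure ℝ) (f : ℝ → ℂ) : ∫⁻ x, ‖f x‖ₑ ^ 2 ∂μ = (eLpNorm f 2 μ) ^ 2 := by
  rw [eLpNorm_eq_lintegral_rpow_enorm_toReal (by norm_num) (by norm_num)]
  have h2 : (2 : ℝ≥0∞).toReal = 2 := by norm_num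
  rw [h2, ← ENNReal.rpow_natCast, ← ENNReal.rpow_mul]
  norm_num

theorem weak_limit {F : Set ℝ} (hF : MeasurableSet F) (hfin : volume F < ⊤) (G : ℕ → ℝ → ℂ)
    {M : ℝ≥0∞} (hM : M < ⊤) (hG : ∀ n, MemLp (G n) 2 (volume.restrict F))
    (hb : ∀ n, ∫⁻ x in F, ‖G n x‖ₑ ^ 2 ≤ M) :
    ∃ h : ℝ → ℂ, MemLp h 2 (volume.restrict F) ∧ ∫⁻ x in F, ‖h x‖ₑ ^ 2 ≤ M ∧
      ∀ S, MeasurableSet S → S ⊆ F → ∀ (c : ℂ) (r : ℝ),
        (∀ᶠ n in atTop, ‖(∫ x in S, G n x) - c‖ ≤ r) → ‖(∫ x in S, h x) - c‖ ≤ r := by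
  set μ : Measure ℝ := volume.restrict F with hμ
  set R : ℝ := Real.sqrt M.toReal with hR
  have hR0 : 0 ≤ R := Real.sqrt_nonneg _
  have hRsq : (ENNReal.ofReal R) ^ 2 = M := by
    rw [← ENNReal.ofReal_pow hR0, hR, Real.sq_sqrt ENNReal.toReal_nonneg,
      ENNReal.ofReal_toReal hM.ne]
  let g : ℕ → Lp ℂ 2 μ := fun n => (hG n).toLp (G n)
  have hgn : ∀ n, ‖g n‖ ≤ R := by
    intro n
    have h1 : eLpNorm (G n) 2 μ ≤ ENNReal.ofReal R := by
      have := hb n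
      rw [lint_sq_eq, ← hRsq] at this
      exact (ENNReal.pow_le_pow_left_iff two_ne_zero).1 this
    show ‖(hG n).toLp (G n)‖ ≤ R
    rw [Lp.norm_toLp]
    exact ENNReal.toReal_le_of_le_ofReal hR0 h1
  let φ : ℕ → WeakDual ℂ (Lp ℂ 2 μ) := fun n =>
    StrongDual.toWeakDual (InnerProductSpace.toDual ℂ (Lp ℂ 2 μ) (g n))
  have hφ : ∀ n, φ n ∈ WeakDual.toStrongDual ⁻¹' Metric.closedBall (0 : StrongDual ℂ (Lp ℂ 2 μ)) R := by
    intro n
    show (InnerProductSpace.toDual ℂ (Lp ℂ 2 μ) (g n)) ∈ Metric.closedBall (0 : StrongDual ℂ (Lp ℂ 2 μ)) R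
    rw [mem_closedBall_zero_iff, LinearIsometryEquiv.norm_map]
    exact hgn n
  have hcomp := WeakDual.isCompact_closedBall (𝕜 := ℂ) (0 : StrongDual ℂ (Lp ℂ 2 μ)) R
  obtain ⟨ψ, hψ, hlim⟩ := hcomp.ultrafilter_le_nhds ((hyperfilter ℕ).map φ) (by
    rw [Ultrafilter.coe_map, le_principal_iff, mem_map]
    exact Filter.univ_mem' hφ)
  have htend : Tendsto φ (hyperfilter ℕ : Filter ℕ) (𝓝 ψ) := by
    rw [Ultrafilter.coe_map] at hlim
    exact hlim
  let h : Lp ℂ 2 μ := (InnerProductSpace.toDual ℂ (Lp ℂ 2 μ)).symm (WeakDual.toStrongDual ψ)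
  have hhn : ‖h‖ ≤ R := by
    show ‖(InnerProductSpace.toDual ℂ (Lp ℂ 2 μ)).symm (WeakDual.toStrongDual ψ)‖ ≤ R
    rw [LinearIsometryEquiv.norm_map]
    exact mem_closedBall_zero_iff.1 hψ
  refine ⟨h, Lp.memLp h, ?_, ?_⟩
  · rw [lint_sq_eq, ← hRsq]
    have : eLpNorm h 2 μ ≤ ENNReal.ofReal R := by
      rw [ENNReal.le_ofReal_iff_toReal_le (Lp.memLp h).2.ne hR0]
      rw [Lp.norm_def] at hhn
      exact hhn
    gcongr
  · intro S hS hSF c r hev
    have hμS : μ S ≠ ⊤ := by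
      refine ne_top_of_le_ne_top hfin.ne ?_
      rw [hμ, Measure.restrict_apply hS]
      exact measure_mono inter_subset_right
    have hres : μ.restrict S = volume.restrict S := by
      rw [hμ, Measure.restrict_restrict hS, inter_eq_left.2 hSF]
    have hin : ∀ f : Lp ℂ 2 μ, inner ℂ (indicatorConstLp 2 hS hμS (1 : ℂ)) f = ∫ x in S, f x := by
      intro f
      rw [L2.inner_indicatorConstLp_one hS hμS f, hres]
    have hlim2 : Tendsto (fun n => (φ n) (indicatorConstLp 2 hS hμS (1 : ℂ)))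
        (hyperfilter ℕ : Filter ℕ) (𝓝 (ψ (indicatorConstLp 2 hS hμS (1 : ℂ)))) := by
      exact (WeakDual.eval_continuous (indicatorConstLp 2 hS hμS (1 : ℂ))).tendsto ψ |>.comp htend
    have e1 : ∀ n, (φ n) (indicatorConstLp 2 hS hμS (1 : ℂ)) = conj (∫ x in S, G n x) := by
      intro n
      have : ∫ x in S, G n x = ∫ x in S, (g n) x := by
        have hae : (g n : ℝ → ℂ) =ᵐ[μ] G n := MemLp.coeFn_toLp (hG n)
        rw [← hres]
        exact (integral_congr_ae (ae_restrict_of_ae hae)).symm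
      rw [this, ← hin, inner_conj_symm]
      rfl
    have e2 : ψ (indicatorConstLp 2 hS hμS (1 : ℂ)) = conj (∫ x in S, h x) := by
      rw [← hin, inner_conj_symm]
      have := InnerProductSpace.toDual_symm_apply (𝕜 := ℂ) (E := Lp ℂ 2 μ)
        (x := indicatorConstLp 2 hS hμS (1 : ℂ)) (y := WeakDual.toStrongDual ψ)
      exact this.symm
    have hlim3 : Tendsto (fun n => ∫ x in S, G n x) (hyperfilter ℕ : Filter ℕ)
        (𝓝 (∫ x in S, h x)) := by
      have h3 := (Complex.continuous_conj.tendsto _).comp hlim2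
      rw [e2, Complex.conj_conj] at h3
      refine h3.congr ?_
      intro n
      show conj ((φ n) (indicatorConstLp 2 hS hμS (1 : ℂ))) = _
      rw [e1, Complex.conj_conj]
    have hlim4 : Tendsto (fun n => ‖(∫ x in S, G n x) - c‖) (hyperfilter ℕ : Filter ℕ)
        (𝓝 ‖(∫ x in S, h x) - c‖) := (hlim3.sub_const c).norm
    refine le_of_tendsto hlim4 ?_
    have hle : (hyperfilter ℕ : Filter ℕ) ≤ atTop := by
      rw [← Nat.cofinite_eq_atTop]; exact hyperfilter_le_cofinite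
    exact hle hev

end Pool.Agent.H799R2.CI
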