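import Pool.Agent.H799R2.CI.Cot1
import Pool.Agent.H799R2.CI.Weak
import Pool.Agent.H799R2.CI.Leb
import Pool.Agent.H799R2.CI.Meas

set_option autoImplicit false

open MeasureTheory Set Filter
open scoped ENNReal NNReal ComplexConjugate Topology

namespace Pool.Agent.H799R2.CI


/-- Cauchy-Schwarz on a set of finite measure, with the L2 norm bounded by a larger set. -/
theorem cot2_cs {S : Set ℝ} (hSf : volume S ≠ ⊤) {u : ℝ → ℂ} (hu : MemLp u 2 (volume.restrict S))
    {B : ℝ} (hB : 0 ≤ B) (hub : ∫⁻ x in S, ‖u x‖ₑ ^ 2 ≤ ENNReal.ofReal (B ^ 2)) :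
    ∫ x in S, ‖u x‖ ≤ Real.sqrt (volume S).toReal * B := by
  have : IsFiniteMeasure (volume.restrict S) := ⟨by simpa using hSf.lt_top⟩
  have hui : Integrable u (volume.restrict S) := hu.integrable (by norm_num)
  have h1 : ENNReal.ofReal (∫ x in S, ‖u x‖) = ∫⁻ x in S, ‖u x‖ₑ := by
    rw [ofReal_integral_norm_eq_lintegral_enorm hui]
  have h2 : ∫⁻ x in S, ‖u x‖ₑ ≤ (volume S) ^ (1 / 2 : ℝ) * ENNReal.ofReal B := by
    have hm : AEMeasurable (fun x => ‖u x‖ₑ) (volume.restrict S) := hu.1.enorm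
    have := ENNReal.lintegral_mul_le_Lp_mul_Lq (volume.restrict S)
      (Real.HolderConjugate.two_two) (f := fun _ => (1 : ℝ≥0∞)) (g := fun x => ‖u x‖ₑ)
      aemeasurable_const hm
    simp only [Pi.mul_apply, one_mul, ENNReal.one_rpow, lintegral_const, Measure.restrict_apply,
      MeasurableSet.univ, univ_inter] at this
    refine this.trans ?_
    gcongr
    have e : ∫⁻ a in S, ‖u a‖ₑ ^ (2 : ℝ) = ∫⁻ x in S, ‖u x‖ₑ ^ 2 := by
      simp
    rw [e]
    calc (∫⁻ x in S, ‖u x‖ₑ ^ 2) ^ (1 / 2 : ℝ) ≤ (ENNReal.ofReal (B ^ 2)) ^ (1 / 2 : ℝ) := by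
          gcongr
      _ = ENNReal.ofReal B := by
          rw [ENNReal.ofReal_rpow_of_nonneg (by positivity) (by norm_num), ← Real.sqrt_eq_rpow,
            Real.sqrt_sq hB]
  have h3 : (volume S) ^ (1 / 2 : ℝ) * ENNReal.ofReal B =
      ENNReal.ofReal (Real.sqrt (volume S).toReal * B) := by
    rw [ENNReal.ofReal_mul (Real.sqrt_nonneg _), Real.sqrt_eq_rpow,
      ← ENNReal.ofReal_rpow_of_nonneg ENNReal.toReal_nonneg (by norm_num),
      ENNReal.ofReal_toReal hSf]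
  rw [h3, ← h1] at h2
  exact (ENNReal.ofReal_le_ofReal_iff (by positivity)).mp h2

/-- the final arithmetic -/
theorem cot2_arith {s ε X H G I tl N η q : ℝ} (hε : 0 < ε) (hs : ε / 4 ≤ s) (hG : 0 ≤ G)
    (_hI0 : 0 ≤ I) (hN : 0 ≤ N) (hq : 0 ≤ q) (hη : 0 ≤ η) (hI : I ≤ ε * (2 * G ^ 2 + q ^ 2))
    (ht : tl ≤ 4 * G + η / 6) (hNq : 2 * N * q ≤ η / 3)
    (h : s * X ≤ (s * H + η / 3 * (ε / 4)) + (Real.sqrt s * (N * Real.sqrt I) + s * (2 * tl))) :
    X ≤ H + (3 * N + 8) * G + η := by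
  have hs0 : 0 < s := by linarith
  have h1 : Real.sqrt s * Real.sqrt I ≤ s * (3 * G + 2 * q) := by
    rw [← Real.sqrt_mul hs0.le]
    apply Real.sqrt_le_iff.mpr
    constructor
    · positivity
    · have : ε ≤ 4 * s := by linarith
      calc s * I ≤ s * (ε * (2 * G ^ 2 + q ^ 2)) := by gcongr
        _ ≤ s * (4 * s * (2 * G ^ 2 + q ^ 2)) := by gcongr
        _ ≤ (s * (3 * G + 2 * q)) ^ 2 := by
          have : 0 ≤ s ^ 2 * (G ^ 2 + 12 * G * q) := by positivity
          nlinarith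
  have h2 : Real.sqrt s * (N * Real.sqrt I) ≤ s * (N * (3 * G) + η / 3) := by
    calc Real.sqrt s * (N * Real.sqrt I) = N * (Real.sqrt s * Real.sqrt I) := by ring
      _ ≤ N * (s * (3 * G + 2 * q)) := by gcongr
      _ = s * (N * (3 * G) + 2 * N * q) := by ring
      _ ≤ _ := by gcongr
  have h3 : s * (2 * tl) ≤ s * (8 * G + η / 3) := by
    apply mul_le_mul_of_nonneg_left _ hs0.le
    linarith
  have h4 : η / 3 * (ε / 4) ≤ s * (η / 3) := by
    rw [mul_comm]
    gcongr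
  have h5 : s * X ≤ s * (H + (3 * N + 8) * G + η) := by nlinarith
  exact le_of_mul_le_mul_left h5 hs0

theorem cot2 {Z : ℝ → ℂ} (hZ : Near Z) {a b : ℝ} {F : Set ℝ} (hF : MeasurableSet F)
    (hFI : F ⊆ Icc a b) {N : ℝ} (hN : 0 ≤ N) {g : ℝ → ℂ} (hg : MemLp g 2 volume)
    (hs : ∀ x, x ∉ Icc a b → g x = 0) {M : ℝ≥0∞} (hM : M < ⊤)
    (h1 : ∀ n, ∫⁻ x in F, ‖T Z (del n) g x‖ₑ ^ 2 ≤ M)
    (h2 : ∀ n c d, ∫⁻ x in F ∩ Icc c d, ‖T Z (del n) ((Icc c d).indicator g) x‖ₑ ^ 2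
      ≤ ENNReal.ofReal (N ^ 2) * ∫⁻ x in Icc c d, ‖g x‖ₑ ^ 2) :
    ∃ h : ℝ → ℂ, MemLp h 2 (volume.restrict F) ∧ ∫⁻ x in F, ‖h x‖ₑ ^ 2 ≤ M ∧
      ∀ᵐ t ∂(volume.restrict F), ∀ η > 0, ∀ᶠ ε in 𝓝[>] (0 : ℝ),
        ‖T Z ε g t‖ ≤ ‖h t‖ + (3 * N + 8) * ‖g t‖ + η := by
  have hfin : volume F < ⊤ := (measure_mono hFI).trans_lt (by simp)
  have hgi : Integrable g := memLp_intble hg hs
  have hdel : ∀ n, 0 < del n := fun n => by unfold del; positivity
  -- T of an integrable function is in L2 of a set of finite measure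
  have hT : ∀ (u : ℝ → ℂ), Integrable u → ∀ n, ∀ S : Set ℝ, volume S ≠ ⊤ →
      MemLp (T Z (del n) u) 2 (volume.restrict S) := by
    intro u hu n S hS
    have : IsFiniteMeasure (volume.restrict S) := ⟨by simpa using hS.lt_top⟩
    exact MemLp.of_bound (T_meas hZ _ hu.1).aestronglyMeasurable _
      (Eventually.of_forall (fun x => T_bound hZ (hdel n) hu x))
  obtain ⟨h, hh, hhM, hlim⟩ := weak_limit hF hfin (fun n => T Z (del n) g) hM
    (fun n => hT g hgi n F hfin.ne) h1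
  refine ⟨h, hh, hhM, ?_⟩
  have : IsFiniteMeasure (volume.restrict F) := ⟨by simpa using hfin⟩
  have hhi : IntegrableOn h F := hh.integrable (by norm_num)
  have hg2 : Integrable (fun x => ‖g x‖ ^ 2) := by
    have := hg.integrable_norm_rpow (by norm_num) (by norm_num)
    simpa using this
  have p1 := leb_density hF
  have p2 := leb_avg hF hhi
  have p3 : ∀ᵐ t ∂(volume.restrict F), _ :=
    ae_restrict_of_ae (leb_ball hg2 (fun x => by positivity))
  have p4 : ∀ᵐ t ∂(volume.restrict F), _ :=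
    ae_restrict_of_ae (leb_tail hgi.norm (fun x => norm_nonneg _))
  filter_upwards [p1, p2, p3, p4] with t q1 q2 q3 q4
  intro η hη
  set q : ℝ := η / (6 * (N + 1)) with hqdef
  have hq : 0 < q := by positivity
  have hNq : 2 * N * q ≤ η / 3 := by
    rw [hqdef]
    rw [show 2 * N * (η / (6 * (N + 1))) = η / 3 * (N / (N + 1)) by field_simp; ring]
    have : N / (N + 1) ≤ 1 := by rw [div_le_one (by positivity)]; linarith
    calc η / 3 * (N / (N + 1)) ≤ η / 3 * 1 := by gcongr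
      _ = η / 3 := by ring
  -- scaling by 1/4
  have hsc : Tendsto (fun ε : ℝ => ε / 4) (𝓝[>] (0 : ℝ)) (𝓝[>] (0 : ℝ)) := by
    apply tendsto_nhdsWithin_iff.mpr
    constructor
    · have : Tendsto (fun ε : ℝ => ε / 4) (𝓝 (0 : ℝ)) (𝓝 (0 / 4)) :=
        (continuous_id.div_const 4).tendsto 0
      rw [zero_div] at this
      exact this.mono_left nhdsWithin_le_nhds
    · filter_upwards [self_mem_nhdsWithin] with ε hε
      have : (0 : ℝ) < ε := hε
      show 0 < ε / 4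
      positivity
  have r1 := hsc.eventually q1
  have r2 := hsc.eventually (q2 (η / 3) (by positivity))
  have r3 := q3 (q ^ 2) (by positivity)
  have r4 := q4 (η / 6) (by positivity)
  filter_upwards [r1, r2, r3, r4, self_mem_nhdsWithin] with ε e1 e2 e3 e4 hε'
  have hε : 0 < ε := hε'
  set S : Set ℝ := F ∩ Icc (t - ε / 4) (t + ε / 4) with hSdef
  set J : Set ℝ := Icc (t - ε) (t + ε) with hJdef
  have hSm : MeasurableSet S := hF.inter measurableSet_Icc
  have hSF : S ⊆ F := inter_subset_left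
  have hSJ : S ⊆ F ∩ J := by
    intro x hx
    refine ⟨hx.1, ?_⟩
    have := hx.2
    exact ⟨by linarith [this.1], by linarith [this.2]⟩
  have hSfin : volume S ≠ ⊤ := ((measure_mono hSF).trans_lt hfin).ne
  have hJfin : volume (F ∩ J) ≠ ⊤ := ((measure_mono inter_subset_left).trans_lt hfin).ne
  have hIJ : 0 ≤ ∫ y in J, ‖g y‖ ^ 2 := by positivity
  have hind : Integrable (J.indicator g) := hgi.indicator measurableSet_Icc
  -- the bound for every n with del n ≤ ε / 2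
  have hn : ∀ᶠ n in atTop, ‖(∫ x in S, T Z (del n) g x) - ((volume S).toReal : ℂ) * T Z ε g t‖ ≤
      Real.sqrt (volume S).toReal * (N * Real.sqrt (∫ y in J, ‖g y‖ ^ 2)) +
        (volume S).toReal * (2 * ∫ y in {y | ε < |y - t|}, ‖g y‖ * (ε / (y - t) ^ 2)) := by
    have hd0 : Tendsto del atTop (𝓝 0) := tendsto_one_div_add_atTop_nhds_zero_nat
    have hd1 : ∀ᶠ n in atTop, del n ≤ ε / 2 :=
      (hd0.eventually (gt_mem_nhds (by positivity : (0 : ℝ) < ε / 2))).mono (fun _ h => h.le)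
    filter_upwards [hd1] with n hn
    refine (cot1 hZ hgi hε (hdel n) hn hSm inter_subset_right).trans ?_
    gcongr
    apply cot2_cs hSfin (hT _ hind n S hSfin) (by positivity)
    calc ∫⁻ x in S, ‖T Z (del n) (J.indicator g) x‖ₑ ^ 2
        ≤ ∫⁻ x in F ∩ J, ‖T Z (del n) (J.indicator g) x‖ₑ ^ 2 := lintegral_mono_set hSJ
      _ ≤ ENNReal.ofReal (N ^ 2) * ∫⁻ x in J, ‖g x‖ₑ ^ 2 := h2 n _ _
      _ = ENNReal.ofReal (N ^ 2) * ENNReal.ofReal (∫ y in J, ‖g y‖ ^ 2) := by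
          congr 1
          rw [ofReal_integral_eq_lintegral_ofReal hg2.integrableOn
            (Eventually.of_forall (fun x => by positivity))]
          congr 1
          ext x
          rw [← ofReal_norm, ENNReal.ofReal_pow (norm_nonneg _)]
      _ = _ := by
          rw [← ENNReal.ofReal_mul (by positivity)]
          congr 1
          rw [mul_pow, Real.sq_sqrt hIJ]
  have hw := hlim S hSm hSF _ _ hn
  have hsr : ε / 4 ≤ (volume S).toReal := e1
  apply cot2_arith hε hsr (norm_nonneg (g t)) hIJ hN hq.le hη.le e3 e4 hNq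
  have hs0 : 0 ≤ (volume S).toReal := ENNReal.toReal_nonneg
  have n1 : (volume S).toReal * ‖T Z ε g t‖ ≤ ‖∫ x in S, h x‖ +
      ‖(∫ x in S, h x) - ((volume S).toReal : ℂ) * T Z ε g t‖ := by
    calc (volume S).toReal * ‖T Z ε g t‖ = ‖((volume S).toReal : ℂ) * T Z ε g t‖ := by
          rw [norm_mul, Complex.norm_real, Real.norm_of_nonneg hs0]
      _ = ‖(∫ x in S, h x) - ((∫ x in S, h x) - ((volume S).toReal : ℂ) * T Z ε g t)‖ := by
          congr 1; ring
      _ ≤ _ := norm_sub_le _ _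
  have n2 : ‖∫ x in S, h x‖ ≤ (volume S).toReal * ‖h t‖ + η / 3 * (ε / 4) := by
    calc ‖∫ x in S, h x‖ = ‖((volume S).toReal : ℂ) * h t +
          ((∫ x in S, h x) - ((volume S).toReal : ℂ) * h t)‖ := by congr 1; ring
      _ ≤ ‖((volume S).toReal : ℂ) * h t‖ + ‖(∫ x in S, h x) - ((volume S).toReal : ℂ) * h t‖ :=
          norm_add_le _ _
      _ ≤ _ := by
          rw [norm_mul, Complex.norm_real, Real.norm_of_nonneg hs0]
          exact add_le_add le_rfl e2
  linarith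

end Pool.Agent.H799R2.CI
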