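import Pool.Agent.H799R2.CI.Defs

/-!
Task 22 (cover), by helper861.
-/

set_option autoImplicit false

open MeasureTheory Set Filter
open scoped ENNReal NNReal ComplexConjugate Topology

namespace Pool.Agent.H799R2.CI

/-- rational complex numbers are dense -/
theorem cov_dense (w : ℂ) {δ : ℝ} (hδ : 0 < δ) :
    ∃ x y : ℚ, ‖((x : ℂ) + (y : ℂ) * Complex.I) - w‖ ≤ δ := by
  obtain ⟨x, hx1, hx2⟩ := exists_rat_btwn (show w.re - δ / 2 < w.re + δ / 2 by linarith)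
  obtain ⟨y, hy1, hy2⟩ := exists_rat_btwn (show w.im - δ / 2 < w.im + δ / 2 by linarith)
  refine ⟨x, y, ?_⟩
  refine (Complex.norm_le_abs_re_add_abs_im _).trans ?_
  have h1 : (((x : ℂ) + (y : ℂ) * Complex.I) - w).re = x - w.re := by simp
  have h2 : (((x : ℂ) + (y : ℂ) * Complex.I) - w).im = y - w.im := by simp
  rw [h1, h2]
  have h3 : |(x : ℝ) - w.re| ≤ δ / 2 := by rw [abs_le]; constructor <;> linarith
  have h4 : |(y : ℝ) - w.im| ≤ δ / 2 := by rw [abs_le]; constructor <;> linarith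
  linarith

theorem cov_far {L : ℝ} {γ : ℝ → ℂ} (hγ : Continuous γ) {p q t : ℝ} (ht : t ∈ Icc p q)
    (h : ∀ s ∈ Icc (0 : ℝ) L, s ∉ Ioo p q → γ s ≠ γ t) : ∃ j : ℕ, t ∈ far γ L p q j := by
  by_cases hne : (Icc (0 : ℝ) L \ Ioo p q).Nonempty
  · have hK : IsCompact (Icc (0 : ℝ) L \ Ioo p q) := isCompact_Icc.diff isOpen_Ioo
    obtain ⟨s0, hs0, hmin⟩ := hK.exists_isMinOn hne
      (f := fun s => ‖γ s - γ t‖) (by fun_prop)
    have hpos : 0 < ‖γ s0 - γ t‖ := norm_pos_iff.2 (sub_ne_zero.2 (h s0 hs0.1 hs0.2))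
    obtain ⟨j, hj⟩ := exists_nat_one_div_lt hpos
    exact ⟨j, ht, fun s hs hs' => hj.le.trans (hmin ⟨hs, hs'⟩)⟩
  · exact ⟨0, ht, fun s hs hs' => absurd ⟨s, hs, hs'⟩ hne⟩

theorem cov_pt {L : ℝ} {γ : ℝ → ℂ} (hc : Continuous γ) (hinj : InjOn γ (Ico (0 : ℝ) L))
    {t : ℝ} (ht0 : 0 < t) (htL : t < L) (hd : ‖deriv γ t‖ = 1) (hne : γ t ≠ γ L) :
    ∃ (p q x y : ℚ) (j : ℕ),
      (0 : ℝ) ≤ p ∧ (p : ℝ) < q ∧ (q : ℝ) ≤ L ∧ ((x : ℂ) + (y : ℂ) * Complex.I ≠ 0) ∧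
        t ∈ good γ p q ((x : ℂ) + (y : ℂ) * Complex.I) ∩ far γ L p q j := by
  have hdiff : DifferentiableAt ℝ γ t := by
    by_contra h
    rw [deriv_zero_of_not_differentiableAt h, norm_zero] at hd
    exact zero_ne_one hd
  obtain ⟨x, y, hxy⟩ := cov_dense (deriv γ t) (δ := 1 / 16) (by norm_num)
  set v : ℂ := (x : ℂ) + (y : ℂ) * Complex.I with hv
  have hv1 : 15 / 16 ≤ ‖v‖ := by
    have : ‖deriv γ t‖ ≤ ‖v‖ + ‖v - deriv γ t‖ := by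
      calc ‖deriv γ t‖ = ‖v - (v - deriv γ t)‖ := by congr 1; ring
        _ ≤ _ := norm_sub_le _ _
    linarith
  have hv0 : v ≠ 0 := by
    intro h; rw [h, norm_zero] at hv1; linarith
  have hlo := hdiff.hasDerivAt.isLittleO
  have hev := hlo.def (show (0 : ℝ) < 1 / 16 by norm_num)
  obtain ⟨r, hr, hball⟩ := Metric.eventually_nhds_iff.1 hev
  obtain ⟨p, hp1, hp2⟩ := exists_rat_btwn (show max 0 (t - r) < t from max_lt ht0 (by linarith))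
  obtain ⟨q, hq1, hq2⟩ := exists_rat_btwn (show t < min L (t + r) from lt_min htL (by linarith))
  have hp0 : (0 : ℝ) < p := (le_max_left _ _).trans_lt hp1
  have hpr : t - r < p := (le_max_right _ _).trans_lt hp1
  have hqL : (q : ℝ) < L := hq2.trans_le (min_le_left _ _)
  have hqr : (q : ℝ) < t + r := hq2.trans_le (min_le_right _ _)
  obtain ⟨j, hj⟩ := cov_far (L := L) (p := p) (q := q) hc ⟨hp2.le, hq1.le⟩ (by
    intro s hs hs' he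
    rcases eq_or_lt_of_le hs.2 with h1 | h1
    · rw [h1] at he; exact hne he.symm
    · have := hinj ⟨hs.1, h1⟩ ⟨ht0.le, htL⟩ he
      rw [this] at hs'
      exact hs' ⟨hp2, hq1⟩)
  refine ⟨p, q, x, y, j, hp0.le, hp2.trans hq1, hqL.le, hv0, ⟨⟨hp2.le, hq1.le⟩, ?_⟩, hj⟩
  intro s hs
  have h1 : dist s t < r := by
    rw [Real.dist_eq, abs_lt]
    constructor <;> linarith [hs.1, hs.2]
  have h2 := hball h1
  have h3 : γ s - γ t - v * ((s - t : ℝ) : ℂ)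
      = (γ s - γ t - (s - t) • deriv γ t) - (v - deriv γ t) * ((s - t : ℝ) : ℂ) := by
    rw [Complex.real_smul]; ring
  rw [h3]
  have h4 := norm_sub_le (γ s - γ t - (s - t) • deriv γ t) ((v - deriv γ t) * ((s - t : ℝ) : ℂ))
  rw [norm_mul (v - deriv γ t), Complex.norm_real, Real.norm_eq_abs] at h4
  have h5 : ‖γ s - γ t - (s - t) • deriv γ t‖ ≤ 1 / 16 * |s - t| := by
    simpa using h2
  have h6 : 0 ≤ |s - t| := abs_nonneg _
  have h7 : ‖v - deriv γ t‖ * |s - t| ≤ 1 / 16 * |s - t| := mul_le_mul_of_nonneg_right hxy h6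
  have h8 : 15 / 16 * |s - t| ≤ ‖v‖ * |s - t| := mul_le_mul_of_nonneg_right hv1 h6
  nlinarith

theorem cover {L : ℝ} (hL : 0 < L) {γ : ℝ → ℂ} (hγ : LipschitzWith 1 γ)
    (hd : ∀ᵐ s ∂(volume.restrict (Icc (0 : ℝ) L)), ‖deriv γ s‖ = 1)
    (hinj : InjOn γ (Ico (0 : ℝ) L)) :
    ∀ᵐ t ∂(volume.restrict (Icc (0 : ℝ) L)), ∃ (p q x y : ℚ) (j : ℕ),
      (0 : ℝ) ≤ p ∧ (p : ℝ) < q ∧ (q : ℝ) ≤ L ∧ ((x : ℂ) + (y : ℂ) * Complex.I ≠ 0) ∧
        t ∈ good γ p q ((x : ℂ) + (y : ℂ) * Complex.I) ∩ far γ L p q j := by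
  have hsub : (Ico (0 : ℝ) L ∩ {t | γ t = γ L}).Subsingleton := by
    rintro s ⟨hs, hs'⟩ t ⟨ht, ht'⟩
    exact hinj hs ht (hs'.trans ht'.symm)
  have h1 : ∀ᵐ t ∂(volume.restrict (Icc (0 : ℝ) L)), t ∉ Ico (0 : ℝ) L ∩ {t | γ t = γ L} := by
    apply ae_restrict_of_ae
    rw [ae_iff]
    simp only [not_not]
    exact hsub.measure_zero _
  have h2 : ∀ᵐ t ∂(volume.restrict (Icc (0 : ℝ) L)), t ≠ 0 :=
    ae_restrict_of_ae (by rw [ae_iff]; simp)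
  have h3 : ∀ᵐ t ∂(volume.restrict (Icc (0 : ℝ) L)), t ≠ L :=
    ae_restrict_of_ae (by rw [ae_iff]; simp)
  filter_upwards [hd, h1, h2, h3, ae_restrict_mem measurableSet_Icc] with t a1 a2 a3 a4 a5
  have ht0 : 0 < t := lt_of_le_of_ne a5.1 (Ne.symm a3)
  have htL : t < L := lt_of_le_of_ne a5.2 a4
  exact cov_pt hγ.continuous hinj ht0 htL a1 (fun h => a2 ⟨⟨ht0.le, htL⟩, h⟩)

end Pool.Agent.H799R2.CI
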