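import Pool.Agent.H799R2.CI.Alg
import Pool.Agent.H799R2.CI.Meas
import Pool.Agent.H799R2.CI.Chg

set_option autoImplicit false

open MeasureTheory Set Filter
open scoped ENNReal NNReal ComplexConjugate Topology

namespace Pool.Agent.H799R2.CI

/-- swap the first two variables. -/
theorem tri_swap12 {μ : Measure ℝ} [SFinite μ] {Φ : ℝ → ℝ → ℝ → ℝ≥0∞}
    (hΦ : Measurable (fun p : ℝ × ℝ × ℝ => Φ p.1 p.2.1 p.2.2)) :
    ∫⁻ x, ∫⁻ y, ∫⁻ z, Φ x y z ∂μ ∂μ ∂μ = ∫⁻ x, ∫⁻ y, ∫⁻ z, Φ y x z ∂μ ∂μ ∂μ := by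
  have h1 : Measurable (fun q : (ℝ × ℝ) × ℝ => Φ q.1.1 q.1.2 q.2) := by
    have h0 : Measurable (fun q : (ℝ × ℝ) × ℝ => ((q.1.1, q.1.2, q.2) : ℝ × ℝ × ℝ)) := by fun_prop
    have h := hΦ.comp h0
    simp only [Function.comp_def] at h
    exact h
  have h2 : Measurable (fun p : ℝ × ℝ => ∫⁻ z, Φ p.1 p.2 z ∂μ) := h1.lintegral_prod_right'
  exact lintegral_lintegral_swap h2.aemeasurable

/-- swap the last two variables. -/
theorem tri_swap23 {μ : Measure ℝ} [SFinite μ] {Φ : ℝ → ℝ → ℝ → ℝ≥0∞}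
    (hΦ : Measurable (fun p : ℝ × ℝ × ℝ => Φ p.1 p.2.1 p.2.2)) :
    ∫⁻ x, ∫⁻ y, ∫⁻ z, Φ x y z ∂μ ∂μ ∂μ = ∫⁻ x, ∫⁻ y, ∫⁻ z, Φ x z y ∂μ ∂μ ∂μ := by
  apply lintegral_congr
  intro x
  have h1 : Measurable (fun p : ℝ × ℝ => Φ x p.1 p.2) := by
    have h0 : Measurable (fun q : ℝ × ℝ => ((x, q.1, q.2) : ℝ × ℝ × ℝ)) := by fun_prop
    have h := hΦ.comp h0
    simp only [Function.comp_def] at h
    exact h
  exact lintegral_lintegral_swap h1.aemeasurable

theorem dq_add_id (A : ℝ → ℝ) {x y : ℝ} (h : x ≠ y) :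
    dq (fun s => A s - s) x y = dq A x y - 1 := by
  unfold dq
  have : y - x ≠ 0 := sub_ne_zero.mpr h.symm
  field_simp
  ring

theorem lip_im {Z : ℝ → ℂ} (hZ : Near Z) : LipschitzWith (1 / 2 : ℝ≥0) (fun s => (Z s).im) := by
  apply LipschitzWith.of_dist_le_mul
  intro s t
  rw [Real.dist_eq, Real.dist_eq]
  have h := hZ s t
  have h1 := Complex.abs_im_le_norm (Z s - Z t - ((s - t : ℝ) : ℂ))
  simp only [Complex.sub_im, Complex.ofReal_im, sub_zero] at h1
  push_cast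
  linarith

theorem lip_re {Z : ℝ → ℂ} (hZ : Near Z) : LipschitzWith (1 / 2 : ℝ≥0) (fun s => (Z s).re - s) := by
  apply LipschitzWith.of_dist_le_mul
  intro s t
  rw [Real.dist_eq, Real.dist_eq]
  have h := hZ s t
  have h1 := Complex.abs_re_le_norm (Z s - Z t - ((s - t : ℝ) : ℂ))
  simp only [Complex.sub_re, Complex.ofReal_re] at h1
  have h2 : (Z s).re - s - ((Z t).re - t) = (Z s).re - (Z t).re - (s - t) := by ring
  rw [h2]
  push_cast
  linarith

open Classical in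
/-- one-sided kernel. -/
noncomputable def Gp (Z : ℝ → ℂ) (x y z : ℝ) : ℝ≥0∞ :=
  if x < y ∧ y - x ≤ (z - x) / 2 then ENNReal.ofReal (kap Z x y z) else 0

open Classical in
noncomputable def Gm (Z : ℝ → ℂ) (x y z : ℝ) : ℝ≥0∞ :=
  if y < x ∧ x - y ≤ (x - z) / 2 then ENNReal.ofReal (kap Z x y z) else 0

theorem Gp_le {Z : ℝ → ℂ} (hZ : Near Z) (x y z : ℝ) : Gp Z x y z ≤
    256 * (if x < y ∧ y - x ≤ (z - x) / 2 then
        ENNReal.ofReal ((dq (fun s => (Z s).re - s) x y - dq (fun s => (Z s).re - s) x z) ^ 2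
          / (z - x) ^ 2) else 0)
    + 256 * (if x < y ∧ y - x ≤ (z - x) / 2 then
        ENNReal.ofReal ((dq (fun s => (Z s).im) x y - dq (fun s => (Z s).im) x z) ^ 2
          / (z - x) ^ 2) else 0) := by
  unfold Gp
  by_cases h : x < y ∧ y - x ≤ (z - x) / 2
  · rw [if_pos h, if_pos h, if_pos h]
    obtain ⟨h1, h2⟩ := h
    have hxz : x < z := by linarith
    have hyz : y < z := by linarith
    have hk := kap_le_dq hZ h1.ne hxz.ne hyz.ne
    rw [dq_add_id _ h1.ne, dq_add_id _ hxz.ne]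
    set u := dq (fun s => (Z s).re) x y - dq (fun s => (Z s).re) x z with hu
    set v := dq (fun s => (Z s).im) x y - dq (fun s => (Z s).im) x z with hv
    have hu' : dq (fun s => (Z s).re) x y - 1 - (dq (fun s => (Z s).re) x z - 1) = u := by
      rw [hu]; ring
    rw [hu']
    have e : (256 : ℝ≥0∞) = ENNReal.ofReal 256 := by norm_num
    rw [e, ← ENNReal.ofReal_mul (by norm_num), ← ENNReal.ofReal_mul (by norm_num),
      ← ENNReal.ofReal_add (by positivity) (by positivity)]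
    apply ENNReal.ofReal_le_ofReal
    refine hk.trans ?_
    have hz1 : 0 < z - x := by linarith
    have hz2 : 0 < (y - z) ^ 2 := by nlinarith
    have hz3 : (z - x) ^ 2 ≤ 4 * (y - z) ^ 2 := by nlinarith
    rw [← mul_div_assoc, ← mul_div_assoc, ← add_div, div_le_div_iff₀ hz2 (by positivity)]
    have hp : 0 ≤ u ^ 2 + v ^ 2 := by positivity
    nlinarith [mul_le_mul_of_nonneg_left hz3 hp]
  · rw [if_neg h]; exact zero_le

theorem Gp_int {Z : ℝ → ℂ} (hZ : Near Z) {a b : ℝ} (hab : a ≤ b) :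
    ∫⁻ x in Icc a b, ∫⁻ z in Icc a b, ∫⁻ y in Icc a b, Gp Z x y z
      ≤ ENNReal.ofReal (1280 * (b - a)) := by
  classical
  have hm : ∀ (A : ℝ → ℝ), Measurable A → Measurable (fun p : ℝ × ℝ × ℝ =>
      if p.1 < p.2.2 ∧ p.2.2 - p.1 ≤ (p.2.1 - p.1) / 2 then
        ENNReal.ofReal ((dq A p.1 p.2.2 - dq A p.1 p.2.1) ^ 2 / (p.2.1 - p.1) ^ 2) else 0) := by
    intro A hA
    apply Measurable.ite
    · exact (measurableSet_lt (f := fun p : ℝ × ℝ × ℝ => p.1) (g := fun p => p.2.2) (by fun_prop)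
        (by fun_prop)).inter (measurableSet_le (f := fun p : ℝ × ℝ × ℝ => p.2.2 - p.1)
        (g := fun p => (p.2.1 - p.1) / 2) (by fun_prop) (by fun_prop))
    · unfold dq; fun_prop
    · exact measurable_const
  have key : ∀ (A : ℝ → ℝ), LipschitzWith (1 / 2 : ℝ≥0) A →
      ∫⁻ x in Icc a b, ∫⁻ z in Icc a b, ∫⁻ y in Icc a b,
        256 * (if x < y ∧ y - x ≤ (z - x) / 2 then
          ENNReal.ofReal ((dq A x y - dq A x z) ^ 2 / (z - x) ^ 2) else 0)
        ≤ ENNReal.ofReal (640 * (b - a)) := by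
    intro A hA
    have h1 := chg_right hA hab
    calc ∫⁻ x in Icc a b, ∫⁻ z in Icc a b, ∫⁻ y in Icc a b,
        256 * (if x < y ∧ y - x ≤ (z - x) / 2 then
          ENNReal.ofReal ((dq A x y - dq A x z) ^ 2 / (z - x) ^ 2) else 0)
        = 256 * ∫⁻ x in Icc a b, ∫⁻ z in Icc a b, ∫⁻ y in Icc a b,
          (if x < y ∧ y - x ≤ (z - x) / 2 then
          ENNReal.ofReal ((dq A x y - dq A x z) ^ 2 / (z - x) ^ 2) else 0) := by
          rw [← lintegral_const_mul' _ _ (by norm_num)]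
          apply lintegral_congr; intro x
          rw [← lintegral_const_mul' _ _ (by norm_num)]
          apply lintegral_congr; intro z
          rw [← lintegral_const_mul' _ _ (by norm_num)]
      _ ≤ 256 * ENNReal.ofReal (5 / 2 * (b - a)) := by
          gcongr
      _ = _ := by
          have e : (256 : ℝ≥0∞) = ENNReal.ofReal 256 := by norm_num
          rw [e, ← ENNReal.ofReal_mul (by norm_num)]
          congr 1; ring
  have hA1 : LipschitzWith (1 / 2 : ℝ≥0) (fun s => (Z s).re - s) := lip_re hZ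
  have hA2 : LipschitzWith (1 / 2 : ℝ≥0) (fun s => (Z s).im) := lip_im hZ
  set Q1 : ℝ → ℝ → ℝ → ℝ≥0∞ := fun x z y => 256 * (if x < y ∧ y - x ≤ (z - x) / 2 then
        ENNReal.ofReal ((dq (fun s => (Z s).re - s) x y - dq (fun s => (Z s).re - s) x z) ^ 2
          / (z - x) ^ 2) else 0) with hQ1
  set Q2 : ℝ → ℝ → ℝ → ℝ≥0∞ := fun x z y => 256 * (if x < y ∧ y - x ≤ (z - x) / 2 then
        ENNReal.ofReal ((dq (fun s => (Z s).im) x y - dq (fun s => (Z s).im) x z) ^ 2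
          / (z - x) ^ 2) else 0) with hQ2
  have m2 : Measurable (fun p : ℝ × ℝ × ℝ => Q2 p.1 p.2.1 p.2.2) :=
    (hm _ hA2.continuous.measurable).const_mul 256
  have hsum : ∫⁻ x in Icc a b, ∫⁻ z in Icc a b, ∫⁻ y in Icc a b, (Q1 x z y + Q2 x z y)
      = (∫⁻ x in Icc a b, ∫⁻ z in Icc a b, ∫⁻ y in Icc a b, Q1 x z y)
        + ∫⁻ x in Icc a b, ∫⁻ z in Icc a b, ∫⁻ y in Icc a b, Q2 x z y := by
    have i1 : ∀ x z, ∫⁻ y in Icc a b, (Q1 x z y + Q2 x z y)
        = (∫⁻ y in Icc a b, Q1 x z y) + ∫⁻ y in Icc a b, Q2 x z y := by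
      intro x z
      have h0 : Measurable (fun y : ℝ => ((x, z, y) : ℝ × ℝ × ℝ)) := by fun_prop
      have h := m2.comp h0
      simp only [Function.comp_def] at h
      exact lintegral_add_right _ h
    simp_rw [i1]
    have m3 : Measurable (fun q : (ℝ × ℝ) × ℝ => Q2 q.1.1 q.1.2 q.2) := by
      have h0 : Measurable (fun q : (ℝ × ℝ) × ℝ => ((q.1.1, q.1.2, q.2) : ℝ × ℝ × ℝ)) := by fun_prop
      have h := m2.comp h0
      simp only [Function.comp_def] at h
      exact h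
    have m4 : Measurable (fun p : ℝ × ℝ => ∫⁻ y in Icc a b, Q2 p.1 p.2 y) := m3.lintegral_prod_right'
    have i2 : ∀ x, ∫⁻ z in Icc a b, ((∫⁻ y in Icc a b, Q1 x z y) + ∫⁻ y in Icc a b, Q2 x z y)
        = (∫⁻ z in Icc a b, ∫⁻ y in Icc a b, Q1 x z y) + ∫⁻ z in Icc a b, ∫⁻ y in Icc a b, Q2 x z y := by
      intro x
      have h0 : Measurable (fun z : ℝ => ((x, z) : ℝ × ℝ)) := by fun_prop
      have h := m4.comp h0
      simp only [Function.comp_def] at h
      exact lintegral_add_right _ h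
    simp_rw [i2]
    have m5 : Measurable (fun x : ℝ => ∫⁻ z in Icc a b, ∫⁻ y in Icc a b, Q2 x z y) :=
      m4.lintegral_prod_right'
    exact lintegral_add_right _ m5
  calc ∫⁻ x in Icc a b, ∫⁻ z in Icc a b, ∫⁻ y in Icc a b, Gp Z x y z
      ≤ ∫⁻ x in Icc a b, ∫⁻ z in Icc a b, ∫⁻ y in Icc a b, (Q1 x z y + Q2 x z y) := by
        apply lintegral_mono; intro x
        apply lintegral_mono; intro z
        apply lintegral_mono; intro y
        exact Gp_le hZ x y z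
    _ = _ := hsum
    _ ≤ ENNReal.ofReal (640 * (b - a)) + ENNReal.ofReal (640 * (b - a)) := by
        gcongr
        · exact key _ hA1
        · exact key _ hA2
    _ = _ := by
        rw [← ENNReal.ofReal_add (mul_nonneg (by norm_num) (by linarith))
          (mul_nonneg (by norm_num) (by linarith))]
        congr 1; ring

theorem neg_lint {a b : ℝ} (f : ℝ → ℝ≥0∞) :
    ∫⁻ x in Icc a b, f x = ∫⁻ x in Icc (-b) (-a), f (-x) := by
  have hmp : MeasurePreserving (fun t : ℝ => -t) volume volume := Measure.measurePreserving_neg _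
  have hme : MeasurableEmbedding (fun t : ℝ => -t) := (MeasurableEquiv.neg ℝ).measurableEmbedding
  have := hmp.setLIntegral_comp_preimage_emb hme f (Icc a b)
  rw [← this]
  have hs : (fun t : ℝ => -t) ⁻¹' Icc a b = Icc (-b) (-a) := by
    ext t; simp only [mem_preimage, mem_Icc]
    constructor <;> rintro ⟨h1, h2⟩ <;> constructor <;> linarith
  rw [hs]

theorem near_neg {Z : ℝ → ℂ} (hZ : Near Z) : Near (fun s => - Z (-s)) := by
  intro s t
  have h := hZ (-s) (-t)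
  have e : - Z (-s) - - Z (-t) - ((s - t : ℝ) : ℂ) = -(Z (-s) - Z (-t) - ((-s - -t : ℝ) : ℂ)) := by
    push_cast; ring
  rw [e, norm_neg]
  refine h.trans (le_of_eq ?_)
  rw [show -s - -t = -(s - t) by ring, abs_neg]

theorem kap_neg (Z : ℝ → ℂ) (x y z : ℝ) :
    kap (fun s => - Z (-s)) x y z = kap Z (-x) (-y) (-z) := by
  unfold kap
  have e1 : -Z (-y) - -Z (-x) = -(Z (-y) - Z (-x)) := by ring
  have e2 : -Z (-z) - -Z (-x) = -(Z (-z) - Z (-x)) := by ring
  have e3 : -Z (-y) - -Z (-z) = -(Z (-y) - Z (-z)) := by ring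
  rw [e1, e2, e3, norm_neg, norm_neg, norm_neg, map_neg, neg_mul_neg]

theorem Gm_int {Z : ℝ → ℂ} (hZ : Near Z) {a b : ℝ} (hab : a ≤ b) :
    ∫⁻ x in Icc a b, ∫⁻ z in Icc a b, ∫⁻ y in Icc a b, Gm Z x y z
      ≤ ENNReal.ofReal (1280 * (b - a)) := by
  have h := Gp_int (near_neg hZ) (a := -b) (b := -a) (by linarith)
  have e : -a - -b = b - a := by ring
  rw [e] at h
  refine le_trans (le_of_eq ?_) h
  rw [neg_lint]
  apply lintegral_congr; intro x
  rw [neg_lint]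
  apply lintegral_congr; intro z
  rw [neg_lint]
  apply lintegral_congr; intro y
  unfold Gm Gp
  rw [kap_neg]
  have hiff : (-y < -x ∧ -x - -y ≤ (-x - -z) / 2) ↔ (x < y ∧ y - x ≤ (z - x) / 2) := by
    constructor <;> rintro ⟨h1, h2⟩ <;> constructor <;> linarith
  by_cases hc : x < y ∧ y - x ≤ (z - x) / 2
  · rw [if_pos hc, if_pos (hiff.mpr hc)]
  · rw [if_neg hc, if_neg (fun h' => hc (hiff.mp h'))]

/-- two-sided kernel. -/
noncomputable def HH (Z : ℝ → ℂ) (x y z : ℝ) : ℝ≥0∞ := Gp Z x y z + Gm Z x y z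

theorem Gp_meas {Z : ℝ → ℂ} (hZ : Near Z) :
    Measurable (fun p : ℝ × ℝ × ℝ => Gp Z p.1 p.2.1 p.2.2) := by
  classical
  unfold Gp
  apply Measurable.ite
  · exact (measurableSet_lt (f := fun p : ℝ × ℝ × ℝ => p.1) (g := fun p => p.2.1) (by fun_prop)
      (by fun_prop)).inter (measurableSet_le (f := fun p : ℝ × ℝ × ℝ => p.2.1 - p.1)
      (g := fun p => (p.2.2 - p.1) / 2) (by fun_prop) (by fun_prop))
  · exact (kap_meas hZ).ennreal_ofReal
  · exact measurable_const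

theorem Gm_meas {Z : ℝ → ℂ} (hZ : Near Z) :
    Measurable (fun p : ℝ × ℝ × ℝ => Gm Z p.1 p.2.1 p.2.2) := by
  classical
  unfold Gm
  apply Measurable.ite
  · exact (measurableSet_lt (f := fun p : ℝ × ℝ × ℝ => p.2.1) (g := fun p => p.1) (by fun_prop)
      (by fun_prop)).inter (measurableSet_le (f := fun p : ℝ × ℝ × ℝ => p.1 - p.2.1)
      (g := fun p => (p.1 - p.2.2) / 2) (by fun_prop) (by fun_prop))
  · exact (kap_meas hZ).ennreal_ofReal
  · exact measurable_const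

theorem HH_meas {Z : ℝ → ℂ} (hZ : Near Z) :
    Measurable (fun p : ℝ × ℝ × ℝ => HH Z p.1 p.2.1 p.2.2) := (Gp_meas hZ).add (Gm_meas hZ)

theorem HH_int {Z : ℝ → ℂ} (hZ : Near Z) {a b : ℝ} (hab : a ≤ b) :
    ∫⁻ x in Icc a b, ∫⁻ y in Icc a b, ∫⁻ z in Icc a b, HH Z x y z
      ≤ ENNReal.ofReal (2560 * (b - a)) := by
  rw [tri_swap23 (HH_meas hZ)]
  have mG := Gm_meas hZ
  have m2 : Measurable (fun p : ℝ × ℝ × ℝ => Gm Z p.1 p.2.2 p.2.1) := by
    have h0 : Measurable (fun q : ℝ × ℝ × ℝ => ((q.1, q.2.2, q.2.1) : ℝ × ℝ × ℝ)) := by fun_prop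
    have h := mG.comp h0
    simp only [Function.comp_def] at h
    exact h
  have hsum : ∫⁻ x in Icc a b, ∫⁻ z in Icc a b, ∫⁻ y in Icc a b, HH Z x y z
      = (∫⁻ x in Icc a b, ∫⁻ z in Icc a b, ∫⁻ y in Icc a b, Gp Z x y z)
        + ∫⁻ x in Icc a b, ∫⁻ z in Icc a b, ∫⁻ y in Icc a b, Gm Z x y z := by
    unfold HH
    have i1 : ∀ x z, ∫⁻ y in Icc a b, (Gp Z x y z + Gm Z x y z)
        = (∫⁻ y in Icc a b, Gp Z x y z) + ∫⁻ y in Icc a b, Gm Z x y z := by
      intro x z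
      have h0 : Measurable (fun y : ℝ => ((x, z, y) : ℝ × ℝ × ℝ)) := by fun_prop
      have h := m2.comp h0
      simp only [Function.comp_def] at h
      exact lintegral_add_right _ h
    simp_rw [i1]
    have m3 : Measurable (fun q : (ℝ × ℝ) × ℝ => Gm Z q.1.1 q.2 q.1.2) := by
      have h0 : Measurable (fun q : (ℝ × ℝ) × ℝ => ((q.1.1, q.1.2, q.2) : ℝ × ℝ × ℝ)) := by fun_prop
      have h := m2.comp h0
      simp only [Function.comp_def] at h
      exact h
    have m4 : Measurable (fun p : ℝ × ℝ => ∫⁻ y in Icc a b, Gm Z p.1 y p.2) := m3.lintegral_prod_right'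
    have i2 : ∀ x, ∫⁻ z in Icc a b, ((∫⁻ y in Icc a b, Gp Z x y z) + ∫⁻ y in Icc a b, Gm Z x y z)
        = (∫⁻ z in Icc a b, ∫⁻ y in Icc a b, Gp Z x y z) + ∫⁻ z in Icc a b, ∫⁻ y in Icc a b, Gm Z x y z := by
      intro x
      have h0 : Measurable (fun z : ℝ => ((x, z) : ℝ × ℝ)) := by fun_prop
      have h := m4.comp h0
      simp only [Function.comp_def] at h
      exact lintegral_add_right _ h
    simp_rw [i2]
    have m5 : Measurable (fun x : ℝ => ∫⁻ z in Icc a b, ∫⁻ y in Icc a b, Gm Z x y z) :=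
      m4.lintegral_prod_right'
    exact lintegral_add_right _ m5
  rw [hsum]
  calc _ ≤ ENNReal.ofReal (1280 * (b - a)) + ENNReal.ofReal (1280 * (b - a)) := by
        gcongr
        · exact Gp_int hZ hab
        · exact Gm_int hZ hab
    _ = _ := by
        rw [← ENNReal.ofReal_add (mul_nonneg (by norm_num) (by linarith))
          (mul_nonneg (by norm_num) (by linarith))]
        congr 1; ring

theorem kap_self1 (Z : ℝ → ℂ) (x z : ℝ) : kap Z x x z = 0 := by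
  unfold kap; simp

theorem kap_self2 (Z : ℝ → ℂ) (x z : ℝ) : kap Z x z z = 0 := by
  unfold kap; simp

theorem kap_self3 (Z : ℝ → ℂ) (x z : ℝ) : kap Z x z x = 0 := by
  unfold kap; simp

/-- if the ordering u < v < w holds then one of two kernels is active. -/
theorem order_case (Z : ℝ → ℂ) {u v w : ℝ} (h1 : u < v) (h2 : v < w) :
    ENNReal.ofReal (kap Z u v w) ≤ HH Z u v w + HH Z w v u := by
  rcases le_or_gt (v - u) ((w - u) / 2) with h | h
  · have : HH Z u v w ≥ ENNReal.ofReal (kap Z u v w) := by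
      unfold HH Gp
      rw [if_pos ⟨h1, h⟩]
      exact le_self_add
    exact this.trans le_self_add
  · have : HH Z w v u ≥ ENNReal.ofReal (kap Z u v w) := by
      unfold HH Gm
      rw [if_pos ⟨h2, by linarith⟩]
      have e : kap Z w v u = kap Z u v w := by
        rw [kap_swap12, kap_swap23, kap_swap12]
      rw [e]
      exact le_add_self
    exact this.trans le_add_self

theorem kap_le_sum (Z : ℝ → ℂ) (x y z : ℝ) :
    ENNReal.ofReal (kap Z x y z) ≤ HH Z x y z + HH Z x z y + HH Z y x z + HH Z y z x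
      + HH Z z x y + HH Z z y x := by
  have s1 : kap Z x y z = kap Z x z y := kap_swap23 Z x y z
  have s2 : kap Z x y z = kap Z y x z := kap_swap12 Z x y z
  have s3 : kap Z x y z = kap Z y z x := by rw [s2, kap_swap23]
  have s4 : kap Z x y z = kap Z z x y := by rw [s1, kap_swap12]
  have s5 : kap Z x y z = kap Z z y x := by rw [s4, kap_swap23]
  rcases eq_or_ne x y with hxy | hxy
  · rw [hxy, kap_self1]; simp
  rcases eq_or_ne y z with hyz | hyz
  · rw [hyz, kap_self2]; simp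
  rcases eq_or_ne x z with hxz | hxz
  · rw [hxz, kap_self3]; simp
  rcases lt_or_gt_of_ne hxy with a1 | a1 <;> rcases lt_or_gt_of_ne hyz with a2 | a2 <;>
    rcases lt_or_gt_of_ne hxz with a3 | a3
  · refine (order_case Z a1 a2).trans ?_
    calc HH Z x y z + HH Z z y x ≤ HH Z x y z + HH Z z y x + (HH Z x z y + HH Z y x z + HH Z y z x + HH Z z x y) := le_self_add
      _ = _ := by ring
  · exact absurd a3 (by linarith [a1, a2] : ¬ z < x)
  · -- x < y, z < y, x < z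
    rw [s1]
    refine (order_case Z a3 a2).trans ?_
    calc HH Z x z y + HH Z y z x ≤ HH Z x z y + HH Z y z x + (HH Z x y z + HH Z y x z + HH Z z x y + HH Z z y x) := le_self_add
      _ = _ := by ring
  · -- z < x < y
    rw [s4]
    refine (order_case Z a3 a1).trans ?_
    calc HH Z z x y + HH Z y x z ≤ HH Z z x y + HH Z y x z + (HH Z x y z + HH Z x z y + HH Z y z x + HH Z z y x) := le_self_add
      _ = _ := by ring
  · -- y < x, y < z, x < z : y < x < z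
    rw [s2]
    refine (order_case Z a1 a3).trans ?_
    calc HH Z y x z + HH Z z x y ≤ HH Z y x z + HH Z z x y + (HH Z x y z + HH Z x z y + HH Z y z x + HH Z z y x) := le_self_add
      _ = _ := by ring
  · -- y < x, y < z, z < x : y < z < x
    rw [s3]
    refine (order_case Z a2 a3).trans ?_
    calc HH Z y z x + HH Z x z y ≤ HH Z y z x + HH Z x z y + (HH Z x y z + HH Z y x z + HH Z z x y + HH Z z y x) := le_self_add
      _ = _ := by ring
  · exact absurd a3 (by linarith [a1, a2] : ¬ x < z)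
  · -- z < y < x
    rw [s5]
    refine (order_case Z a2 a1).trans ?_
    calc HH Z z y x + HH Z x y z ≤ HH Z z y x + HH Z x y z + (HH Z x z y + HH Z y x z + HH Z y z x + HH Z z x y) := le_self_add
      _ = _ := by ring

theorem curv {Z : ℝ → ℂ} (hZ : Near Z) {a b : ℝ} (hab : a ≤ b) :
    ∫⁻ t in Icc a b, K Z a b t ≤ ENNReal.ofReal (CA * (b - a)) := by
  unfold K
  set μ : Measure ℝ := volume.restrict (Icc a b) with hμ
  have mH := HH_meas hZ
  have perm : ∀ (φ : ℝ × ℝ × ℝ → ℝ × ℝ × ℝ), Measurable φ →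
      Measurable (fun p : ℝ × ℝ × ℝ => HH Z (φ p).1 (φ p).2.1 (φ p).2.2) := by
    intro φ hφ
    have h := mH.comp hφ
    simp only [Function.comp_def] at h
    exact h
  set J : ℝ≥0∞ := ∫⁻ x, ∫⁻ y, ∫⁻ z, HH Z x y z ∂μ ∂μ ∂μ with hJ
  -- the six integrals
  have j1 : ∫⁻ x, ∫⁻ y, ∫⁻ z, HH Z x z y ∂μ ∂μ ∂μ = J := (tri_swap23 mH).symm
  have m1 : Measurable (fun p : ℝ × ℝ × ℝ => HH Z p.1 p.2.2 p.2.1) :=
    perm (fun p => (p.1, p.2.2, p.2.1)) (by fun_prop)
  have m2 : Measurable (fun p : ℝ × ℝ × ℝ => HH Z p.2.1 p.1 p.2.2) :=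
    perm (fun p => (p.2.1, p.1, p.2.2)) (by fun_prop)
  have m3 : Measurable (fun p : ℝ × ℝ × ℝ => HH Z p.2.1 p.2.2 p.1) :=
    perm (fun p => (p.2.1, p.2.2, p.1)) (by fun_prop)
  have m4 : Measurable (fun p : ℝ × ℝ × ℝ => HH Z p.2.2 p.1 p.2.1) :=
    perm (fun p => (p.2.2, p.1, p.2.1)) (by fun_prop)
  have m5 : Measurable (fun p : ℝ × ℝ × ℝ => HH Z p.2.2 p.2.1 p.1) :=
    perm (fun p => (p.2.2, p.2.1, p.1)) (by fun_prop)
  have j2 : ∫⁻ x, ∫⁻ y, ∫⁻ z, HH Z y x z ∂μ ∂μ ∂μ = J := (tri_swap12 mH).symm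
  have j3 : ∫⁻ x, ∫⁻ y, ∫⁻ z, HH Z y z x ∂μ ∂μ ∂μ = J := by
    rw [← j1]; exact (tri_swap12 (Φ := fun x y z => HH Z x z y) m1).symm
  have j4 : ∫⁻ x, ∫⁻ y, ∫⁻ z, HH Z z x y ∂μ ∂μ ∂μ = J := by
    rw [← j2]; exact (tri_swap23 (Φ := fun x y z => HH Z y x z) m2).symm
  have j5 : ∫⁻ x, ∫⁻ y, ∫⁻ z, HH Z z y x ∂μ ∂μ ∂μ = J := by
    rw [← j3]; exact (tri_swap23 (Φ := fun x y z => HH Z y z x) m3).symm
  have hJle : J ≤ ENNReal.ofReal (2560 * (b - a)) := HH_int hZ hab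
  have mk0 : Measurable (fun p : ℝ × ℝ × ℝ => ENNReal.ofReal (kap Z p.1 p.2.1 p.2.2)) :=
    (kap_meas hZ).ennreal_ofReal
  have hsw : ∫⁻ t, ∫⁻ x, ∫⁻ z, ENNReal.ofReal (kap Z x t z) ∂μ ∂μ ∂μ
      = ∫⁻ x, ∫⁻ y, ∫⁻ z, ENNReal.ofReal (kap Z x y z) ∂μ ∂μ ∂μ :=
    (tri_swap12 (Φ := fun x y z => ENNReal.ofReal (kap Z x y z)) mk0).symm
  rw [hsw]
  have addL : ∀ (Φ Ψ : ℝ → ℝ → ℝ → ℝ≥0∞),
      Measurable (fun p : ℝ × ℝ × ℝ => Ψ p.1 p.2.1 p.2.2) →
      ∫⁻ x, ∫⁻ y, ∫⁻ z, (Φ x y z + Ψ x y z) ∂μ ∂μ ∂μ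
        = (∫⁻ x, ∫⁻ y, ∫⁻ z, Φ x y z ∂μ ∂μ ∂μ) + ∫⁻ x, ∫⁻ y, ∫⁻ z, Ψ x y z ∂μ ∂μ ∂μ := by
    intro Φ Ψ mΨ
    have i1 : ∀ x y, ∫⁻ z, (Φ x y z + Ψ x y z) ∂μ = (∫⁻ z, Φ x y z ∂μ) + ∫⁻ z, Ψ x y z ∂μ := by
      intro x y
      have h0 : Measurable (fun z : ℝ => ((x, y, z) : ℝ × ℝ × ℝ)) := by fun_prop
      have h := mΨ.comp h0
      simp only [Function.comp_def] at h
      exact lintegral_add_right _ h
    simp_rw [i1]
    have n3 : Measurable (fun q : (ℝ × ℝ) × ℝ => Ψ q.1.1 q.1.2 q.2) := by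
      have h0 : Measurable (fun q : (ℝ × ℝ) × ℝ => ((q.1.1, q.1.2, q.2) : ℝ × ℝ × ℝ)) := by fun_prop
      have h := mΨ.comp h0
      simp only [Function.comp_def] at h
      exact h
    have n4 : Measurable (fun p : ℝ × ℝ => ∫⁻ z, Ψ p.1 p.2 z ∂μ) := n3.lintegral_prod_right'
    have i2 : ∀ x, ∫⁻ y, ((∫⁻ z, Φ x y z ∂μ) + ∫⁻ z, Ψ x y z ∂μ) ∂μ
        = (∫⁻ y, ∫⁻ z, Φ x y z ∂μ ∂μ) + ∫⁻ y, ∫⁻ z, Ψ x y z ∂μ ∂μ := by
      intro x
      have h0 : Measurable (fun y : ℝ => ((x, y) : ℝ × ℝ)) := by fun_prop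
      have h := n4.comp h0
      simp only [Function.comp_def] at h
      exact lintegral_add_right _ h
    simp_rw [i2]
    have n5 : Measurable (fun x : ℝ => ∫⁻ y, ∫⁻ z, Ψ x y z ∂μ ∂μ) := n4.lintegral_prod_right'
    exact lintegral_add_right _ n5
  calc ∫⁻ x, ∫⁻ y, ∫⁻ z, ENNReal.ofReal (kap Z x y z) ∂μ ∂μ ∂μ
      ≤ ∫⁻ x, ∫⁻ y, ∫⁻ z, (HH Z x y z + HH Z x z y + HH Z y x z + HH Z y z x
      + HH Z z x y + HH Z z y x) ∂μ ∂μ ∂μ := by
        apply lintegral_mono; intro x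
        apply lintegral_mono; intro y
        apply lintegral_mono; intro z
        exact kap_le_sum Z x y z
    _ = J + J + J + J + J + J := by
        rw [addL (fun x y z => HH Z x y z + HH Z x z y + HH Z y x z + HH Z y z x + HH Z z x y)
            (fun x y z => HH Z z y x) m5,
          addL (fun x y z => HH Z x y z + HH Z x z y + HH Z y x z + HH Z y z x)
            (fun x y z => HH Z z x y) m4,
          addL (fun x y z => HH Z x y z + HH Z x z y + HH Z y x z) (fun x y z => HH Z y z x) m3,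
          addL (fun x y z => HH Z x y z + HH Z x z y) (fun x y z => HH Z y x z) m2,
          addL (fun x y z => HH Z x y z) (fun x y z => HH Z x z y) m1, j1, j2, j3, j4, j5]
    _ = 6 * J := by ring
    _ ≤ 6 * ENNReal.ofReal (2560 * (b - a)) := by gcongr
    _ ≤ _ := by
        have e : (6 : ℝ≥0∞) = ENNReal.ofReal 6 := by norm_num
        rw [e, ← ENNReal.ofReal_mul (by norm_num)]
        apply ENNReal.ofReal_le_ofReal
        have : 0 ≤ b - a := by linarith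
        unfold CA
        nlinarith

end Pool.Agent.H799R2.CI
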