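import Mathlib

/-!
Definitions for the weighted L2 bound of the Cauchy integral on rectifiable curves
(MP_1503c7_an, S02703).  See the table h799_tasks for the paper proof.
-/

set_option autoImplicit false

open MeasureTheory Set Filter
open scoped ENNReal NNReal ComplexConjugate Topology

namespace Pool.Agent.H799R2.CI

/-- Z is a small perturbation of the identity (a bilipschitz curve). -/
def Near (Z : ℝ → ℂ) : Prop :=
  ∀ s t : ℝ, ‖Z s - Z t - ((s - t : ℝ) : ℂ)‖ ≤ (1 / 2) * |s - t|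

/-- Cauchy kernel. -/
noncomputable def k (Z : ℝ → ℂ) (x y : ℝ) : ℂ := (Z y - Z x)⁻¹

open Classical in
/-- truncated Cauchy kernel. -/
noncomputable def kt (Z : ℝ → ℂ) (ε x y : ℝ) : ℂ := if ε < |y - x| then k Z x y else 0

/-- truncated Cauchy integral. -/
noncomputable def T (Z : ℝ → ℂ) (ε : ℝ) (g : ℝ → ℂ) (x : ℝ) : ℂ := ∫ y, g y * kt Z ε x y

/-- indicator function of an interval. -/
noncomputable def one (a b : ℝ) : ℝ → ℂ := (Icc a b).indicator (fun _ => (1 : ℂ))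

/-- squared Menger curvature of the triple Z x, Z y, Z z. -/
noncomputable def kap (Z : ℝ → ℂ) (x y z : ℝ) : ℝ :=
  (2 * ((Z y - Z x) * conj (Z z - Z x)).im) ^ 2 /
    (‖Z y - Z x‖ ^ 2 * ‖Z z - Z x‖ ^ 2 * ‖Z y - Z z‖ ^ 2)

/-- truncated symmetrised kernel: the sum over the 6 orderings. -/
noncomputable def kapt (Z : ℝ → ℂ) (ε x y z : ℝ) : ℂ :=
  kt Z ε x y * conj (kt Z ε x z) + kt Z ε x z * conj (kt Z ε x y)
    + kt Z ε y x * conj (kt Z ε y z) + kt Z ε y z * conj (kt Z ε y x)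
    + kt Z ε z x * conj (kt Z ε z y) + kt Z ε z y * conj (kt Z ε z x)

open Classical in
/-- elementary error kernel, centred at c, with a close to b. -/
noncomputable def er (ε c a b : ℝ) : ℝ :=
  if |a - b| ≤ ε ∧ ε < |c - a| ∧ ε < |c - b| then 8 / (|c - a| * |c - b|) else 0

/-- pointwise curvature potential. -/
noncomputable def K (Z : ℝ → ℂ) (a b t : ℝ) : ℝ≥0∞ :=
  ∫⁻ x in Icc a b, ∫⁻ z in Icc a b, ENNReal.ofReal (kap Z x t z)

/-- difference quotient. -/
noncomputable def dq (A : ℝ → ℝ) (x y : ℝ) : ℝ := (A y - A x) / (y - x)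

/-- average of al over [x, x+r] (rescaled to [0,1]). -/
noncomputable def m (al : ℝ → ℝ) (r x : ℝ) : ℝ := ∫ t in (0 : ℝ)..1, al (x + r * t)

/-- absolute constants. -/
def CA : ℝ := 20000
/-- constant of Lemma B. -/
def CB : ℝ := 4000

/-- the weak-limit parameter sequence of truncations. -/
noncomputable def del (n : ℕ) : ℝ := 1 / ((n : ℝ) + 1)

/-- the points of [a,b] seen from which the curve is close to a line with slope v. -/
def good (γ : ℝ → ℂ) (a b : ℝ) (v : ℂ) : Set ℝ :=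
  {t | t ∈ Icc a b ∧ ∀ s ∈ Icc a b, ‖γ s - γ t - v * ((s - t : ℝ) : ℂ)‖ ≤ (1 / 4) * ‖v‖ * |s - t|}

/-- the points of [a,b] whose image is far from the image of the complement of (a,b). -/
def far (γ : ℝ → ℂ) (L a b : ℝ) (j : ℕ) : Set ℝ :=
  {t | t ∈ Icc a b ∧ ∀ s ∈ Icc (0 : ℝ) L, s ∉ Ioo a b → 1 / ((j : ℝ) + 1) ≤ ‖γ s - γ t‖}

/-- the density of the near part. -/
noncomputable def gg (γ : ℝ → ℂ) (a b : ℝ) (v : ℂ) (f : ℝ → ℂ) : ℝ → ℂ :=
  (Icc a b).indicator (fun s => f s * deriv γ s / v)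

/-- the truncated Cauchy integral of the frozen statement. -/
noncomputable def CI (γ : ℝ → ℂ) (L : ℝ) (f : ℝ → ℂ) (ε t : ℝ) : ℂ :=
  (2 * (Real.pi : ℂ) * Complex.I)⁻¹ *
    ∫ s in {s : ℝ | s ∈ Set.Icc (0 : ℝ) L ∧ ε < ‖γ s - γ t‖}, f s * deriv γ s / (γ s - γ t)

/-- the Marcinkiewicz kernel of a closed set E. -/
noncomputable def mk (E : Set ℝ) (s t : ℝ) : ℝ≥0∞ := ENNReal.ofReal (Metric.infDist s E / (s - t) ^ 2)

end Pool.Agent.H799R2.CI
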