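import Pool.Agent.H799R2.CI.Defs

/-!
Task 07 of h799_tasks (helper496): error kernels.
-/

set_option autoImplicit false

open MeasureTheory Set Filter
open scoped ENNReal NNReal ComplexConjugate Topology

namespace Pool.Agent.H799R2.CI

theorem er_meas (ε : ℝ) : Measurable (fun p : ℝ × ℝ × ℝ => er ε p.1 p.2.1 p.2.2) := by
  unfold er
  have m1 : Measurable (fun p : ℝ × ℝ × ℝ => |p.2.1 - p.2.2|) := by fun_prop
  have m2 : Measurable (fun p : ℝ × ℝ × ℝ => |p.1 - p.2.1|) := by fun_prop
  have m3 : Measurable (fun p : ℝ × ℝ × ℝ => |p.1 - p.2.2|) := by fun_prop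
  refine Measurable.ite ?_ ?_ measurable_const
  · have e : {p : ℝ × ℝ × ℝ | |p.2.1 - p.2.2| ≤ ε ∧ ε < |p.1 - p.2.1| ∧ ε < |p.1 - p.2.2|}
        = {p | |p.2.1 - p.2.2| ≤ ε} ∩ ({p | ε < |p.1 - p.2.1|} ∩ {p | ε < |p.1 - p.2.2|}) := by
      ext p; simp
    rw [e]
    exact (measurableSet_le m1 measurable_const).inter
      ((measurableSet_lt measurable_const m2).inter (measurableSet_lt measurable_const m3))
  · exact measurable_const.div (m2.mul m3)

namespace ErrAux

/-- kernel 4/u^2 outside of [-ε,ε]. -/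
noncomputable def P (ε u : ℝ) : ℝ≥0∞ :=
  (Ioi ε).indicator (fun u => ENNReal.ofReal (4 / u ^ 2)) u
    + (Ioi ε).indicator (fun u => ENNReal.ofReal (4 / u ^ 2)) (-u)

/-- indicator of [-ε,ε]. -/
noncomputable def Q (ε u : ℝ) : ℝ≥0∞ := (Icc (-ε) ε).indicator (fun _ => 1) u

theorem meas1 : Measurable (fun u : ℝ => ENNReal.ofReal (4 / u ^ 2)) := by
  refine ENNReal.measurable_ofReal.comp ?_
  exact measurable_const.div (measurable_id.pow_const 2)

theorem P_meas (ε : ℝ) : Measurable (P ε) := by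
  unfold P
  exact (meas1.indicator measurableSet_Ioi).add
    ((meas1.indicator measurableSet_Ioi).comp measurable_neg)

theorem Q_meas (ε : ℝ) : Measurable (Q ε) := by
  unfold Q
  exact measurable_const.indicator measurableSet_Icc

theorem half {ε : ℝ} (hε : 0 < ε) :
    ∫⁻ u, (Ioi ε).indicator (fun u => ENNReal.ofReal (4 / u ^ 2)) u = ENNReal.ofReal (4 / ε) := by
  rw [lintegral_indicator measurableSet_Ioi]
  have h1 : ∀ u ∈ Ioi ε, (4 / u ^ 2 : ℝ) = 4 * u ^ (-2 : ℝ) := by
    intro u hu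
    have hu0 : 0 < u := hε.trans hu
    rw [Real.rpow_neg hu0.le, div_eq_mul_inv]
    norm_num
  have hint : IntegrableOn (fun u : ℝ => (4 : ℝ) * u ^ (-2 : ℝ)) (Ioi ε) :=
    (integrableOn_Ioi_rpow_of_lt (by norm_num) hε).const_mul 4
  have h2 : ∫⁻ u in Ioi ε, ENNReal.ofReal (4 / u ^ 2)
      = ∫⁻ u in Ioi ε, ENNReal.ofReal (4 * u ^ (-2 : ℝ)) := by
    refine setLIntegral_congr_fun measurableSet_Ioi ?_
    intro u hu
    simp only []
    rw [h1 u hu]
  rw [h2, ← ofReal_integral_eq_lintegral_ofReal hint]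
  · congr 1
    rw [integral_const_mul, integral_Ioi_rpow_of_lt (by norm_num) hε]
    norm_num
    rw [Real.rpow_neg_one]
    rfl
  · refine (ae_restrict_iff' measurableSet_Ioi).2 (Eventually.of_forall ?_)
    intro u hu
    have hu0 : 0 < u := hε.trans hu
    positivity

theorem P_int {ε : ℝ} (hε : 0 < ε) : ∫⁻ u, P ε u = ENNReal.ofReal (8 / ε) := by
  unfold P
  rw [lintegral_add_left (meas1.indicator measurableSet_Ioi)]
  have := lintegral_neg_eq_self (μ := volume)
    (fun u : ℝ => (Ioi ε).indicator (fun u => ENNReal.ofReal (4 / u ^ 2)) u)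
  rw [this, half hε, ← ENNReal.ofReal_add (by positivity) (by positivity)]
  congr 1; ring

theorem Q_int {ε : ℝ} (hε : 0 < ε) : ∫⁻ u, Q ε u = ENNReal.ofReal (2 * ε) := by
  unfold Q
  rw [lintegral_indicator measurableSet_Icc, setLIntegral_const, Real.volume_Icc, one_mul]
  congr 1; ring

theorem PQ {ε : ℝ} (hε : 0 < ε) : (∫⁻ u, P ε u) * (∫⁻ u, Q ε u) = 16 := by
  rw [P_int hε, Q_int hε, ← ENNReal.ofReal_mul (by positivity)]
  have : 8 / ε * (2 * ε) = 16 := by field_simp; norm_num
  rw [this]; norm_num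

theorem P_lower {ε u : ℝ} (h : ε < |u|) : ENNReal.ofReal (4 / u ^ 2) ≤ P ε u := by
  unfold P
  rcases le_or_gt 0 u with h0 | h0
  · rw [abs_of_nonneg h0] at h
    refine le_trans ?_ le_self_add
    rw [indicator_of_mem (mem_Ioi.2 h)]
  · rw [abs_of_neg h0] at h
    refine le_trans ?_ le_add_self
    rw [indicator_of_mem (mem_Ioi.2 h)]
    simp

theorem Q_lower {ε u : ℝ} (h : |u| ≤ ε) : Q ε u = 1 := by
  unfold Q
  rw [indicator_of_mem (mem_Icc.2 (abs_le.1 h))]

theorem er_le {ε : ℝ} (hε : 0 < ε) (c a b : ℝ) :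
    ENNReal.ofReal (er ε c a b) ≤ P ε (c - a) * Q ε (a - b) + P ε (c - b) * Q ε (a - b) := by
  unfold er
  split_ifs with h
  · obtain ⟨h1, h2, h3⟩ := h
    rw [Q_lower h1, mul_one, mul_one]
    refine le_trans ?_ (add_le_add (P_lower h2) (P_lower h3))
    have p2 : 0 < |c - a| := hε.trans h2
    have p3 : 0 < |c - b| := hε.trans h3
    rw [← ENNReal.ofReal_add (by positivity) (by positivity)]
    refine ENNReal.ofReal_le_ofReal ?_
    rw [← sq_abs (c - a), ← sq_abs (c - b)]
    generalize |c - a| = s at *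
    generalize |c - b| = t at *
    have e : 4 / s ^ 2 + 4 / t ^ 2 - 8 / (s * t) = 4 * (1 / s - 1 / t) ^ 2 := by
      field_simp; ring
    nlinarith [sq_nonneg (1 / s - 1 / t), e]
  · simp

end ErrAux

open ErrAux

theorem er_int1 {ε : ℝ} (hε : 0 < ε) (y : ℝ) :
    ∫⁻ x, ∫⁻ z, ENNReal.ofReal (er ε y x z) ≤ 32 := by
  have hP := P_meas ε
  have hQ := Q_meas ε
  calc ∫⁻ x, ∫⁻ z, ENNReal.ofReal (er ε y x z)
      ≤ ∫⁻ x, ∫⁻ z, (P ε (y - x) * Q ε (x - z) + P ε (y - z) * Q ε (x - z)) :=
        lintegral_mono fun x => lintegral_mono fun z => er_le hε y x z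
    _ = (∫⁻ x, ∫⁻ z, P ε (y - x) * Q ε (x - z)) + ∫⁻ x, ∫⁻ z, P ε (y - z) * Q ε (x - z) := by
        rw [← lintegral_add_left]
        · refine lintegral_congr fun x => ?_
          rw [lintegral_add_left (by fun_prop)]
        · refine Measurable.lintegral_prod_right' (f := fun p : ℝ × ℝ => P ε (y - p.1) * Q ε (p.1 - p.2)) ?_
          fun_prop
    _ = 16 + 16 := by
        congr 1
        · have : ∀ x, ∫⁻ z, P ε (y - x) * Q ε (x - z) = P ε (y - x) * ∫⁻ u, Q ε u := by
            intro x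
            rw [lintegral_const_mul _ (by fun_prop), lintegral_sub_left_eq_self]
          simp_rw [this]
          rw [lintegral_mul_const _ (by fun_prop), lintegral_sub_left_eq_self (P ε), PQ hε]
        · rw [lintegral_lintegral_swap (by fun_prop)]
          have : ∀ z, ∫⁻ x, P ε (y - z) * Q ε (x - z) = P ε (y - z) * ∫⁻ u, Q ε u := by
            intro z
            rw [lintegral_const_mul _ (by fun_prop), lintegral_sub_right_eq_self]
          simp_rw [this]
          rw [lintegral_mul_const _ (by fun_prop), lintegral_sub_left_eq_self (P ε), PQ hε]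
    _ = 32 := by norm_num

theorem er_int2 {ε : ℝ} (hε : 0 < ε) (y : ℝ) :
    ∫⁻ x, ∫⁻ z, ENNReal.ofReal (er ε x y z) ≤ 32 := by
  have hP := P_meas ε
  have hQ := Q_meas ε
  calc ∫⁻ x, ∫⁻ z, ENNReal.ofReal (er ε x y z)
      ≤ ∫⁻ x, ∫⁻ z, (P ε (x - y) * Q ε (y - z) + P ε (x - z) * Q ε (y - z)) :=
        lintegral_mono fun x => lintegral_mono fun z => er_le hε x y z
    _ = (∫⁻ x, ∫⁻ z, P ε (x - y) * Q ε (y - z)) + ∫⁻ x, ∫⁻ z, P ε (x - z) * Q ε (y - z) := by
        rw [← lintegral_add_left]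
        · refine lintegral_congr fun x => ?_
          rw [lintegral_add_left (by fun_prop)]
        · refine Measurable.lintegral_prod_right' (f := fun p : ℝ × ℝ => P ε (p.1 - y) * Q ε (y - p.2)) ?_
          fun_prop
    _ = 16 + 16 := by
        congr 1
        · have : ∀ x, ∫⁻ z, P ε (x - y) * Q ε (y - z) = P ε (x - y) * ∫⁻ u, Q ε u := by
            intro x
            rw [lintegral_const_mul _ (by fun_prop), lintegral_sub_left_eq_self]
          simp_rw [this]
          rw [lintegral_mul_const _ (by fun_prop), lintegral_sub_right_eq_self (P ε), PQ hε]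
        · rw [lintegral_lintegral_swap (by fun_prop)]
          have : ∀ z, ∫⁻ x, P ε (x - z) * Q ε (y - z) = (∫⁻ u, P ε u) * Q ε (y - z) := by
            intro z
            rw [lintegral_mul_const _ (by fun_prop), lintegral_sub_right_eq_self]
          simp_rw [this]
          rw [lintegral_const_mul _ (by fun_prop), lintegral_sub_left_eq_self (Q ε), PQ hε]
    _ = 32 := by norm_num

theorem er_int3 {ε : ℝ} (hε : 0 < ε) (y : ℝ) :
    ∫⁻ x, ∫⁻ z, ENNReal.ofReal (er ε z x y) ≤ 32 := by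
  have hP := P_meas ε
  have hQ := Q_meas ε
  calc ∫⁻ x, ∫⁻ z, ENNReal.ofReal (er ε z x y)
      ≤ ∫⁻ x, ∫⁻ z, (P ε (z - x) * Q ε (x - y) + P ε (z - y) * Q ε (x - y)) :=
        lintegral_mono fun x => lintegral_mono fun z => er_le hε z x y
    _ = (∫⁻ x, ∫⁻ z, P ε (z - x) * Q ε (x - y)) + ∫⁻ x, ∫⁻ z, P ε (z - y) * Q ε (x - y) := by
        rw [← lintegral_add_left]
        · refine lintegral_congr fun x => ?_
          rw [lintegral_add_left (by fun_prop)]
        · refine Measurable.lintegral_prod_right' (f := fun p : ℝ × ℝ => P ε (p.2 - p.1) * Q ε (p.1 - y)) ?_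
          fun_prop
    _ = 16 + 16 := by
        congr 1
        · have : ∀ x, ∫⁻ z, P ε (z - x) * Q ε (x - y) = (∫⁻ u, P ε u) * Q ε (x - y) := by
            intro x
            rw [lintegral_mul_const _ (by fun_prop), lintegral_sub_right_eq_self]
          simp_rw [this]
          rw [lintegral_const_mul _ (by fun_prop), lintegral_sub_right_eq_self (Q ε), PQ hε]
        · have : ∀ x, ∫⁻ z, P ε (z - y) * Q ε (x - y) = (∫⁻ u, P ε u) * Q ε (x - y) := by
            intro x
            rw [lintegral_mul_const _ (by fun_prop), lintegral_sub_right_eq_self]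
          simp_rw [this]
          rw [lintegral_const_mul _ (by fun_prop), lintegral_sub_right_eq_self (Q ε), PQ hε]
    _ = 32 := by norm_num

end Pool.Agent.H799R2.CI
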