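import Pool.Agent.H799R2.CI.Defs

/-!
Task 18 (ext_near, ker_diff), by helper861.
-/

set_option autoImplicit false

open MeasureTheory Set Filter
open scoped ENNReal NNReal ComplexConjugate Topology

namespace Pool.Agent.H799R2.CI

theorem ext_aux {u : ℝ → ℝ} {E : Set ℝ}
    (h : ∀ t ∈ E, ∀ s ∈ E, |u s - u t| ≤ (1 / 4) * |s - t|) :
    ∃ U : ℝ → ℝ, (∀ s t, |U s - U t| ≤ (1 / 4) * |s - t|) ∧ ∀ t ∈ E, U t = u t := by
  have h1 : LipschitzOnWith (1 / 4 : ℝ≥0) u E := by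
    refine LipschitzOnWith.of_dist_le_mul fun x hx y hy => ?_
    have := h y hy x hx
    rw [Real.dist_eq, Real.dist_eq]
    simpa using this
  obtain ⟨U, hU, hUE⟩ := h1.extend_real
  refine ⟨U, fun s t => ?_, fun t ht => (hUE ht).symm⟩
  have := hU.dist_le_mul s t
  rw [Real.dist_eq, Real.dist_eq] at this
  simpa using this

theorem ext_near {eta : ℝ → ℂ} {a b : ℝ} {E : Set ℝ} (hE : E ⊆ Icc a b)
    (h : ∀ t ∈ E, ∀ s ∈ Icc a b, ‖eta s - eta t - ((s - t : ℝ) : ℂ)‖ ≤ (1 / 4) * |s - t|) :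
    ∃ Z : ℝ → ℂ, Near Z ∧ ∀ t ∈ E, Z t = eta t := by
  have h' : ∀ t ∈ E, ∀ s ∈ E, ‖(eta s - s) - (eta t - t)‖ ≤ (1 / 4) * |s - t| := by
    intro t ht s hs
    have := h t ht s (hE hs)
    have he : eta s - eta t - ((s - t : ℝ) : ℂ) = (eta s - s) - (eta t - t) := by
      push_cast; ring
    rwa [he] at this
  obtain ⟨U, hU, hUE⟩ := ext_aux (u := fun s => (eta s - s).re) (E := E) fun t ht s hs => by
    refine le_trans ?_ (h' t ht s hs)
    rw [← Complex.sub_re]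
    exact Complex.abs_re_le_norm _
  obtain ⟨V, hV, hVE⟩ := ext_aux (u := fun s => (eta s - s).im) (E := E) fun t ht s hs => by
    refine le_trans ?_ (h' t ht s hs)
    rw [← Complex.sub_im]
    exact Complex.abs_im_le_norm _
  refine ⟨fun s => s + (U s + V s * Complex.I), ?_, ?_⟩
  · intro s t
    have he : ((s : ℂ) + (U s + V s * Complex.I)) - (t + (U t + V t * Complex.I))
        - ((s - t : ℝ) : ℂ) = ((U s - U t : ℝ) : ℂ) + ((V s - V t : ℝ) : ℂ) * Complex.I := by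
      push_cast; ring
    show ‖((s : ℂ) + (U s + V s * Complex.I)) - (t + (U t + V t * Complex.I))
        - ((s - t : ℝ) : ℂ)‖ ≤ _
    rw [he]
    refine (norm_add_le _ _).trans ?_
    rw [norm_mul, Complex.norm_I, mul_one, Complex.norm_real, Complex.norm_real]
    have h1 := hU s t
    have h2 := hV s t
    simp only [Real.norm_eq_abs]
    linarith
  · intro t ht
    show (t : ℂ) + (U t + V t * Complex.I) = eta t
    rw [hUE t ht, hVE t ht, Complex.re_add_im]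
    ring

theorem ker_diff {eta Z : ℝ → ℂ} {a b : ℝ} {E : Set ℝ} (hE : E ⊆ Icc a b)
    (h : ∀ t ∈ E, ∀ s ∈ Icc a b, ‖eta s - eta t - ((s - t : ℝ) : ℂ)‖ ≤ (1 / 4) * |s - t|)
    (hZ : Near Z) (hZE : ∀ t ∈ E, Z t = eta t) {t s : ℝ} (ht : t ∈ E) (hs : s ∈ Icc a b)
    (hst : s ≠ t) :
    ‖(eta s - eta t)⁻¹ - k Z t s‖ ≤ 8 * (Metric.infDist s E / (s - t) ^ 2) := by
  have hpos : 0 < |s - t| := abs_pos.2 (sub_ne_zero.2 hst)
  -- lower bounds
  have l1 : 3 / 4 * |s - t| ≤ ‖eta s - eta t‖ := by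
    have h1 := h t ht s hs
    have h2 : ‖((s - t : ℝ) : ℂ)‖ ≤ ‖eta s - eta t‖ + ‖eta s - eta t - ((s - t : ℝ) : ℂ)‖ := by
      have : ((s - t : ℝ) : ℂ) = (eta s - eta t) - (eta s - eta t - ((s - t : ℝ) : ℂ)) := by ring
      calc ‖((s - t : ℝ) : ℂ)‖ = ‖(eta s - eta t) - (eta s - eta t - ((s - t : ℝ) : ℂ))‖ := by
            rw [← this]
        _ ≤ _ := norm_sub_le _ _
    rw [Complex.norm_real, Real.norm_eq_abs] at h2
    linarith
  have l2 : 1 / 2 * |s - t| ≤ ‖Z s - Z t‖ := by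
    have h1 := hZ s t
    have h2 : ‖((s - t : ℝ) : ℂ)‖ ≤ ‖Z s - Z t‖ + ‖Z s - Z t - ((s - t : ℝ) : ℂ)‖ := by
      have : ((s - t : ℝ) : ℂ) = (Z s - Z t) - (Z s - Z t - ((s - t : ℝ) : ℂ)) := by ring
      calc ‖((s - t : ℝ) : ℂ)‖ = ‖(Z s - Z t) - (Z s - Z t - ((s - t : ℝ) : ℂ))‖ := by
            rw [← this]
        _ ≤ _ := norm_sub_le _ _
    rw [Complex.norm_real, Real.norm_eq_abs] at h2
    linarith
  have hA : eta s - eta t ≠ 0 := by
    intro h0; rw [h0, norm_zero] at l1; nlinarith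
  have hB : Z s - Z t ≠ 0 := by
    intro h0; rw [h0, norm_zero] at l2; nlinarith
  -- upper bound of the numerator
  have hnum : ‖Z s - eta s‖ ≤ 11 / 4 * Metric.infDist s E := by
    have h1 : ∀ e ∈ E, ‖Z s - eta s‖ * (4 / 11) ≤ dist s e := by
      intro e he
      have h2 := h e he s hs
      have h3 := hZ s e
      have h4 : Z s - eta s = (Z s - Z e - ((s - e : ℝ) : ℂ)) - (eta s - eta e - ((s - e : ℝ) : ℂ)) := by
        rw [hZE e he]; ring
      rw [h4]
      have h5 := norm_sub_le (Z s - Z e - ((s - e : ℝ) : ℂ)) (eta s - eta e - ((s - e : ℝ) : ℂ))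
      rw [Real.dist_eq]
      have h6 : 0 ≤ |s - e| := abs_nonneg _
      nlinarith
    have h2 : ‖Z s - eta s‖ * (4 / 11) ≤ Metric.infDist s E :=
      (Metric.le_infDist ⟨t, ht⟩).2 (fun {e} he => h1 e he)
    linarith
  have hd : (eta s - eta t)⁻¹ - k Z t s = (Z s - eta s) / ((eta s - eta t) * (Z s - Z t)) := by
    rw [k, hZE t ht] at *
    rw [inv_sub_inv hA hB]
    congr 1
    ring
  rw [hd, norm_div, norm_mul]
  have h0 : 0 ≤ Metric.infDist s E := Metric.infDist_nonneg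
  have hden : 3 / 8 * (s - t) ^ 2 ≤ ‖eta s - eta t‖ * ‖Z s - Z t‖ := by
    have := mul_le_mul l1 l2 (by positivity) (norm_nonneg _)
    rw [← sq_abs (s - t)]
    nlinarith
  have hsq : 0 < (s - t) ^ 2 := by
    rw [← sq_abs]; positivity
  calc ‖Z s - eta s‖ / (‖eta s - eta t‖ * ‖Z s - Z t‖)
      ≤ (11 / 4 * Metric.infDist s E) / (3 / 8 * (s - t) ^ 2) := by
        apply div_le_div₀ (by positivity) hnum (by positivity) hden
    _ ≤ 8 * (Metric.infDist s E / (s - t) ^ 2) := by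
        have : (11 / 4 * Metric.infDist s E) / (3 / 8 * (s - t) ^ 2)
            = 22 / 3 * (Metric.infDist s E / (s - t) ^ 2) := by
          field_simp
          ring
        rw [this]
        have : 0 ≤ Metric.infDist s E / (s - t) ^ 2 := by positivity
        linarith

end Pool.Agent.H799R2.CI
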