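import Pool.Agent.H799R2.CI.Defs

/-!
Task 23 of h799_tasks: construction of the weight from countably many good pieces.
-/

set_option autoImplicit false

open MeasureTheory Set Filter
open scoped ENNReal NNReal ComplexConjugate Topology

namespace Pool.Agent.H799R2.CI

theorem weight {L : ℝ} {ι : Type} [Countable ι] {S : ι → Set ℝ} (hS : ∀ i, MeasurableSet (S i))
    {c : ι → ℝ≥0∞} (hc : ∀ i, c i < ⊤)
    (hcov : ∀ᵐ t ∂(volume.restrict (Icc (0 : ℝ) L)), ∃ i, t ∈ S i) :
    ∃ ω : ℝ → ℝ, Measurable ω ∧ (∀ᵐ t ∂(volume.restrict (Icc (0 : ℝ) L)), 0 < ω t) ∧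
      ∃ c0 : ℝ≥0∞, c0 < ⊤ ∧ ∀ (H : ℝ → ℝ≥0∞) (B : ℝ≥0∞),
        (∀ i, ∫⁻ t in S i, H t ^ 2 ≤ c i * B) →
          ∫⁻ t in Icc (0 : ℝ) L, H t ^ 2 * ENNReal.ofReal (ω t) ≤ c0 * B := by
  classical
  rcases isEmpty_or_nonempty ι with hι | hι
  · have hz : volume.restrict (Icc (0 : ℝ) L) = 0 := by
      rw [← Measure.measure_univ_eq_zero]
      have h1 : ∀ᵐ t ∂(volume.restrict (Icc (0 : ℝ) L)), False := by
        filter_upwards [hcov] with t ht
        obtain ⟨i, _⟩ := ht
        exact hι.false i
      have h2 := ae_iff.mp h1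
      simpa only [not_false_eq_true, Set.ofPred_true] using h2
    refine ⟨fun _ => 1, measurable_const, by simp, 1, ENNReal.one_lt_top, ?_⟩
    intro H B _
    rw [hz]
    simp
  · obtain ⟨f, hf⟩ := exists_surjective_nat ι
    set S' : ℕ → Set ℝ := disjointed (fun n => S (f n)) with hS'
    have hm : ∀ n, MeasurableSet (S' n) := fun n => MeasurableSet.disjointed (fun n => hS (f n)) n
    have hd : Pairwise (Function.onFun Disjoint S') := disjoint_disjointed _
    have hu : (⋃ n, S' n) = ⋃ n, S (f n) := iUnion_disjointed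
    have hsub : ∀ n, S' n ⊆ S (f n) := fun n => disjointed_subset _ n
    set w : ℕ → ℝ := fun n => (1 / 2) ^ (n + 1) / (1 + (c (f n)).toReal) with hw
    have hwpos : ∀ n, 0 < w n := by
      intro n
      have : 0 ≤ (c (f n)).toReal := ENNReal.toReal_nonneg
      simp only [hw]
      positivity
    set W : ℝ → ℝ≥0∞ := fun t => ∑' n, (S' n).indicator (fun _ => ENNReal.ofReal (w n)) t with hW
    have hWm : Measurable W :=
      Measurable.tsum (fun n => measurable_const.indicator (hm n))
    have hWn : ∀ n, ∀ t ∈ S' n, W t = ENNReal.ofReal (w n) := by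
      intro n t ht
      simp only [hW]
      rw [tsum_eq_single n]
      · rw [indicator_of_mem ht]
      · intro k hk
        apply indicator_of_notMem
        intro hk'
        exact (Set.disjoint_left.mp (hd hk) hk' ht)
    have hWn' : ∀ n, ∀ t ∈ S' n, ENNReal.ofReal (W t).toReal = ENNReal.ofReal (w n) := by
      intro n t ht
      rw [hWn n t ht, ENNReal.toReal_ofReal (hwpos n).le]
    have hcov' : ∀ᵐ t ∂(volume.restrict (Icc (0 : ℝ) L)), t ∈ ⋃ n, S' n := by
      filter_upwards [hcov] with t ht
      obtain ⟨i, hi⟩ := ht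
      obtain ⟨n, hn⟩ := hf i
      rw [hu]
      exact mem_iUnion.mpr ⟨n, by rw [hn]; exact hi⟩
    refine ⟨fun t => (W t).toReal, hWm.ennreal_toReal, ?_, ∑' n : ℕ, ENNReal.ofReal ((1 / 2) ^ (n + 1)), ?_, ?_⟩
    · filter_upwards [hcov'] with t ht
      obtain ⟨n, hn⟩ := mem_iUnion.mp ht
      rw [hWn n t hn, ENNReal.toReal_ofReal (hwpos n).le]
      exact hwpos n
    · have hsum : Summable (fun n : ℕ => ((1 : ℝ) / 2) ^ (n + 1)) :=
        (summable_nat_add_iff 1).mpr summable_geometric_two
      have := hsum.tsum_ofReal_lt_top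
      exact this
    · intro H B hB
      calc ∫⁻ t in Icc (0 : ℝ) L, H t ^ 2 * ENNReal.ofReal ((W t).toReal)
          = ∫⁻ t in Icc (0 : ℝ) L ∩ ⋃ n, S' n, H t ^ 2 * ENNReal.ofReal ((W t).toReal) := by
            have hmU : MeasurableSet (⋃ n, S' n) := MeasurableSet.iUnion hm
            have h1 : (volume.restrict (Icc (0 : ℝ) L)).restrict (⋃ n, S' n)
                = volume.restrict (Icc (0 : ℝ) L) := by
              apply Measure.restrict_eq_self_of_ae_mem
              exact hcov'
            have h2 : volume.restrict (Icc (0 : ℝ) L ∩ ⋃ n, S' n)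
                = volume.restrict (Icc (0 : ℝ) L) := by
              rw [inter_comm, ← Measure.restrict_restrict hmU, h1]
            rw [h2]
        _ ≤ ∫⁻ t in ⋃ n, S' n, H t ^ 2 * ENNReal.ofReal ((W t).toReal) :=
            lintegral_mono_set inter_subset_right
        _ = ∑' n, ∫⁻ t in S' n, H t ^ 2 * ENNReal.ofReal ((W t).toReal) :=
            lintegral_iUnion hm hd _
        _ ≤ ∑' n, ENNReal.ofReal ((1 / 2) ^ (n + 1)) * B := by
            apply ENNReal.tsum_le_tsum
            intro n
            have e1 : ∫⁻ t in S' n, H t ^ 2 * ENNReal.ofReal ((W t).toReal)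
                = ∫⁻ t in S' n, H t ^ 2 * ENNReal.ofReal (w n) := by
              apply setLIntegral_congr_fun (hm n)
              intro t ht
              simp only [hWn' n t ht]
            rw [e1, lintegral_mul_const' _ _ ENNReal.ofReal_ne_top]
            have e2 : ∫⁻ t in S' n, H t ^ 2 ≤ c (f n) * B :=
              le_trans (lintegral_mono_set (hsub n)) (hB (f n))
            have e3 : c (f n) * ENNReal.ofReal (w n) ≤ ENNReal.ofReal ((1 / 2) ^ (n + 1)) := by
              have hcn : c (f n) = ENNReal.ofReal (c (f n)).toReal :=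
                (ENNReal.ofReal_toReal (hc (f n)).ne).symm
              have hcnn : 0 ≤ (c (f n)).toReal := ENNReal.toReal_nonneg
              rw [hcn, ← ENNReal.ofReal_mul hcnn]
              apply ENNReal.ofReal_le_ofReal
              simp only [hw]
              rw [mul_div_assoc', div_le_iff₀ (by positivity)]
              have : (0 : ℝ) < (1 / 2) ^ (n + 1) := by positivity
              nlinarith
            calc (∫⁻ t in S' n, H t ^ 2) * ENNReal.ofReal (w n)
                ≤ (c (f n) * B) * ENNReal.ofReal (w n) := by gcongr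
              _ = (c (f n) * ENNReal.ofReal (w n)) * B := by ring
              _ ≤ ENNReal.ofReal ((1 / 2) ^ (n + 1)) * B := by gcongr
        _ = (∑' n : ℕ, ENNReal.ofReal ((1 / 2) ^ (n + 1))) * B := ENNReal.tsum_mul_right

end Pool.Agent.H799R2.CI
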