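import Pool.Agent.H799R2.CI.Piece
import Pool.Agent.H799R2.CI.Cover
import Pool.Agent.H799R2.CI.Weight

set_option autoImplicit false

open MeasureTheory Set Filter
open scoped ENNReal NNReal ComplexConjugate Topology

namespace Pool.Agent.H799R2.CI

theorem final {L : ℝ} (hL : 0 < L) {γ : ℝ → ℂ} (hγ : LipschitzWith 1 γ)
    (hd : ∀ᵐ s ∂(volume.restrict (Set.Icc (0 : ℝ) L)), ‖deriv γ s‖ = 1)
    (hinj : Set.InjOn γ (Set.Ico (0 : ℝ) L)) :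
    ∃ ω : ℝ → ℝ, Measurable ω ∧
      (∀ᵐ t ∂(volume.restrict (Set.Icc (0 : ℝ) L)), 0 < ω t) ∧
      ∃ c : ℝ≥0∞, c < ⊤ ∧
        ∀ f : ℝ → ℂ, MemLp f 2 (volume.restrict (Set.Icc (0 : ℝ) L)) →
          ∫⁻ t in Set.Icc (0 : ℝ) L,
              (Filter.limsup (fun ε : ℝ => ‖CI γ L f ε t‖ₑ)
                (nhdsWithin (0 : ℝ) (Set.Ioi 0))) ^ 2 * ENNReal.ofReal (ω t)
            ≤ c * ∫⁻ t in Set.Icc (0 : ℝ) L, ‖f t‖ₑ ^ 2 := by
  classical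
  -- index type
  let P : ℚ × ℚ × ℚ × ℚ × ℕ → Prop := fun u =>
    (0 : ℝ) ≤ u.1 ∧ (u.1 : ℝ) < u.2.1 ∧ (u.2.1 : ℝ) ≤ L ∧
      ((u.2.2.1 : ℂ) + (u.2.2.2.1 : ℂ) * Complex.I ≠ 0)
  have key : ∀ u : ℚ × ℚ × ℚ × ℚ × ℕ, P u →
      ∃ (S : ℕ → Set ℝ) (c : ℕ → ℝ≥0∞), (∀ i, MeasurableSet (S i)) ∧ (∀ i, c i < ⊤) ∧
        (∀ᵐ t, t ∈ good γ u.1 u.2.1 ((u.2.2.1 : ℂ) + (u.2.2.2.1 : ℂ) * Complex.I) ∩
          far γ L u.1 u.2.1 u.2.2.2.2 → ∃ i, t ∈ S i) ∧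
        ∀ (i : ℕ) (f : ℝ → ℂ), MemLp f 2 (volume.restrict (Icc (0 : ℝ) L)) →
          ∫⁻ t in S i, (Filter.limsup (fun ε : ℝ => ‖CI γ L f ε t‖ₑ)
            (nhdsWithin (0 : ℝ) (Ioi 0))) ^ 2
            ≤ c i * ∫⁻ t in Icc (0 : ℝ) L, ‖f t‖ₑ ^ 2 := by
    intro u hu
    exact piece hL hγ hu.1 hu.2.1 hu.2.2.1 hu.2.2.2 u.2.2.2.2
  choose! S c hSm hcf hcov hbd using key
  let S' : (ℚ × ℚ × ℚ × ℚ × ℕ) × ℕ → Set ℝ := fun w => if P w.1 then S w.1 w.2 else ∅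
  let c' : (ℚ × ℚ × ℚ × ℚ × ℕ) × ℕ → ℝ≥0∞ := fun w => if P w.1 then c w.1 w.2 else 0
  have hS' : ∀ w, MeasurableSet (S' w) := by
    intro w
    by_cases h : P w.1
    · simp only [S', h, if_true]; exact hSm _ h _
    · simp only [S', h, if_false]; exact MeasurableSet.empty
  have hc' : ∀ w, c' w < ⊤ := by
    intro w
    by_cases h : P w.1
    · simp only [c', h, if_true]; exact hcf _ h _
    · simp only [c', h, if_false]; exact ENNReal.zero_lt_top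
  have hcov' : ∀ᵐ t ∂(volume.restrict (Icc (0 : ℝ) L)), ∃ w, t ∈ S' w := by
    have h1 := cover hL hγ hd hinj
    have h2 : ∀ᵐ t ∂(volume.restrict (Icc (0 : ℝ) L)), ∀ u : ℚ × ℚ × ℚ × ℚ × ℕ, P u →
        t ∈ good γ u.1 u.2.1 ((u.2.2.1 : ℂ) + (u.2.2.2.1 : ℂ) * Complex.I) ∩
          far γ L u.1 u.2.1 u.2.2.2.2 → ∃ i, t ∈ S u i := by
      rw [ae_all_iff]
      intro u
      by_cases h : P u
      · filter_upwards [ae_restrict_of_ae (hcov u h)] with t ht _ h3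
        exact ht h3
      · filter_upwards with t h4
        exact absurd h4 h
    filter_upwards [h1, h2] with t ht1 ht2
    obtain ⟨p, q, x, y, j, h0, hpq, hqL, hne, hmem⟩ := ht1
    have hP : P (p, q, x, y, j) := ⟨h0, hpq, hqL, hne⟩
    obtain ⟨i, hi⟩ := ht2 (p, q, x, y, j) hP hmem
    refine ⟨((p, q, x, y, j), i), ?_⟩
    simp only [S', hP, if_true]
    exact hi
  obtain ⟨ω, hω, hpos, c0, hc0, hw⟩ := weight (L := L) hS' hc' hcov'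
  refine ⟨ω, hω, hpos, c0, hc0, ?_⟩
  intro f hf
  apply hw
  intro w
  by_cases h : P w.1
  · simp only [S', c', h, if_true]
    exact hbd _ h _ f hf
  · simp only [S', c', h, if_false]
    simp

end Pool.Agent.H799R2.CI
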