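import Pool.Agent.H799R2.CI.Defs

set_option autoImplicit false
set_option maxHeartbeats 1000000

open MeasureTheory Set Filter
open scoped ENNReal NNReal ComplexConjugate Topology

namespace Pool.Agent.H799R2.CI

theorem mk_meas0 (E : Set ℝ) : Measurable (fun p : ℝ × ℝ => mk E p.1 p.2) := by
  unfold mk
  have : Measurable (fun p : ℝ × ℝ => Metric.infDist p.1 E) :=
    (Metric.continuous_infDist_pt E).measurable.comp measurable_fst
  fun_prop

/-- one-dimensional tail integral. -/
theorem tail_int {d : ℝ} (hd : 0 < d) :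
    ∫⁻ t in {t : ℝ | d ≤ |t|}, ENNReal.ofReal (d / t ^ 2) ≤ 2 := by
  have hset : {t : ℝ | d ≤ |t|} = Ici d ∪ Iic (-d) := by
    ext t
    simp only [mem_ofPred_eq, mem_union, mem_Ici, mem_Iic, le_abs]
    constructor
    · rintro (h | h)
      · left; exact h
      · right; linarith
    · rintro (h | h)
      · left; exact h
      · right; linarith
  have h1 : ∫⁻ t in Ici d, ENNReal.ofReal (d / t ^ 2) = 1 := by
    have hI : IntegrableOn (fun t : ℝ => d / t ^ 2) (Ici d) := by
      rw [integrableOn_Ici_iff_integrableOn_Ioi]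
      have := (integrableOn_Ioi_rpow_of_lt (a := -2) (by norm_num) hd).const_mul d
      refine IntegrableOn.congr_fun this (fun t ht => ?_) measurableSet_Ioi
      have ht0 : 0 < t := hd.trans ht
      rw [Real.rpow_neg ht0.le]
      norm_num
      rfl
    rw [← ofReal_integral_eq_lintegral_ofReal hI
      ((ae_restrict_iff' measurableSet_Ici).mpr (ae_of_all _ fun t ht => by
        have : 0 < t := lt_of_lt_of_le hd ht
        simp only [Pi.zero_apply]; positivity))]
    rw [integral_Ici_eq_integral_Ioi]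
    have h2 : ∫ t in Ioi d, d / t ^ 2 = d * ∫ t in Ioi d, t ^ (-2 : ℝ) := by
      rw [← integral_const_mul]
      apply setIntegral_congr_fun measurableSet_Ioi
      intro t ht
      have ht0 : 0 < t := hd.trans ht
      simp only
      rw [Real.rpow_neg ht0.le]
      norm_num
      rfl
    rw [h2, integral_Ioi_rpow_of_lt (by norm_num) hd]
    norm_num
    rw [Real.rpow_neg_one]
    rw [mul_inv_cancel₀ hd.ne']
  have h2 : ∫⁻ t in Iic (-d), ENNReal.ofReal (d / t ^ 2) = 1 := by
    rw [← h1]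
    have hmp : MeasurePreserving (fun t : ℝ => -t) volume volume := Measure.measurePreserving_neg _
    have := hmp.setLIntegral_comp_preimage (s := Ici d) measurableSet_Ici
      (f := fun t => ENNReal.ofReal (d / t ^ 2)) (by fun_prop)
    rw [← this]
    have hs : (fun t : ℝ => -t) ⁻¹' Ici d = Iic (-d) := by
      ext t; simp only [mem_preimage, mem_Ici, mem_Iic]; constructor <;> intro h <;> linarith
    rw [hs]
    simp
  calc ∫⁻ t in {t : ℝ | d ≤ |t|}, ENNReal.ofReal (d / t ^ 2)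
      = ∫⁻ t in Ici d ∪ Iic (-d), ENNReal.ofReal (d / t ^ 2) := by rw [hset]
    _ ≤ (∫⁻ t in Ici d, ENNReal.ofReal (d / t ^ 2)) + ∫⁻ t in Iic (-d), ENNReal.ofReal (d / t ^ 2) :=
        lintegral_union_le _ _ _
    _ = 2 := by rw [h1, h2]; norm_num

theorem key_marc {E : Set ℝ} (s : ℝ) : ∫⁻ t in E, mk E s t ≤ 2 := by
  rcases (Metric.infDist_nonneg (x := s) (s := E)).eq_or_lt with h0 | h0
  · unfold mk
    rw [← h0]; simp
  · have hsub : E ⊆ {t | Metric.infDist s E ≤ |t - s|} := by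
      intro t ht
      have := Metric.infDist_le_dist_of_mem (x := s) ht
      rw [Real.dist_eq, abs_sub_comm] at this
      exact this
    calc ∫⁻ t in E, mk E s t ≤ ∫⁻ t in {t | Metric.infDist s E ≤ |t - s|}, mk E s t :=
          lintegral_mono_set hsub
      _ = ∫⁻ t in {t : ℝ | Metric.infDist s E ≤ |t|}, ENNReal.ofReal (Metric.infDist s E / t ^ 2) := by
          have hmp : MeasurePreserving (fun t : ℝ => t - s) volume volume :=
            measurePreserving_sub_right volume s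
          have := hmp.setLIntegral_comp_preimage (s := {t : ℝ | Metric.infDist s E ≤ |t|})
            (measurableSet_le measurable_const measurable_id.abs)
            (f := fun t => ENNReal.ofReal (Metric.infDist s E / t ^ 2)) (by fun_prop)
          rw [← this]
          apply lintegral_congr
          intro t
          unfold mk
          congr 2
          ring
      _ ≤ 2 := tail_int h0

theorem marc {E : Set ℝ} {a b : ℝ} (hE : IsClosed E) (hEI : E ⊆ Icc a b) (hab : a ≤ b) :
    ∫⁻ t in E, ∫⁻ s in Icc a b, mk E s t ≤ ENNReal.ofReal (2 * (b - a)) := by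
  have hm : AEMeasurable (fun p : ℝ × ℝ => mk E p.2 p.1) ((volume.restrict E).prod (volume.restrict (Icc a b))) :=
    ((mk_meas0 E).comp (measurable_snd.prodMk measurable_fst)).aemeasurable
  rw [lintegral_lintegral_swap hm]
  calc ∫⁻ s in Icc a b, ∫⁻ t in E, mk E s t ≤ ∫⁻ s in Icc a b, 2 := lintegral_mono fun s => key_marc s
    _ = _ := by
        rw [lintegral_const, Measure.restrict_apply_univ, Real.volume_Icc,
          ENNReal.ofReal_mul (by norm_num)]
        norm_num

theorem cs_weight {μ : Measure ℝ} {w φ : ℝ → ℝ≥0∞} (hw : AEMeasurable w μ) (hφ : AEMeasurable φ μ) :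
    (∫⁻ s, w s * φ s ∂μ) ^ 2 ≤ (∫⁻ s, φ s ∂μ) * ∫⁻ s, w s ^ 2 * φ s ∂μ := by
  have h := ENNReal.lintegral_mul_le_Lp_mul_Lq (μ := μ) (p := 2) (q := 2) (by constructor <;> norm_num)
    (f := fun s => w s * (φ s) ^ (1 / 2 : ℝ)) (g := fun s => (φ s) ^ (1 / 2 : ℝ))
    (hw.mul (hφ.pow_const _)) (hφ.pow_const _)
  have e1 : ∀ s, w s * (φ s) ^ (1 / 2 : ℝ) * (φ s) ^ (1 / 2 : ℝ) = w s * φ s := by
    intro s
    rw [mul_assoc, ← ENNReal.rpow_add_of_nonneg _ _ (by norm_num) (by norm_num)]
    norm_num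
  have e2 : ∀ s, (w s * (φ s) ^ (1 / 2 : ℝ)) ^ (2 : ℝ) = w s ^ 2 * φ s := by
    intro s
    rw [ENNReal.mul_rpow_of_nonneg _ _ (by norm_num), ← ENNReal.rpow_mul]
    norm_num
  have e3 : ∀ s, ((φ s) ^ (1 / 2 : ℝ)) ^ (2 : ℝ) = φ s := by
    intro s
    rw [← ENNReal.rpow_mul]
    norm_num
  simp only [Pi.mul_apply, e1, e2, e3] at h
  have h2 := pow_le_pow_left' h 2
  rw [mul_pow, ← ENNReal.rpow_natCast (_ ^ (1 / 2 : ℝ)), ← ENNReal.rpow_natCast (_ ^ (1 / 2 : ℝ)),
    ← ENNReal.rpow_mul, ← ENNReal.rpow_mul] at h2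
  norm_num at h2
  rw [mul_comm]
  exact h2

theorem marc2 {E : Set ℝ} {a b : ℝ} (hE : IsClosed E) {w : ℝ → ℝ≥0∞}
    (hw : AEMeasurable w (volume.restrict (Icc a b))) {j : ℝ≥0∞} {S : Set ℝ}
    (hS : MeasurableSet S) (hSE : S ⊆ E)
    (hj : ∀ t ∈ S, ∫⁻ s in Icc a b, mk E s t ≤ j) :
    ∫⁻ t in S, (∫⁻ s in Icc a b, w s * mk E s t) ^ 2 ≤ 2 * j * ∫⁻ s in Icc a b, w s ^ 2 := by
  have hmk0 := mk_meas0 E
  have hkey : ∀ s, ∫⁻ t in E, mk E s t ≤ 2 := fun s => key_marc s
  revert hj hmk0 hkey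
  generalize mk E = φ
  intro hj hmk0 hkey
  set μ := volume.restrict (Icc a b) with hμ
  have hmt : ∀ t, Measurable (fun s => φ s t) := fun t =>
    hmk0.comp (measurable_id.prodMk measurable_const)
  have hcs : ∀ t ∈ S, (∫⁻ s, w s * φ s t ∂μ) ^ 2 ≤ j * ∫⁻ s, w s ^ 2 * φ s t ∂μ := by
    intro t ht
    refine (cs_weight hw (hmt t).aemeasurable).trans ?_
    gcongr
    exact hj t ht
  have hm : AEMeasurable (fun p : ℝ × ℝ => w p.2 ^ 2 * φ p.2 p.1) ((volume.restrict E).prod μ) :=
    ((hw.comp_snd).pow_const 2).mul (hmk0.comp (measurable_snd.prodMk measurable_fst)).aemeasurable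
  by_cases hjt : j = ⊤
  · by_cases hw0 : ∫⁻ s, w s ^ 2 ∂μ = 0
    · have hz : ∀ᵐ s ∂μ, w s = 0 := by
        rw [lintegral_eq_zero_iff' (hw.pow_const 2)] at hw0
        filter_upwards [hw0] with s hs
        simpa using hs
      have : ∀ t, ∫⁻ s, w s * φ s t ∂μ = 0 := by
        intro t
        have h0 : (fun s => w s * φ s t) =ᵐ[μ] fun _ => 0 := by
          filter_upwards [hz] with s hs
          simp [hs]
        rw [lintegral_congr_ae h0]
        simp
      simp [this]
    · rw [hjt, ENNReal.mul_top (by norm_num), ENNReal.top_mul hw0]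
      exact le_top
  calc ∫⁻ t in S, (∫⁻ s, w s * φ s t ∂μ) ^ 2
      ≤ ∫⁻ t in S, j * ∫⁻ s, w s ^ 2 * φ s t ∂μ := by
        apply lintegral_mono_ae
        filter_upwards [ae_restrict_mem hS] with t ht
        exact hcs t ht
    _ = j * ∫⁻ t in S, ∫⁻ s, w s ^ 2 * φ s t ∂μ := by rw [lintegral_const_mul' _ _ hjt]
    _ ≤ j * ∫⁻ t in E, ∫⁻ s, w s ^ 2 * φ s t ∂μ := by
        gcongr
    _ = j * ∫⁻ s, (∫⁻ t in E, w s ^ 2 * φ s t) ∂μ := by rw [lintegral_lintegral_swap hm]
    _ ≤ j * ∫⁻ s, 2 * w s ^ 2 ∂μ := by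
        gcongr with s
        have hmt' : Measurable (fun t => φ s t) :=
          hmk0.comp (measurable_const.prodMk measurable_id)
        rw [lintegral_const_mul _ hmt', mul_comm]
        gcongr
        exact hkey s
    _ = _ := by
        rw [lintegral_const_mul' _ _ (by norm_num)]
        ring

end Pool.Agent.H799R2.CI
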