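import Pool.Agent.H799R2.CI.SymIneq
import Pool.Agent.H799R2.CI.Meas

/-!
Task 12: operator bound of the truncated Cauchy integral on the set F.
-/

set_option autoImplicit false

open MeasureTheory Set Filter
open scoped ENNReal NNReal ComplexConjugate Topology

namespace Pool.Agent.H799R2.CI

theorem opsD_bdd_intble {Z : ℝ → ℂ} (hZ : Near Z) {ε : ℝ} (hε : 0 < ε) {g : ℝ → ℂ}
    (hg : Integrable g) {S : Set ℝ} (hS : volume S < ⊤) :
    IntegrableOn (fun x => ‖T Z ε g x‖ ^ 2) S := by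
  have hm : AEStronglyMeasurable (fun x => ‖T Z ε g x‖ ^ 2) (volume.restrict S) :=
    ((T_meas hZ ε hg.aestronglyMeasurable).norm.pow_const 2).aestronglyMeasurable
  have : IsFiniteMeasure (volume.restrict S) := ⟨by simpa using hS⟩
  refine Integrable.of_bound hm ((2 / ε * ∫ y, ‖g y‖) ^ 2) (ae_of_all _ fun x => ?_)
  rw [Real.norm_eq_abs, abs_of_nonneg (by positivity)]
  exact pow_le_pow_left₀ (norm_nonneg _) (T_bound hZ hε hg x) 2

theorem opsD_ofReal_sq (z : ℂ) : ‖z‖ₑ ^ 2 = ENNReal.ofReal (‖z‖ ^ 2) := by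
  rw [ENNReal.ofReal_pow (norm_nonneg _), ofReal_norm]

/-- Step 1: real functions supported in `F`. -/
theorem opsD_real {Z : ℝ → ℂ} (hZ : Near Z) {ε : ℝ} (hε : 0 < ε) {a b : ℝ}
    {F : Set ℝ} (hFI : F ⊆ Icc a b) {A : ℝ} (hA : 0 ≤ A)
    (h1 : ∀ t ∈ F, ‖T Z ε (one a b) t‖ ≤ A) (h2 : ∀ t ∈ F, K Z a b t ≤ ENNReal.ofReal (A ^ 2))
    {f : ℝ → ℝ} (hf : MemLp f 2 volume) (hs : ∀ x, x ∉ F → f x = 0) :
    ∫ x in Icc a b, ‖T Z ε (fun y => (f y : ℂ)) x‖ ^ 2 ≤ (5 * A ^ 2 + 96) * ∫ x, f x ^ 2 := by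
  have hsI : ∀ x, x ∉ Icc a b → f x = 0 := fun x hx => hs x (fun h => hx (hFI h))
  have hfc : MemLp (fun y => (f y : ℂ)) 2 volume := hf.ofReal
  have hfi : Integrable (fun y => (f y : ℂ)) :=
    memLp_intble hfc (a := a) (b := b) (fun x hx => by simp [hsI x hx])
  have hfsq : Integrable (fun x => f x ^ 2) := hf.integrable_sq
  have hTi := opsD_bdd_intble hZ hε hfi (S := Icc a b) measure_Icc_lt_top
  set Tf := T Z ε (fun y => (f y : ℂ)) with hTf
  set P := ∫ x in Icc a b, ‖Tf x‖ ^ 2 with hP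
  set Q := ∫ x in Icc a b, f x * (T Z ε (one a b) x * conj (Tf x)).re with hQ
  set N := ∫ x, f x ^ 2 with hN
  have hN0 : 0 ≤ N := integral_nonneg fun x => sq_nonneg _
  have hsym := sym_ineq hZ hε hf hsI
  rw [← hTf, ← hP, ← hQ] at hsym
  -- bound of the right hand side
  have hR : ∫⁻ y in Icc a b, ENNReal.ofReal (f y ^ 2) * (K Z a b y + 96)
      ≤ ENNReal.ofReal ((A ^ 2 + 96) * N) := by
    calc ∫⁻ y in Icc a b, ENNReal.ofReal (f y ^ 2) * (K Z a b y + 96)
        ≤ ∫⁻ y in Icc a b, ENNReal.ofReal (A ^ 2 + 96) * ENNReal.ofReal (f y ^ 2) := by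
          refine lintegral_mono fun y => ?_
          by_cases hy : y ∈ F
          · have e : ENNReal.ofReal (A ^ 2 + 96) = ENNReal.ofReal (A ^ 2) + 96 := by
              rw [ENNReal.ofReal_add (sq_nonneg A) (by norm_num)]
              norm_num
            show ENNReal.ofReal (f y ^ 2) * (K Z a b y + 96)
              ≤ ENNReal.ofReal (A ^ 2 + 96) * ENNReal.ofReal (f y ^ 2)
            rw [e, mul_comm]
            gcongr
            exact h2 y hy
          · simp [hs y hy]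
      _ ≤ ∫⁻ y, ENNReal.ofReal (A ^ 2 + 96) * ENNReal.ofReal (f y ^ 2) :=
          setLIntegral_le_lintegral _ _
      _ = ENNReal.ofReal ((A ^ 2 + 96) * N) := by
          rw [lintegral_const_mul' _ _ ENNReal.ofReal_ne_top,
            ← ofReal_integral_eq_lintegral_ofReal hfsq (ae_of_all _ fun x => sq_nonneg _),
            ← ENNReal.ofReal_mul (by positivity)]
  have habs : |2 * P + 4 * Q| ≤ (A ^ 2 + 96) * N := by
    have := hsym.trans hR
    rwa [ENNReal.ofReal_le_ofReal_iff (by positivity)] at this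
  -- bound of Q
  have hQb : |4 * Q| ≤ P + 4 * A ^ 2 * N := by
    have e : 4 * Q = ∫ x in Icc a b, 4 * (f x * (T Z ε (one a b) x * conj (Tf x)).re) := by
      rw [integral_const_mul]
    rw [e, ← Real.norm_eq_abs]
    have hint : IntegrableOn (fun x => ‖Tf x‖ ^ 2 + 4 * A ^ 2 * f x ^ 2) (Icc a b) :=
      hTi.add ((hfsq.const_mul (4 * A ^ 2)).integrableOn)
    calc ‖∫ x in Icc a b, 4 * (f x * (T Z ε (one a b) x * conj (Tf x)).re)‖
        ≤ ∫ x in Icc a b, (‖Tf x‖ ^ 2 + 4 * A ^ 2 * f x ^ 2) := by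
          refine norm_integral_le_of_norm_le hint (ae_of_all _ fun x => ?_)
          rw [Real.norm_eq_abs, abs_mul, abs_mul, abs_of_pos (by norm_num : (0:ℝ) < 4)]
          by_cases hx : x ∈ F
          · have b1 : |(T Z ε (one a b) x * conj (Tf x)).re| ≤ A * ‖Tf x‖ := by
              refine (Complex.abs_re_le_norm _).trans ?_
              rw [norm_mul, RCLike.norm_conj]
              exact mul_le_mul_of_nonneg_right (h1 x hx) (norm_nonneg _)
            have b2 : 4 * (|f x| * |(T Z ε (one a b) x * conj (Tf x)).re|)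
                ≤ 4 * (|f x| * (A * ‖Tf x‖)) := by gcongr
            have b3 : |f x| ^ 2 = f x ^ 2 := sq_abs _
            nlinarith [sq_nonneg (‖Tf x‖ - 2 * A * |f x|)]
          · rw [hs x hx]
            simp
      _ = P + 4 * A ^ 2 * ∫ x in Icc a b, f x ^ 2 := by
          rw [integral_add hTi ((hfsq.const_mul (4 * A ^ 2)).integrableOn), integral_const_mul]
      _ ≤ P + 4 * A ^ 2 * N := by
          have : ∫ x in Icc a b, f x ^ 2 ≤ N :=
            setIntegral_le_integral hfsq (ae_of_all _ fun x => sq_nonneg _)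
          gcongr
  have := (abs_le.mp habs).2
  have := (abs_le.mp hQb).1
  linarith

/-- Step 2: complex functions supported in `F`. -/
theorem opsD_complex {Z : ℝ → ℂ} (hZ : Near Z) {ε : ℝ} (hε : 0 < ε) {a b : ℝ}
    {F : Set ℝ} (hFI : F ⊆ Icc a b) {A : ℝ} (hA : 0 ≤ A)
    (h1 : ∀ t ∈ F, ‖T Z ε (one a b) t‖ ≤ A) (h2 : ∀ t ∈ F, K Z a b t ≤ ENNReal.ofReal (A ^ 2))
    {f : ℝ → ℂ} (hf : MemLp f 2 volume) (hs : ∀ x, x ∉ F → f x = 0) :
    ∫ x in Icc a b, ‖T Z ε f x‖ ^ 2 ≤ (10 * A ^ 2 + 192) * ∫ x, ‖f x‖ ^ 2 := by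
  have hu : MemLp (fun y => (f y).re) 2 volume := hf.re
  have hv : MemLp (fun y => (f y).im) 2 volume := hf.im
  have hsu : ∀ x, x ∉ F → (f x).re = 0 := fun x hx => by rw [hs x hx]; simp
  have hsv : ∀ x, x ∉ F → (f x).im = 0 := fun x hx => by rw [hs x hx]; simp
  have r1 := opsD_real hZ hε hFI hA h1 h2 hu hsu
  have r2 := opsD_real hZ hε hFI hA h1 h2 hv hsv
  have iu : Integrable (fun y => ((f y).re : ℂ)) :=
    memLp_intble hu.ofReal (a := a) (b := b) (fun x hx => by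
      simp [hsu x (fun h => hx (hFI h))])
  have iv : Integrable (fun y => ((f y).im : ℂ)) :=
    memLp_intble hv.ofReal (a := a) (b := b) (fun x hx => by
      simp [hsv x (fun h => hx (hFI h))])
  have hTf : ∀ x, T Z ε f x = T Z ε (fun y => ((f y).re : ℂ)) x
      + Complex.I * T Z ε (fun y => ((f y).im : ℂ)) x := by
    intro x
    rw [← T_smul, ← T_add hZ hε iu (iv.const_mul Complex.I)]
    congr 1
    funext y
    rw [mul_comm]
    exact (Complex.re_add_im _).symm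
  have iTu := opsD_bdd_intble hZ hε iu (S := Icc a b) measure_Icc_lt_top
  have iTv := opsD_bdd_intble hZ hε iv (S := Icc a b) measure_Icc_lt_top
  have hsum : ∫ x, ‖f x‖ ^ 2 = (∫ x, (f x).re ^ 2) + ∫ x, (f x).im ^ 2 := by
    rw [← integral_add hu.integrable_sq hv.integrable_sq]
    refine integral_congr_ae (ae_of_all _ fun x => ?_)
    show ‖f x‖ ^ 2 = (f x).re ^ 2 + (f x).im ^ 2
    rw [Complex.sq_norm, Complex.normSq_apply]
    ring
  calc ∫ x in Icc a b, ‖T Z ε f x‖ ^ 2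
      ≤ ∫ x in Icc a b, (2 * ‖T Z ε (fun y => ((f y).re : ℂ)) x‖ ^ 2
          + 2 * ‖T Z ε (fun y => ((f y).im : ℂ)) x‖ ^ 2) := by
        refine integral_mono_of_nonneg (ae_of_all _ fun x => by positivity)
          ((iTu.const_mul 2).add (iTv.const_mul 2)) (ae_of_all _ fun x => ?_)
        show ‖T Z ε f x‖ ^ 2 ≤ 2 * ‖T Z ε (fun y => ((f y).re : ℂ)) x‖ ^ 2
          + 2 * ‖T Z ε (fun y => ((f y).im : ℂ)) x‖ ^ 2
        rw [hTf x]
        have n1 := norm_add_le (T Z ε (fun y => ((f y).re : ℂ)) x)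
          (Complex.I * T Z ε (fun y => ((f y).im : ℂ)) x)
        rw [norm_mul, Complex.norm_I, one_mul] at n1
        have n2 := pow_le_pow_left₀ (norm_nonneg _) n1 2
        nlinarith [sq_nonneg (‖T Z ε (fun y => ((f y).re : ℂ)) x‖
          - ‖T Z ε (fun y => ((f y).im : ℂ)) x‖)]
    _ = 2 * (∫ x in Icc a b, ‖T Z ε (fun y => ((f y).re : ℂ)) x‖ ^ 2)
        + 2 * ∫ x in Icc a b, ‖T Z ε (fun y => ((f y).im : ℂ)) x‖ ^ 2 := by
        rw [integral_add (iTu.const_mul 2) (iTv.const_mul 2), integral_const_mul,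
          integral_const_mul]
    _ ≤ (10 * A ^ 2 + 192) * ∫ x, ‖f x‖ ^ 2 := by
        rw [hsum]
        nlinarith

theorem lemD {Z : ℝ → ℂ} (hZ : Near Z) {ε : ℝ} (hε : 0 < ε) {a b : ℝ}
    {F : Set ℝ} (hF : MeasurableSet F) (hFI : F ⊆ Icc a b) {A : ℝ} (hA : 0 ≤ A)
    (h1 : ∀ t ∈ F, ‖T Z ε (one a b) t‖ ≤ A) (h2 : ∀ t ∈ F, K Z a b t ≤ ENNReal.ofReal (A ^ 2))
    {g : ℝ → ℂ} (hg : MemLp g 2 volume) (hs : ∀ x, x ∉ Icc a b → g x = 0) :
    ∫⁻ x in F, ‖T Z ε g x‖ₑ ^ 2 ≤ ENNReal.ofReal (10 * A ^ 2 + 192) * ∫⁻ x, ‖g x‖ₑ ^ 2 := by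
  have hgi : Integrable g := memLp_intble hg hs
  have hgsq : Integrable (fun x => ‖g x‖ ^ 2) := hg.norm.integrable_sq
  have hFfin : volume F < ⊤ := (measure_mono hFI).trans_lt measure_Icc_lt_top
  have hTg := opsD_bdd_intble hZ hε hgi hFfin
  have hTm : Measurable (T Z ε g) := T_meas hZ ε hgi.aestronglyMeasurable
  set C := 10 * A ^ 2 + 192 with hC
  have hC0 : 0 < C := by positivity
  set X := ∫ x in F, ‖T Z ε g x‖ ^ 2 with hX
  set G := ∫ x, ‖g x‖ ^ 2 with hG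
  -- the dual function
  set h : ℝ → ℂ := F.indicator (fun x => conj (T Z ε g x)) with hh
  have hhm : Measurable h := (Complex.continuous_conj.measurable.comp hTm).indicator hF
  have hhs : ∀ x, x ∉ F → h x = 0 := fun x hx => indicator_of_notMem hx _
  have hhn : ∀ x, ‖h x‖ ^ 2 = F.indicator (fun x => ‖T Z ε g x‖ ^ 2) x := by
    intro x
    by_cases hx : x ∈ F
    · rw [hh, indicator_of_mem hx, indicator_of_mem hx, RCLike.norm_conj]
    · rw [hh, indicator_of_notMem hx, indicator_of_notMem hx]; simp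
  have hhsqi : Integrable (fun x => ‖h x‖ ^ 2) := by
    have : (fun x => ‖h x‖ ^ 2) = F.indicator (fun x => ‖T Z ε g x‖ ^ 2) := funext hhn
    rw [this]
    exact (integrable_indicator_iff hF).mpr hTg
  have hhL : MemLp h 2 volume := by
    rw [← memLp_norm_iff hhm.aestronglyMeasurable,
      memLp_two_iff_integrable_sq hhm.norm.aestronglyMeasurable]
    exact hhsqi
  have hhX : ∫ x, ‖h x‖ ^ 2 = X := by
    rw [hX, ← integral_indicator hF]
    exact integral_congr_ae (ae_of_all _ hhn)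
  have hhi : Integrable h :=
    memLp_intble hhL (a := a) (b := b) (fun x hx => hhs x (fun h' => hx (hFI h')))
  have hTh := opsD_complex hZ hε hFI hA h1 h2 hhL hhs
  rw [hhX, ← hC] at hTh
  have hThi := opsD_bdd_intble hZ hε hhi (S := Icc a b) measure_Icc_lt_top
  -- duality
  have hdual : (X : ℂ) = - ∫ x, g x * T Z ε h x := by
    rw [← T_antisymm hZ hε hgi hhi]
    have : (X : ℂ) = ∫ x in F, ((‖T Z ε g x‖ ^ 2 : ℝ) : ℂ) :=
      (integral_ofReal (𝕜 := ℂ) (f := fun x => ‖T Z ε g x‖ ^ 2)).symm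
    rw [this, ← integral_indicator hF]
    refine integral_congr_ae (ae_of_all _ fun x => ?_)
    show F.indicator (fun x => ((‖T Z ε g x‖ ^ 2 : ℝ) : ℂ)) x = h x * T Z ε g x
    by_cases hx : x ∈ F
    · rw [hh, indicator_of_mem hx, indicator_of_mem hx, mul_comm, Complex.mul_conj,
        Complex.normSq_eq_norm_sq]
    · rw [hh, indicator_of_notMem hx, indicator_of_notMem hx, zero_mul]
  have hX0 : 0 ≤ X := integral_nonneg fun x => by positivity
  have hXle : X ≤ C / 2 * G + X / 2 := by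
    have e1 : X = ‖∫ x, g x * T Z ε h x‖ := by
      have : ‖(X : ℂ)‖ = X := by rw [Complex.norm_real, Real.norm_eq_abs, abs_of_nonneg hX0]
      rw [← this, hdual, norm_neg]
    have e2 : ∫ x, g x * T Z ε h x = ∫ x in Icc a b, g x * T Z ε h x := by
      rw [setIntegral_eq_integral_of_forall_compl_eq_zero]
      intro x hx
      rw [hs x hx, zero_mul]
    have hb1 : IntegrableOn (fun x => C / 2 * ‖g x‖ ^ 2) (Icc a b) :=
      (hgsq.const_mul (C / 2)).integrableOn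
    have hb2 : IntegrableOn (fun x => 1 / (2 * C) * ‖T Z ε h x‖ ^ 2) (Icc a b) :=
      hThi.const_mul _
    have e3 : ‖∫ x in Icc a b, g x * T Z ε h x‖
        ≤ ∫ x in Icc a b, (C / 2 * ‖g x‖ ^ 2 + 1 / (2 * C) * ‖T Z ε h x‖ ^ 2) := by
      refine norm_integral_le_of_norm_le (hb1.add hb2) (ae_of_all _ fun x => ?_)
      rw [norm_mul]
      have hq := sq_nonneg (C * ‖g x‖ - ‖T Z ε h x‖)
      have : C / 2 * ‖g x‖ ^ 2 + 1 / (2 * C) * ‖T Z ε h x‖ ^ 2 - ‖g x‖ * ‖T Z ε h x‖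
          = 1 / (2 * C) * (C * ‖g x‖ - ‖T Z ε h x‖) ^ 2 := by
        field_simp
        ring
      have h0 : 0 ≤ 1 / (2 * C) * (C * ‖g x‖ - ‖T Z ε h x‖) ^ 2 := by positivity
      linarith
    have e4 : ∫ x in Icc a b, (C / 2 * ‖g x‖ ^ 2 + 1 / (2 * C) * ‖T Z ε h x‖ ^ 2)
        = C / 2 * (∫ x in Icc a b, ‖g x‖ ^ 2)
          + 1 / (2 * C) * ∫ x in Icc a b, ‖T Z ε h x‖ ^ 2 := by
      rw [integral_add hb1 hb2, integral_const_mul, integral_const_mul]
    have e5 : ∫ x in Icc a b, ‖g x‖ ^ 2 ≤ G :=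
      setIntegral_le_integral hgsq (ae_of_all _ fun x => by positivity)
    have e6 : 1 / (2 * C) * ∫ x in Icc a b, ‖T Z ε h x‖ ^ 2 ≤ 1 / (2 * C) * (C * X) := by
      gcongr
    have e7 : 1 / (2 * C) * (C * X) = X / 2 := by field_simp
    have e8 : C / 2 * (∫ x in Icc a b, ‖g x‖ ^ 2) ≤ C / 2 * G := by gcongr
    rw [e2] at e1
    linarith
  have hfin : X ≤ C * G := by linarith
  -- back to lintegrals
  have l1 : ∫⁻ x in F, ‖T Z ε g x‖ₑ ^ 2 = ENNReal.ofReal X := by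
    rw [hX, ofReal_integral_eq_lintegral_ofReal hTg (ae_of_all _ fun x => by positivity)]
    refine lintegral_congr fun x => ?_
    exact opsD_ofReal_sq _
  have l2 : ∫⁻ x, ‖g x‖ₑ ^ 2 = ENNReal.ofReal G := by
    rw [hG, ofReal_integral_eq_lintegral_ofReal hgsq (ae_of_all _ fun x => by positivity)]
    refine lintegral_congr fun x => ?_
    exact opsD_ofReal_sq _
  rw [l1, l2, ← ENNReal.ofReal_mul hC0.le]
  exact ENNReal.ofReal_le_ofReal hfin

end Pool.Agent.H799R2.CI
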