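import Pool.Agent.H799R2.CI.OpsB
import Pool.Agent.H799R2.CI.OpsD
import Pool.Agent.H799R2.CI.Cot2

set_option autoImplicit false

open MeasureTheory Set Filter
open scoped ENNReal NNReal ComplexConjugate Topology

namespace Pool.Agent.H799R2.CI

theorem del_pos (n : ℕ) : 0 < del n := by unfold del; positivity

theorem del_tendsto : Tendsto del atTop (𝓝[>] (0 : ℝ)) := by
  apply tendsto_nhdsWithin_iff.mpr
  exact ⟨tendsto_one_div_add_atTop_nhds_zero_nat, Eventually.of_forall fun n => del_pos n⟩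

theorem one_memLp (a b : ℝ) : MemLp (one a b) 2 volume := by
  unfold one
  apply memLp_indicator_const 2 measurableSet_Icc
  right; simp

theorem one_supp (a b : ℝ) : ∀ x, x ∉ Icc a b → one a b x = 0 := by
  intro x hx
  unfold one
  exact indicator_of_notMem hx _

theorem one_inter (a b c d : ℝ) :
    (Icc c d).indicator (one a b) = one (max c a) (min d b) := by
  unfold one
  rw [indicator_indicator, Icc_inter_Icc]

theorem one_lint (a b c d : ℝ) :
    ∫⁻ x in Icc c d, ‖one a b x‖ₑ ^ 2 = ENNReal.ofReal (min d b - max c a) := by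
  have : ∀ x, ‖one a b x‖ₑ ^ 2 = (Icc a b).indicator (fun _ => (1 : ℝ≥0∞)) x := by
    intro x
    unfold one
    by_cases hx : x ∈ Icc a b <;> simp [hx]
  simp_rw [this]
  rw [lintegral_indicator measurableSet_Icc, Measure.restrict_restrict measurableSet_Icc,
    lintegral_one, Measure.restrict_apply_univ, inter_comm, Icc_inter_Icc, Real.volume_Icc]

/-- boundedness in n of the truncations of the constant function, a.e. -/
theorem one_bdd {Z : ℝ → ℂ} (hZ : Near Z) {a b : ℝ} (hab : a ≤ b) :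
    ∀ᵐ t ∂(volume.restrict (Icc a b)), ∃ B : ℝ, ∀ n, ‖T Z (del n) (one a b) t‖ ≤ B := by
  have hCB : (0 : ℝ) ≤ CB := by norm_num [CB]
  obtain ⟨h, hh, hhM, hae⟩ := cot2 hZ (F := Icc a b) measurableSet_Icc subset_rfl
    (Real.sqrt_nonneg CB) (one_memLp a b) (one_supp a b)
    (M := ENNReal.ofReal (CB * (b - a))) ENNReal.ofReal_lt_top
    (fun n => lemB hZ (del_pos n) hab) (by
      intro n c d
      rw [one_inter, one_lint, Real.sq_sqrt hCB, inter_comm, Icc_inter_Icc]
      rcases le_or_gt (max c a) (min d b) with hle | hlt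
      · refine (lemB hZ (del_pos n) hle).trans (le_of_eq ?_)
        rw [ENNReal.ofReal_mul hCB]
      · have : Icc (c ⊔ a) (d ⊓ b) = ∅ := Icc_eq_empty (not_le.mpr hlt)
        rw [this]; simp)
  filter_upwards [hae] with t ht
  have h1 := ht 1 one_pos
  have h2 := del_tendsto.eventually h1
  obtain ⟨N, hN⟩ := eventually_atTop.mp h2
  set B0 := ‖h t‖ + (3 * Real.sqrt CB + 8) * ‖one a b t‖ + 1
  refine ⟨max B0 (∑ n ∈ Finset.range N, ‖T Z (del n) (one a b) t‖), fun n => ?_⟩
  rcases le_or_gt N n with hn | hn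
  · exact (hN n hn).trans (le_max_left _ _)
  · refine le_trans ?_ (le_max_right _ _)
    exact Finset.single_le_sum (f := fun n => ‖T Z (del n) (one a b) t‖)
      (fun i _ => norm_nonneg _) (Finset.mem_range.mpr hn)

theorem near_main {Z : ℝ → ℂ} (hZ : Near Z) {a b : ℝ} (hab : a ≤ b) :
    ∃ (F : ℕ → Set ℝ) (c : ℕ → ℝ), (∀ j, MeasurableSet (F j)) ∧ (∀ j, F j ⊆ Icc a b) ∧
      (∀ j, 0 ≤ c j) ∧ (∀ᵐ t ∂(volume.restrict (Icc a b)), ∃ j, t ∈ F j) ∧
      ∀ (j : ℕ) (g : ℝ → ℂ), MemLp g 2 volume → (∀ x, x ∉ Icc a b → g x = 0) →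
        ∃ H : ℝ → ℝ, AEMeasurable H (volume.restrict (F j)) ∧ (∀ x, 0 ≤ H x) ∧
          ∫⁻ x in F j, ENNReal.ofReal (H x) ^ 2 ≤ ENNReal.ofReal (c j) * ∫⁻ x, ‖g x‖ₑ ^ 2 ∧
          ∀ᵐ t ∂(volume.restrict (F j)), ∀ η > 0, ∀ᶠ ε in 𝓝[>] (0 : ℝ),
            ‖T Z ε g t‖ ≤ H t + η := by
  let F : ℕ → Set ℝ := fun j => {t | t ∈ Icc a b ∧ (∀ n, ‖T Z (del n) (one a b) t‖ ≤ (j : ℝ)) ∧
    K Z a b t ≤ ENNReal.ofReal ((j : ℝ) ^ 2)}
  have hFm : ∀ j, MeasurableSet (F j) := by
    intro j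
    have : F j = Icc a b ∩ ((⋂ n, {t | ‖T Z (del n) (one a b) t‖ ≤ (j : ℝ)}) ∩
        {t | K Z a b t ≤ ENNReal.ofReal ((j : ℝ) ^ 2)}) := by
      ext t; simp [F]
    rw [this]
    refine measurableSet_Icc.inter ((MeasurableSet.iInter fun n => ?_).inter ?_)
    · exact measurableSet_le (T_meas hZ (del n) (one_intble a b).1).norm measurable_const
    · exact measurableSet_le (K_meas hZ a b) measurable_const
  have hFI : ∀ j, F j ⊆ Icc a b := fun j t ht => ht.1
  let N : ℕ → ℝ := fun j => Real.sqrt (10 * (j : ℝ) ^ 2 + 192)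
  refine ⟨F, fun j => 2 * (10 * (j : ℝ) ^ 2 + 192) + 2 * (3 * N j + 8) ^ 2, hFm, hFI, ?_, ?_, ?_⟩
  · intro j; positivity
  · have hK : ∀ᵐ t ∂(volume.restrict (Icc a b)), K Z a b t < ⊤ :=
      ae_lt_top (K_meas hZ a b) (lt_of_le_of_lt (curv hZ hab) ENNReal.ofReal_lt_top).ne
    filter_upwards [hK, one_bdd hZ hab, ae_restrict_mem measurableSet_Icc] with t h1 h2 h3
    obtain ⟨B, hB⟩ := h2
    obtain ⟨j, hj⟩ := exists_nat_gt (max (max B (K Z a b t).toReal) 1)
    have hj1 : B < j := lt_of_le_of_lt ((le_max_left _ _).trans (le_max_left _ _)) hj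
    have hj2 : (K Z a b t).toReal < j := lt_of_le_of_lt ((le_max_right _ _).trans (le_max_left _ _)) hj
    have hj3 : (1 : ℝ) < j := lt_of_le_of_lt (le_max_right _ _) hj
    refine ⟨j, h3, fun n => (hB n).trans hj1.le, ?_⟩
    rw [← ENNReal.ofReal_toReal h1.ne]
    apply ENNReal.ofReal_le_ofReal
    nlinarith
  · intro j g hg hs
    set C : ℝ := 10 * (j : ℝ) ^ 2 + 192 with hC
    have hC0 : 0 ≤ C := by positivity
    have hN2 : N j ^ 2 = C := Real.sq_sqrt hC0
    have hN0 : 0 ≤ N j := Real.sqrt_nonneg _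
    have hgfin : ∫⁻ x, ‖g x‖ₑ ^ 2 < ⊤ := by
      have h2 := hg.2
      rw [eLpNorm_lt_top_iff_lintegral_rpow_enorm_lt_top (by norm_num) (by norm_num)] at h2
      norm_num at h2
      exact h2
    obtain ⟨h, hh, hhM, hae⟩ := cot2 hZ (hFm j) (hFI j) hN0 hg hs
      (M := ENNReal.ofReal C * ∫⁻ x, ‖g x‖ₑ ^ 2) (ENNReal.mul_lt_top ENNReal.ofReal_lt_top hgfin)
      (fun n => lemD hZ (del_pos n) (hFm j) (hFI j) (A := (j : ℝ)) (by positivity)
        (fun t ht => ht.2.1 n) (fun t ht => ht.2.2) hg hs) (by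
        intro n c d
        rw [hN2]
        have hgi : MemLp ((Icc c d).indicator g) 2 volume := hg.indicator measurableSet_Icc
        have hsi : ∀ x, x ∉ Icc a b → (Icc c d).indicator g x = 0 := by
          intro x hx
          by_cases hxc : x ∈ Icc c d
          · rw [indicator_of_mem hxc, hs x hx]
          · exact indicator_of_notMem hxc _
        have h1 := lemD hZ (del_pos n) (hFm j) (hFI j) (A := (j : ℝ)) (by positivity)
          (fun t ht => ht.2.1 n) (fun t ht => ht.2.2) hgi hsi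
        calc ∫⁻ x in F j ∩ Icc c d, ‖T Z (del n) ((Icc c d).indicator g) x‖ₑ ^ 2
            ≤ ∫⁻ x in F j, ‖T Z (del n) ((Icc c d).indicator g) x‖ₑ ^ 2 :=
              lintegral_mono_set inter_subset_left
          _ ≤ _ := h1
          _ = _ := by
              rw [← lintegral_indicator measurableSet_Icc]
              congr 1
              apply lintegral_congr
              intro x
              by_cases hxc : x ∈ Icc c d
              · simp [indicator_of_mem hxc]
              · simp [indicator_of_notMem hxc])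
    refine ⟨fun x => ‖h x‖ + (3 * N j + 8) * ‖g x‖, ?_, ?_, ?_, ?_⟩
    · exact hh.1.norm.aemeasurable.add ((hg.1.norm.aemeasurable.restrict).const_mul _)
    · intro x; positivity
    · have hpt : ∀ x, ENNReal.ofReal (‖h x‖ + (3 * N j + 8) * ‖g x‖) ^ 2 ≤
          2 * ‖h x‖ₑ ^ 2 + ENNReal.ofReal (2 * (3 * N j + 8) ^ 2) * ‖g x‖ₑ ^ 2 := by
        intro x
        rw [← ofReal_norm, ← ofReal_norm, ← ENNReal.ofReal_pow (by positivity),
          ← ENNReal.ofReal_pow (by positivity), ← ENNReal.ofReal_pow (by positivity)]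
        have h2 : (2 : ℝ≥0∞) = ENNReal.ofReal 2 := by norm_num
        rw [h2, ← ENNReal.ofReal_mul (by positivity), ← ENNReal.ofReal_mul (by positivity),
          ← ENNReal.ofReal_add (by positivity) (by positivity)]
        apply ENNReal.ofReal_le_ofReal
        nlinarith [sq_nonneg (‖h x‖ - (3 * N j + 8) * ‖g x‖)]
      calc ∫⁻ x in F j, ENNReal.ofReal (‖h x‖ + (3 * N j + 8) * ‖g x‖) ^ 2
          ≤ ∫⁻ x in F j, (2 * ‖h x‖ₑ ^ 2 + ENNReal.ofReal (2 * (3 * N j + 8) ^ 2) * ‖g x‖ₑ ^ 2) :=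
            lintegral_mono hpt
        _ = 2 * (∫⁻ x in F j, ‖h x‖ₑ ^ 2) +
            ENNReal.ofReal (2 * (3 * N j + 8) ^ 2) * ∫⁻ x in F j, ‖g x‖ₑ ^ 2 := by
            rw [lintegral_add_left', lintegral_const_mul' _ _ (by norm_num),
              lintegral_const_mul' _ _ ENNReal.ofReal_ne_top]
            exact (hh.1.enorm.pow_const 2).const_mul 2
        _ ≤ 2 * (ENNReal.ofReal C * ∫⁻ x, ‖g x‖ₑ ^ 2) +
            ENNReal.ofReal (2 * (3 * N j + 8) ^ 2) * ∫⁻ x, ‖g x‖ₑ ^ 2 := by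
            gcongr
            exact Measure.restrict_le_self
        _ = _ := by
            have h2 : (2 : ℝ≥0∞) = ENNReal.ofReal 2 := by norm_num
            rw [← mul_assoc, h2, ← ENNReal.ofReal_mul (by positivity), ← add_mul,
              ← ENNReal.ofReal_add (by positivity) (by positivity)]
    · exact hae

end Pool.Agent.H799R2.CI
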