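import Pool.Agent.H799R2.CI.SymIneq
import Pool.Agent.H799R2.CI.Curv2

set_option autoImplicit false

open MeasureTheory Set Filter
open scoped ENNReal NNReal ComplexConjugate Topology

namespace Pool.Agent.H799R2.CI

theorem one_intble (a b : ℝ) : Integrable (one a b) := by
  unfold one
  rw [integrable_indicator_iff measurableSet_Icc]
  exact integrableOn_const (by simp)

/-- T of a function in L1 is square integrable on bounded intervals. -/
theorem T_sq_intble {Z : ℝ → ℂ} (hZ : Near Z) {ε : ℝ} (hε : 0 < ε) {g : ℝ → ℂ}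
    (hg : Integrable g) (a b : ℝ) : IntegrableOn (fun x => ‖T Z ε g x‖ ^ 2) (Icc a b) := by
  have hm := T_meas hZ ε hg.1
  refine Measure.integrableOn_of_bounded (M := (2 / ε * ∫ y, ‖g y‖) ^ 2) (by simp) ?_ ?_
  · exact (hm.norm.pow_const 2).aestronglyMeasurable
  · refine ae_of_all _ fun x => ?_
    rw [Real.norm_eq_abs, abs_of_nonneg (by positivity)]
    have := T_bound hZ hε hg x
    gcongr

theorem T_lint {Z : ℝ → ℂ} (hZ : Near Z) {ε : ℝ} (hε : 0 < ε) {g : ℝ → ℂ}
    (hg : Integrable g) (a b : ℝ) :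
    ∫⁻ x in Icc a b, ‖T Z ε g x‖ₑ ^ 2 = ENNReal.ofReal (∫ x in Icc a b, ‖T Z ε g x‖ ^ 2) := by
  rw [ofReal_integral_eq_lintegral_ofReal (T_sq_intble hZ hε hg a b)
    (ae_of_all _ fun x => by positivity)]
  apply lintegral_congr
  intro x
  rw [ENNReal.ofReal_pow (norm_nonneg _), ofReal_norm]

theorem lemB {Z : ℝ → ℂ} (hZ : Near Z) {ε : ℝ} (hε : 0 < ε) {a b : ℝ} (hab : a ≤ b) :
    ∫⁻ x in Icc a b, ‖T Z ε (one a b) x‖ₑ ^ 2 ≤ ENNReal.ofReal (CB * (b - a)) := by
  set f : ℝ → ℝ := (Icc a b).indicator (fun _ => (1 : ℝ)) with hf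
  have hfone : (fun y => (f y : ℂ)) = one a b := by
    funext y
    unfold one
    by_cases hy : y ∈ Icc a b <;> simp [hf, hy]
  have hfL : MemLp f 2 volume := by
    apply memLp_indicator_const 2 measurableSet_Icc
    right; simp
  have hfs : ∀ x, x ∉ Icc a b → f x = 0 := fun x hx => indicator_of_notMem hx _
  have h := sym_ineq hZ hε hfL hfs
  rw [hfone] at h
  have h2 : ∫ x in Icc a b, f x * (T Z ε (one a b) x * conj (T Z ε (one a b) x)).re
      = ∫ x in Icc a b, ‖T Z ε (one a b) x‖ ^ 2 := by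
    apply setIntegral_congr_fun measurableSet_Icc
    intro x hx
    simp only [hf, indicator_of_mem hx, one_mul, Complex.mul_conj, Complex.ofReal_re]
    rw [Complex.normSq_eq_norm_sq]
  rw [h2] at h
  set P := ∫ x in Icc a b, ‖T Z ε (one a b) x‖ ^ 2 with hP
  have hP0 : 0 ≤ P := integral_nonneg fun x => by positivity
  have h3 : ∫⁻ y in Icc a b, ENNReal.ofReal (f y ^ 2) * (K Z a b y + 96)
      ≤ ENNReal.ofReal (6 * (CB * (b - a))) := by
    calc ∫⁻ y in Icc a b, ENNReal.ofReal (f y ^ 2) * (K Z a b y + 96)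
        = ∫⁻ y in Icc a b, (K Z a b y + 96) := by
          apply setLIntegral_congr_fun measurableSet_Icc
          intro y hy
          simp [hf, indicator_of_mem hy]
      _ = (∫⁻ y in Icc a b, K Z a b y) + 96 * ENNReal.ofReal (b - a) := by
          rw [lintegral_add_right _ measurable_const]
          simp
      _ ≤ ENNReal.ofReal (CA * (b - a)) + 96 * ENNReal.ofReal (b - a) := by
          gcongr
          exact curv hZ hab
      _ ≤ ENNReal.ofReal (6 * (CB * (b - a))) := by
          have : (96 : ℝ≥0∞) = ENNReal.ofReal 96 := by norm_num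
          rw [this, ← ENNReal.ofReal_mul (by norm_num), ← ENNReal.ofReal_add
            (mul_nonneg (by norm_num [CA]) (by linarith)) (mul_nonneg (by norm_num) (by linarith))]
          apply ENNReal.ofReal_le_ofReal
          have : 0 ≤ b - a := by linarith
          norm_num [CA, CB]
          nlinarith
  have h4 : |2 * P + 4 * P| = 6 * P := by
    rw [abs_of_nonneg (by linarith)]; ring
  rw [h4] at h
  have h5 := h.trans h3
  rw [ENNReal.ofReal_le_ofReal_iff (mul_nonneg (by norm_num) (mul_nonneg (by norm_num [CB]) (by linarith)))] at h5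
  rw [T_lint hZ hε (one_intble a b)]
  apply ENNReal.ofReal_le_ofReal
  linarith

end Pool.Agent.H799R2.CI
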