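import Pool.Agent.H799R2.CI.Defs
import Pool.Agent.H799R2.CI.Ext

/-!
Task 20 (piece_pt), by helper861.
-/

set_option autoImplicit false

open MeasureTheory Set Filter
open scoped ENNReal NNReal ComplexConjugate Topology

namespace Pool.Agent.H799R2.CI

namespace PP

theorem lower {Z : ℝ → ℂ} (hZ : Near Z) (s t : ℝ) : 1 / 2 * |s - t| ≤ ‖Z s - Z t‖ := by
  have h1 := hZ s t
  have h2 : ‖((s - t : ℝ) : ℂ)‖ ≤ ‖Z s - Z t‖ + ‖Z s - Z t - ((s - t : ℝ) : ℂ)‖ := by
    have : ((s - t : ℝ) : ℂ) = (Z s - Z t) - (Z s - Z t - ((s - t : ℝ) : ℂ)) := by ring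
    calc ‖((s - t : ℝ) : ℂ)‖ = ‖(Z s - Z t) - (Z s - Z t - ((s - t : ℝ) : ℂ))‖ := by
          rw [← this]
      _ ≤ _ := norm_sub_le _ _
  rw [Complex.norm_real, Real.norm_eq_abs] at h2
  linarith

theorem cont {Z : ℝ → ℂ} (hZ : Near Z) : Continuous Z := by
  have : LipschitzWith (3 / 2 : ℝ≥0) Z := by
    refine LipschitzWith.of_dist_le_mul fun s t => ?_
    rw [dist_eq_norm, Real.dist_eq]
    have h1 := hZ s t
    have h2 : ‖Z s - Z t‖ ≤ ‖Z s - Z t - ((s - t : ℝ) : ℂ)‖ + ‖((s - t : ℝ) : ℂ)‖ := by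
      calc ‖Z s - Z t‖ = ‖(Z s - Z t - ((s - t : ℝ) : ℂ)) + ((s - t : ℝ) : ℂ)‖ := by
            congr 1; ring
        _ ≤ _ := norm_add_le _ _
    rw [Complex.norm_real, Real.norm_eq_abs] at h2
    have : ((3 / 2 : ℝ≥0) : ℝ) = 3 / 2 := by norm_num
    rw [this]
    linarith
  exact this.continuous

theorem kt_meas1 {Z : ℝ → ℂ} (hZ : Near Z) (ε t : ℝ) : Measurable (fun s => kt Z ε t s) := by
  unfold kt k
  refine Measurable.ite (measurableSet_lt measurable_const (by fun_prop)) ?_ measurable_const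
  exact ((cont hZ).measurable.sub_const _).inv

theorem kt_le {Z : ℝ → ℂ} (hZ : Near Z) {ε : ℝ} (hε : 0 < ε) (t s : ℝ) :
    ‖kt Z ε t s‖ ≤ 2 / ε := by
  unfold kt
  split_ifs with h
  · rw [k, norm_inv]
    have h1 := lower hZ s t
    have h2 : ε / 2 ≤ ‖Z s - Z t‖ := by linarith
    calc ‖Z s - Z t‖⁻¹ ≤ (ε / 2)⁻¹ := inv_anti₀ (by positivity) h2
      _ = 2 / ε := by rw [inv_div]
  · rw [norm_zero]; positivity

theorem deriv_le {γ : ℝ → ℂ} (hγ : LipschitzWith 1 γ) (s : ℝ) : ‖deriv γ s‖ ≤ 1 := by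
  have := norm_deriv_le_of_lipschitz (x₀ := s) hγ
  simpa using this

/-- the pointwise bound -/
theorem pt {L : ℝ} {γ : ℝ → ℂ} (hγ : LipschitzWith 1 γ) {a b : ℝ} (ha : 0 ≤ a)
    (hb : b ≤ L) {v : ℂ} (hv : v ≠ 0) {Z : ℝ → ℂ} (hZ : Near Z)
    (hZE : ∀ t ∈ good γ a b v, Z t = γ t / v) {f : ℝ → ℂ} {j : ℕ} {t : ℝ}
    (ht : t ∈ good γ a b v) (htf : t ∈ far γ L a b j) {ε : ℝ} (hε : 0 < ε) (s : ℝ) :
    ‖({s : ℝ | s ∈ Set.Icc (0 : ℝ) L ∧ ε * ‖v‖ < ‖γ s - γ t‖}.indicator
        (fun s => f s * deriv γ s / (γ s - γ t)) s) - gg γ a b v f s * kt Z ε t s‖ₑ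
      ≤ (Icc (0 : ℝ) L).indicator (fun s => ENNReal.ofReal (((j : ℝ) + 1) * ‖f s‖)) s
        + ((Icc a b).indicator (fun s => 8 * (‖gg γ a b v f s‖ₑ * mk (good γ a b v) s t)) s
        + (Icc (t - 2 * ε) (t + 2 * ε)).indicator
            (fun s => ENNReal.ofReal ((5 / 2) / ε * ‖gg γ a b v f s‖)) s) := by
  classical
  have hv' : 0 < ‖v‖ := norm_pos_iff.2 hv
  by_cases hs : s ∈ Icc a b
  · -- inside [a, b]
    have hsL : s ∈ Icc (0 : ℝ) L := ⟨ha.trans hs.1, hs.2.trans hb⟩
    have hg : gg γ a b v f s = f s * deriv γ s / v := by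
      rw [gg, indicator_of_mem hs]
    have heta : ‖γ s / v - γ t / v‖ = ‖γ s - γ t‖ / ‖v‖ := by
      rw [← sub_div, norm_div]
    have hmem : (s ∈ {s : ℝ | s ∈ Set.Icc (0 : ℝ) L ∧ ε * ‖v‖ < ‖γ s - γ t‖})
        ↔ ε < ‖γ s / v - γ t / v‖ := by
      rw [heta, lt_div_iff₀ hv']
      exact ⟨fun h => h.2, fun h => ⟨hsL, h⟩⟩
    have hphi : f s * deriv γ s / (γ s - γ t) = gg γ a b v f s * (γ s / v - γ t / v)⁻¹ := by
      rw [hg, ← sub_div, inv_div]
      by_cases h0 : γ s - γ t = 0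
      · rw [h0]; simp
      · field_simp
    have h34 : 3 / 4 * |s - t| ≤ ‖γ s / v - γ t / v‖ := by
      have h1 := ht.2 s hs
      have h2 : ‖v * ((s - t : ℝ) : ℂ)‖ ≤ ‖γ s - γ t‖ + ‖γ s - γ t - v * ((s - t : ℝ) : ℂ)‖ := by
        calc ‖v * ((s - t : ℝ) : ℂ)‖
            = ‖(γ s - γ t) - (γ s - γ t - v * ((s - t : ℝ) : ℂ))‖ := by congr 1; ring
          _ ≤ _ := norm_sub_le _ _
      rw [norm_mul, Complex.norm_real, Real.norm_eq_abs] at h2
      rw [heta, le_div_iff₀ hv']
      linarith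
    by_cases hD : ε < ‖γ s / v - γ t / v‖
    · rw [indicator_of_mem (hmem.2 hD), hphi]
      by_cases hst : ε < |s - t|
      · -- the kernel difference
        have hne : s ≠ t := by
          rintro rfl; rw [sub_self, abs_zero] at hst; linarith
        have hkt : kt Z ε t s = k Z t s := by rw [kt, if_pos hst]
        rw [hkt, ← mul_sub, enorm_mul]
        have hd := ker_diff (eta := fun s => γ s / v) (a := a) (b := b) (E := good γ a b v)
          (fun x hx => hx.1) (by
            intro t ht s hs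
            have h1 := ht.2 s hs
            have h2 : γ s / v - γ t / v - ((s - t : ℝ) : ℂ)
                = (γ s - γ t - v * ((s - t : ℝ) : ℂ)) / v := by
              field_simp
            show ‖γ s / v - γ t / v - ((s - t : ℝ) : ℂ)‖ ≤ _
            rw [h2, norm_div, div_le_iff₀ hv']
            linarith) hZ hZE ht hs hne
        have h8 : ‖(γ s / v - γ t / v)⁻¹ - k Z t s‖ₑ ≤ 8 * mk (good γ a b v) s t := by
          rw [← ofReal_norm]
          refine (ENNReal.ofReal_le_ofReal hd).trans ?_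
          rw [ENNReal.ofReal_mul (by norm_num), mk]
          gcongr
          norm_num
        refine le_trans ?_ (le_add_left (le_add_right le_rfl))
        rw [indicator_of_mem hs]
        calc ‖gg γ a b v f s‖ₑ * ‖(γ s / v - γ t / v)⁻¹ - k Z t s‖ₑ
            ≤ ‖gg γ a b v f s‖ₑ * (8 * mk (good γ a b v) s t) := by gcongr
          _ = 8 * (‖gg γ a b v f s‖ₑ * mk (good γ a b v) s t) := by ring
      · -- |s - t| ≤ ε
        have hkt : kt Z ε t s = 0 := by rw [kt, if_neg hst]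
        rw [hkt, mul_zero, sub_zero]
        have hm : s ∈ Icc (t - 2 * ε) (t + 2 * ε) := by
          rw [not_lt] at hst
          have := abs_le.1 hst
          constructor <;> linarith
        refine le_trans ?_ (le_add_left (le_add_left le_rfl))
        rw [indicator_of_mem hm, ← ofReal_norm]
        apply ENNReal.ofReal_le_ofReal
        rw [norm_mul, norm_inv, mul_comm]
        apply mul_le_mul_of_nonneg_right _ (norm_nonneg _)
        calc ‖γ s / v - γ t / v‖⁻¹ ≤ ε⁻¹ := inv_anti₀ hε hD.le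
          _ ≤ 5 / 2 / ε := by
            rw [inv_eq_one_div]
            apply div_le_div_of_nonneg_right _ hε.le
            norm_num
    · rw [indicator_of_notMem (fun h => hD (hmem.1 h))]
      by_cases hst : ε < |s - t|
      · have hm : s ∈ Icc (t - 2 * ε) (t + 2 * ε) := by
          rw [not_lt] at hD
          have h1 : |s - t| ≤ 2 * ε := by linarith
          have := abs_le.1 h1
          constructor <;> linarith
        refine le_trans ?_ (le_add_left (le_add_left le_rfl))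
        rw [indicator_of_mem hm, ← ofReal_norm]
        apply ENNReal.ofReal_le_ofReal
        rw [zero_sub, norm_neg, norm_mul, mul_comm]
        apply mul_le_mul_of_nonneg_right _ (norm_nonneg _)
        refine (kt_le hZ hε t s).trans ?_
        apply div_le_div_of_nonneg_right _ hε.le
        norm_num
      · have hkt : kt Z ε t s = 0 := by rw [kt, if_neg hst]
        rw [hkt, mul_zero, sub_zero, enorm_zero]
        exact zero_le
  · -- outside [a, b]
    have hg : gg γ a b v f s = 0 := by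
      rw [gg, indicator_of_notMem hs]
    rw [hg, zero_mul, sub_zero]
    by_cases hD : s ∈ {s : ℝ | s ∈ Set.Icc (0 : ℝ) L ∧ ε * ‖v‖ < ‖γ s - γ t‖}
    · rw [indicator_of_mem hD]
      refine le_trans ?_ (le_add_right le_rfl)
      rw [indicator_of_mem hD.1, ← ofReal_norm]
      apply ENNReal.ofReal_le_ofReal
      have h1 := htf.2 s hD.1 (fun h => hs (Ioo_subset_Icc_self h))
      have h2 : 0 < 1 / ((j : ℝ) + 1) := by positivity
      rw [norm_div, norm_mul, div_eq_mul_inv, mul_comm]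
      have h3 : ‖γ s - γ t‖⁻¹ ≤ (j : ℝ) + 1 := by
        calc ‖γ s - γ t‖⁻¹ ≤ (1 / ((j : ℝ) + 1))⁻¹ := inv_anti₀ h2 h1
          _ = (j : ℝ) + 1 := by rw [one_div, inv_inv]
      have h4 : ‖f s‖ * ‖deriv γ s‖ ≤ ‖f s‖ := by
        have := mul_le_mul_of_nonneg_left (deriv_le hγ s) (norm_nonneg (f s))
        rwa [mul_one] at this
      exact mul_le_mul h3 h4 (by positivity) (by positivity)
    · rw [indicator_of_notMem hD, enorm_zero]
      exact zero_le

end PP

theorem piece_pt {L : ℝ} {γ : ℝ → ℂ} (hγ : LipschitzWith 1 γ) {a b : ℝ} (ha : 0 ≤ a) (hab : a ≤ b)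
    (hb : b ≤ L) {v : ℂ} (hv : v ≠ 0) {Z : ℝ → ℂ} (hZ : Near Z)
    (hZE : ∀ t ∈ good γ a b v, Z t = γ t / v) {f : ℝ → ℂ}
    (hf : IntegrableOn f (Icc 0 L)) {j : ℕ} {t : ℝ} (ht : t ∈ good γ a b v)
    (htf : t ∈ far γ L a b j) {ε : ℝ} (hε : 0 < ε) (hε1 : ε * ‖v‖ < 1 / ((j : ℝ) + 1)) :
    ‖CI γ L f (ε * ‖v‖) t‖ₑ ≤ ENNReal.ofReal (((j : ℝ) + 1) * ∫ s in Icc 0 L, ‖f s‖)
      + 8 * (∫⁻ s in Icc a b, ‖gg γ a b v f s‖ₑ * mk (good γ a b v) s t)
      + ENNReal.ofReal ((5 / 2) / ε * ∫ s in Icc (t - 2 * ε) (t + 2 * ε), ‖gg γ a b v f s‖)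
      + ‖T Z ε (gg γ a b v f) t‖ₑ := by
  have hv' : 0 < ‖v‖ := norm_pos_iff.2 hv
  have hcγ : Continuous γ := hγ.continuous
  set D : Set ℝ := {s : ℝ | s ∈ Set.Icc (0 : ℝ) L ∧ ε * ‖v‖ < ‖γ s - γ t‖} with hD
  have hDm : MeasurableSet D := by
    have : D = Icc (0 : ℝ) L ∩ {s | ε * ‖v‖ < ‖γ s - γ t‖} := rfl
    rw [this]
    exact measurableSet_Icc.inter (measurableSet_lt measurable_const (by fun_prop))
  have hDsub : D ⊆ Icc (0 : ℝ) L := fun s hs => hs.1
  -- integrability
  have hfd : IntegrableOn (fun s => f s * deriv γ s) (Icc 0 L) := by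
    refine Integrable.mul_bdd (c := 1) hf ?_ ?_
    · exact (measurable_deriv γ).aestronglyMeasurable
    · exact Eventually.of_forall (PP.deriv_le hγ)
  have hphi : IntegrableOn (fun s => f s * deriv γ s / (γ s - γ t)) D := by
    have h1 : IntegrableOn (fun s => f s * deriv γ s) D := hfd.mono_set hDsub
    have : (fun s => f s * deriv γ s / (γ s - γ t))
        = fun s => (f s * deriv γ s) * (γ s - γ t)⁻¹ := by
      funext s; rw [div_eq_mul_inv]
    rw [this]
    refine Integrable.mul_bdd (c := (ε * ‖v‖)⁻¹) h1 ?_ ?_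
    · exact ((hcγ.measurable.sub_const _).inv).aestronglyMeasurable
    · filter_upwards [ae_restrict_mem hDm] with s hs
      rw [norm_inv]
      exact inv_anti₀ (by positivity) hs.2.le
  have hgg : Integrable (gg γ a b v f) := by
    unfold gg
    rw [integrable_indicator_iff measurableSet_Icc]
    have h1 : IntegrableOn (fun s => f s * deriv γ s) (Icc a b) :=
      hfd.mono_set (Icc_subset_Icc ha hb)
    exact h1.div_const v
  have hT : Integrable (fun s => gg γ a b v f s * kt Z ε t s) := by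
    refine Integrable.mul_bdd (c := 2 / ε) hgg ?_ ?_
    · exact (PP.kt_meas1 hZ ε t).aestronglyMeasurable
    · exact Eventually.of_forall (PP.kt_le hZ hε t)
  have hphi' : Integrable (D.indicator (fun s => f s * deriv γ s / (γ s - γ t))) :=
    (integrable_indicator_iff hDm).2 hphi
  -- the constant
  have hconst : ‖(2 * (Real.pi : ℂ) * Complex.I)⁻¹‖ₑ ≤ 1 := by
    rw [← ofReal_norm, ← ENNReal.ofReal_one]
    apply ENNReal.ofReal_le_ofReal
    rw [norm_inv, norm_mul, norm_mul, Complex.norm_I, mul_one, Complex.norm_real,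
      Real.norm_eq_abs, abs_of_pos Real.pi_pos]
    apply inv_le_one_of_one_le₀
    have : ‖(2 : ℂ)‖ = 2 := by simp
    rw [this]
    nlinarith [Real.pi_gt_three]
  have h1 : ‖CI γ L f (ε * ‖v‖) t‖ₑ
      ≤ ‖∫ s, D.indicator (fun s => f s * deriv γ s / (γ s - γ t)) s‖ₑ := by
    rw [CI, enorm_mul, integral_indicator hDm]
    exact mul_le_of_le_one_left zero_le hconst
  have h2 : ∫ s, D.indicator (fun s => f s * deriv γ s / (γ s - γ t)) s
      = (∫ s, (D.indicator (fun s => f s * deriv γ s / (γ s - γ t)) s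
          - gg γ a b v f s * kt Z ε t s)) + T Z ε (gg γ a b v f) t := by
    rw [integral_sub hphi' hT, T]
    ring
  have hA : AEMeasurable ((Icc (0 : ℝ) L).indicator
      (fun s => ENNReal.ofReal (((j : ℝ) + 1) * ‖f s‖))) := by
    rw [aemeasurable_indicator_iff measurableSet_Icc]
    exact (hf.aestronglyMeasurable.norm.aemeasurable.const_mul _).ennreal_ofReal
  have hC : AEMeasurable ((Icc (t - 2 * ε) (t + 2 * ε)).indicator
            (fun s => ENNReal.ofReal ((5 / 2) / ε * ‖gg γ a b v f s‖))) := by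
    rw [aemeasurable_indicator_iff measurableSet_Icc]
    exact ((hgg.aestronglyMeasurable.norm.aemeasurable.const_mul _).ennreal_ofReal).restrict
  calc ‖CI γ L f (ε * ‖v‖) t‖ₑ
      ≤ ‖∫ s, D.indicator (fun s => f s * deriv γ s / (γ s - γ t)) s‖ₑ := h1
    _ ≤ ‖∫ s, (D.indicator (fun s => f s * deriv γ s / (γ s - γ t)) s
          - gg γ a b v f s * kt Z ε t s)‖ₑ + ‖T Z ε (gg γ a b v f) t‖ₑ := by
        rw [h2]; exact enorm_add_le _ _
    _ ≤ (∫⁻ s, ‖D.indicator (fun s => f s * deriv γ s / (γ s - γ t)) s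
          - gg γ a b v f s * kt Z ε t s‖ₑ) + ‖T Z ε (gg γ a b v f) t‖ₑ := by
        gcongr
        exact enorm_integral_le_lintegral_enorm _
    _ ≤ (∫⁻ s, ((Icc (0 : ℝ) L).indicator (fun s => ENNReal.ofReal (((j : ℝ) + 1) * ‖f s‖)) s
        + ((Icc a b).indicator (fun s => 8 * (‖gg γ a b v f s‖ₑ * mk (good γ a b v) s t)) s
        + (Icc (t - 2 * ε) (t + 2 * ε)).indicator
            (fun s => ENNReal.ofReal ((5 / 2) / ε * ‖gg γ a b v f s‖)) s)))
          + ‖T Z ε (gg γ a b v f) t‖ₑ := by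
        gcongr with s
        exact PP.pt hγ ha hb hv hZ hZE ht htf hε s
    _ = _ := by
        rw [lintegral_add_left' hA, lintegral_add_right' _ hC]
        rw [lintegral_indicator measurableSet_Icc, lintegral_indicator measurableSet_Icc,
          lintegral_indicator measurableSet_Icc]
        rw [lintegral_const_mul' _ _ (by norm_num)]
        rw [← ofReal_integral_eq_lintegral_ofReal (hf.norm.const_mul _)
          (Eventually.of_forall fun s => by positivity)]
        rw [← ofReal_integral_eq_lintegral_ofReal (hgg.norm.integrableOn.const_mul _)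
          (Eventually.of_forall fun s => by positivity)]
        rw [integral_const_mul, integral_const_mul]
        simp only [add_assoc]

end Pool.Agent.H799R2.CI
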