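import Pool.Agent.H799R2.CI.NearMain
import Pool.Agent.H799R2.CI.Ext
import Pool.Agent.H799R2.CI.Marc2
import Pool.Agent.H799R2.CI.PiecePt
import Pool.Agent.H799R2.CI.Leb

set_option autoImplicit false

open MeasureTheory Set Filter
open scoped ENNReal NNReal ComplexConjugate Topology

namespace Pool.Agent.H799R2.CI

theorem good_closed {γ : ℝ → ℂ} (hγ : Continuous γ) (a b : ℝ) (v : ℂ) : IsClosed (good γ a b v) := by
  have : good γ a b v = Icc a b ∩ ⋂ s ∈ Icc a b,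
      {t | ‖γ s - γ t - v * ((s - t : ℝ) : ℂ)‖ ≤ (1 / 4) * ‖v‖ * |s - t|} := by
    ext t; simp [good]
  rw [this]
  refine isClosed_Icc.inter (isClosed_biInter fun s _ => ?_)
  apply isClosed_le
  · fun_prop
  · fun_prop

theorem far_closed {γ : ℝ → ℂ} (hγ : Continuous γ) (L a b : ℝ) (j : ℕ) :
    IsClosed (far γ L a b j) := by
  have : far γ L a b j = Icc a b ∩ ⋂ s ∈ {s | s ∈ Icc (0 : ℝ) L ∧ s ∉ Ioo a b},
      {t | 1 / ((j : ℝ) + 1) ≤ ‖γ s - γ t‖} := by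
    ext t; simp [far]
  rw [this]
  refine isClosed_Icc.inter (isClosed_biInter fun s _ => ?_)
  apply isClosed_le
  · fun_prop
  · fun_prop

theorem mk_meas (E : Set ℝ) : Measurable (fun p : ℝ × ℝ => mk E p.1 p.2) := by
  unfold mk
  have : Measurable (fun p : ℝ × ℝ => Metric.infDist p.1 E) :=
    (Metric.continuous_infDist_pt E).measurable.comp measurable_fst
  fun_prop

theorem sum4_sq (x y z w : ℝ≥0∞) :
    (x + y + z + w) ^ 2 ≤ 4 * (x ^ 2 + y ^ 2 + z ^ 2 + w ^ 2) := by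
  have h2 : ∀ p q : ℝ≥0∞, (p + q) ^ 2 ≤ 2 * (p ^ 2 + q ^ 2) := by
    intro p q
    have := ENNReal.rpow_add_le_mul_rpow_add_rpow p q (p := 2) (by norm_num)
    norm_num at this
    exact_mod_cast this
  calc (x + y + z + w) ^ 2 = ((x + y) + (z + w)) ^ 2 := by ring
    _ ≤ 2 * ((x + y) ^ 2 + (z + w) ^ 2) := h2 _ _
    _ ≤ 2 * (2 * (x ^ 2 + y ^ 2) + 2 * (z ^ 2 + w ^ 2)) := by gcongr <;> exact h2 _ _
    _ = 4 * (x ^ 2 + y ^ 2 + z ^ 2 + w ^ 2) := by ring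

theorem deriv_le_one {γ : ℝ → ℂ} (hγ : LipschitzWith 1 γ) (s : ℝ) : ‖deriv γ s‖ ≤ 1 := by
  simpa using norm_deriv_le_of_lipschitz hγ (x₀ := s)

theorem gg_meas {L : ℝ} {γ : ℝ → ℂ} {a b : ℝ} (ha : 0 ≤ a)
    (hb : b ≤ L) {v : ℂ} {f : ℝ → ℂ} (hf : AEStronglyMeasurable f (volume.restrict (Icc (0 : ℝ) L))) :
    AEStronglyMeasurable (gg γ a b v f) volume := by
  unfold gg
  rw [aestronglyMeasurable_indicator_iff measurableSet_Icc]
  have h1 : AEStronglyMeasurable f (volume.restrict (Icc a b)) :=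
    hf.mono_measure (Measure.restrict_mono (Icc_subset_Icc ha hb) le_rfl)
  have h2 : AEStronglyMeasurable (deriv γ) (volume.restrict (Icc a b)) :=
    (measurable_deriv γ).aestronglyMeasurable
  have h3 : AEStronglyMeasurable (fun s => f s * deriv γ s) (volume.restrict (Icc a b)) := h1.mul h2
  simpa [div_eq_mul_inv] using h3.mul_const v⁻¹

theorem gg_norm {γ : ℝ → ℂ} (hγ : LipschitzWith 1 γ) {a b : ℝ} {v : ℂ} (f : ℝ → ℂ) (s : ℝ) :
    ‖gg γ a b v f s‖ ≤ ‖v‖⁻¹ * (Icc a b).indicator (fun s => ‖f s‖) s := by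
  unfold gg
  by_cases hs : s ∈ Icc a b
  · simp only [indicator_of_mem hs, norm_div, norm_mul]
    rw [div_eq_inv_mul]
    have := deriv_le_one hγ s
    have h0 : 0 ≤ ‖f s‖ := norm_nonneg _
    have h1 : 0 ≤ ‖v‖⁻¹ := inv_nonneg.mpr (norm_nonneg _)
    nlinarith [mul_le_mul_of_nonneg_left this h0, mul_le_mul_of_nonneg_left (mul_le_mul_of_nonneg_left this h0) h1]
  · simp [indicator_of_notMem hs]

theorem gg_lint {L : ℝ} {γ : ℝ → ℂ} (hγ : LipschitzWith 1 γ) {a b : ℝ} (ha : 0 ≤ a)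
    (hb : b ≤ L) {v : ℂ} (f : ℝ → ℂ) :
    ∫⁻ s, ‖gg γ a b v f s‖ₑ ^ 2 ≤ ENNReal.ofReal (‖v‖⁻¹ ^ 2) * ∫⁻ s in Icc (0 : ℝ) L, ‖f s‖ₑ ^ 2 := by
  have h1 : ∀ s, ‖gg γ a b v f s‖ₑ ^ 2 ≤
      (Icc (0 : ℝ) L).indicator (fun s => ENNReal.ofReal (‖v‖⁻¹ ^ 2) * ‖f s‖ₑ ^ 2) s := by
    intro s
    by_cases hs : s ∈ Icc a b
    · have hs' : s ∈ Icc (0 : ℝ) L := Icc_subset_Icc ha hb hs
      rw [indicator_of_mem hs']
      have := gg_norm hγ (a := a) (b := b) (v := v) f s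
      rw [indicator_of_mem hs] at this
      have h2 : ‖gg γ a b v f s‖ₑ ≤ ENNReal.ofReal ‖v‖⁻¹ * ‖f s‖ₑ := by
        rw [← ofReal_norm, ← ofReal_norm, ← ENNReal.ofReal_mul (by positivity)]
        exact ENNReal.ofReal_le_ofReal this
      calc ‖gg γ a b v f s‖ₑ ^ 2 ≤ (ENNReal.ofReal ‖v‖⁻¹ * ‖f s‖ₑ) ^ 2 := by gcongr
        _ = _ := by rw [mul_pow, ENNReal.ofReal_pow (by positivity)]
    · have : gg γ a b v f s = 0 := by unfold gg; exact indicator_of_notMem hs _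
      rw [this]; simp
  calc ∫⁻ s, ‖gg γ a b v f s‖ₑ ^ 2
      ≤ ∫⁻ s, (Icc (0 : ℝ) L).indicator (fun s => ENNReal.ofReal (‖v‖⁻¹ ^ 2) * ‖f s‖ₑ ^ 2) s :=
        lintegral_mono h1
    _ = ∫⁻ s in Icc (0 : ℝ) L, ENNReal.ofReal (‖v‖⁻¹ ^ 2) * ‖f s‖ₑ ^ 2 := by
        rw [lintegral_indicator measurableSet_Icc]
    _ = _ := by rw [lintegral_const_mul' _ _ ENNReal.ofReal_ne_top]

theorem gg_memLp {L : ℝ} {γ : ℝ → ℂ} (hγ : LipschitzWith 1 γ) {a b : ℝ} (ha : 0 ≤ a)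
    (hb : b ≤ L) {v : ℂ} {f : ℝ → ℂ} (hf : MemLp f 2 (volume.restrict (Icc (0 : ℝ) L))) :
    MemLp (gg γ a b v f) 2 volume := by
  refine ⟨gg_meas ha hb hf.1, ?_⟩
  have h2 := hf.2
  rw [eLpNorm_lt_top_iff_lintegral_rpow_enorm_lt_top (by norm_num) (by norm_num)] at h2 ⊢
  norm_num at h2 ⊢
  have h3 := gg_lint hγ ha hb (v := v) f
  refine lt_of_le_of_lt h3 ?_
  exact ENNReal.mul_lt_top ENNReal.ofReal_lt_top h2

theorem gg_supp {γ : ℝ → ℂ} {a b : ℝ} {v : ℂ} (f : ℝ → ℂ) :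
    ∀ x, x ∉ Icc a b → gg γ a b v f x = 0 := by
  intro x hx
  unfold gg
  exact indicator_of_notMem hx _

/-- Cauchy-Schwarz on [0,L]. -/
theorem cs_L {L : ℝ} {f : ℝ → ℂ} (hf : AEMeasurable (fun s => ‖f s‖ₑ) (volume.restrict (Icc (0 : ℝ) L))) :
    (∫⁻ s in Icc (0 : ℝ) L, ‖f s‖ₑ) ^ 2 ≤ ENNReal.ofReal L * ∫⁻ s in Icc (0 : ℝ) L, ‖f s‖ₑ ^ 2 := by
  have h := ENNReal.lintegral_mul_le_Lp_mul_Lq (μ := volume.restrict (Icc (0 : ℝ) L))
    (p := 2) (q := 2) (by constructor <;> norm_num) hf (g := fun _ => 1) aemeasurable_const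
  simp only [Pi.mul_apply, mul_one] at h
  norm_num at h
  have h2 : (∫⁻ s in Icc (0 : ℝ) L, ‖f s‖ₑ) ^ 2 ≤
      ((∫⁻ s in Icc (0 : ℝ) L, ‖f s‖ₑ ^ 2) ^ (1 / 2 : ℝ) * ENNReal.ofReal L ^ (1 / 2 : ℝ)) ^ 2 := by
    simpa using pow_le_pow_left' h 2
  refine h2.trans (le_of_eq ?_)
  rw [mul_pow, ← ENNReal.rpow_natCast, ← ENNReal.rpow_natCast, ← ENNReal.rpow_mul,
    ← ENNReal.rpow_mul]
  norm_num
  rw [mul_comm]

/-- the a.e. pointwise bound of the limsup. -/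
theorem piece_ae {L : ℝ} {γ : ℝ → ℂ} (hγ : LipschitzWith 1 γ) {a b : ℝ} (ha : 0 ≤ a)
    (hab : a < b) (hb : b ≤ L) {v : ℂ} (hv : v ≠ 0) {j : ℕ} {Z : ℝ → ℂ} (hZ : Near Z)
    (hZE : ∀ t ∈ good γ a b v, Z t = γ t / v) {f : ℝ → ℂ}
    (hf : IntegrableOn f (Icc 0 L)) {t : ℝ} (ht : t ∈ good γ a b v)
    (htf : t ∈ far γ L a b j)
    (hball : ∀ η > 0, ∀ᶠ ε in 𝓝[>] (0 : ℝ),
      ∫ y in Icc (t - ε) (t + ε), ‖gg γ a b v f y‖ ≤ ε * (2 * ‖gg γ a b v f t‖ + η))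
    {H : ℝ} (hH : 0 ≤ H) (hT : ∀ η > 0, ∀ᶠ ε in 𝓝[>] (0 : ℝ), ‖T Z ε (gg γ a b v f) t‖ ≤ H + η) :
    Filter.limsup (fun ε : ℝ => ‖CI γ L f ε t‖ₑ) (nhdsWithin (0 : ℝ) (Ioi 0)) ≤
      ENNReal.ofReal (((j : ℝ) + 1) * ∫ s in Icc 0 L, ‖f s‖)
      + 8 * (∫⁻ s in Icc a b, ‖gg γ a b v f s‖ₑ * mk (good γ a b v) s t)
      + 10 * ‖gg γ a b v f t‖ₑ + ENNReal.ofReal H := by
  have hv0 : 0 < ‖v‖ := norm_pos_iff.mpr hv
  apply ENNReal.le_of_forall_pos_le_add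
  intro η hη _
  set η' : ℝ := (η : ℝ) / 6 with hη'
  have hη'0 : 0 < η' := by
    have : (0 : ℝ) < η := by exact_mod_cast hη
    positivity
  have e1 : ∀ᶠ ε in 𝓝[>] (0 : ℝ), ε * ‖v‖ < 1 / ((j : ℝ) + 1) := by
    have : Tendsto (fun ε : ℝ => ε * ‖v‖) (𝓝 0) (𝓝 (0 * ‖v‖)) := by
      apply Continuous.tendsto; fun_prop
    rw [zero_mul] at this
    exact (this.mono_left nhdsWithin_le_nhds).eventually (gt_mem_nhds (by positivity))
  have e2 : ∀ᶠ ε in 𝓝[>] (0 : ℝ), ∫ y in Icc (t - 2 * ε) (t + 2 * ε), ‖gg γ a b v f y‖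
      ≤ 2 * ε * (2 * ‖gg γ a b v f t‖ + η') := by
    have h2 : Tendsto (fun ε : ℝ => 2 * ε) (𝓝[>] 0) (𝓝[>] 0) := by
      apply tendsto_nhdsWithin_iff.mpr
      constructor
      · have : Tendsto (fun ε : ℝ => 2 * ε) (𝓝 0) (𝓝 (2 * 0)) := by
          apply Continuous.tendsto; fun_prop
        rw [mul_zero] at this
        exact this.mono_left nhdsWithin_le_nhds
      · filter_upwards [self_mem_nhdsWithin] with ε hε
        simp only [mem_Ioi] at hε ⊢; linarith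
    exact h2.eventually (hball η' hη'0)
  have e3 := hT η' hη'0
  have e4 : ∀ᶠ ε in 𝓝[>] (0 : ℝ), ‖CI γ L f (ε * ‖v‖) t‖ₑ ≤
      ENNReal.ofReal (((j : ℝ) + 1) * ∫ s in Icc 0 L, ‖f s‖)
      + 8 * (∫⁻ s in Icc a b, ‖gg γ a b v f s‖ₑ * mk (good γ a b v) s t)
      + 10 * ‖gg γ a b v f t‖ₑ + ENNReal.ofReal H + η := by
    filter_upwards [e1, e2, e3, self_mem_nhdsWithin] with ε h1 h2 h3 h4
    simp only [mem_Ioi] at h4
    have hp := piece_pt hγ ha hab.le hb hv hZ hZE hf ht htf h4 h1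
    refine hp.trans ?_
    have h5 : ENNReal.ofReal ((5 / 2) / ε * ∫ s in Icc (t - 2 * ε) (t + 2 * ε), ‖gg γ a b v f s‖)
        ≤ 10 * ‖gg γ a b v f t‖ₑ + ENNReal.ofReal (5 * η') := by
      calc ENNReal.ofReal ((5 / 2) / ε * ∫ s in Icc (t - 2 * ε) (t + 2 * ε), ‖gg γ a b v f s‖)
          ≤ ENNReal.ofReal (10 * ‖gg γ a b v f t‖ + 5 * η') := by
            apply ENNReal.ofReal_le_ofReal
            calc (5 / 2) / ε * ∫ s in Icc (t - 2 * ε) (t + 2 * ε), ‖gg γ a b v f s‖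
                ≤ (5 / 2) / ε * (2 * ε * (2 * ‖gg γ a b v f t‖ + η')) := by gcongr
              _ = 10 * ‖gg γ a b v f t‖ + 5 * η' := by field_simp; ring
        _ = _ := by
            rw [ENNReal.ofReal_add (by positivity) (by positivity),
              ENNReal.ofReal_mul (by norm_num), ofReal_norm]
            norm_num
    have h6 : ‖T Z ε (gg γ a b v f) t‖ₑ ≤ ENNReal.ofReal H + ENNReal.ofReal η' := by
      rw [← ofReal_norm, ← ENNReal.ofReal_add hH hη'0.le]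
      exact ENNReal.ofReal_le_ofReal h3
    have h7 : ENNReal.ofReal (5 * η') + ENNReal.ofReal η' = η := by
      rw [← ENNReal.ofReal_add (by positivity) (by positivity)]
      have : 5 * η' + η' = (η : ℝ) := by rw [hη']; ring
      rw [this]; exact ENNReal.ofReal_coe_nnreal
    calc _ ≤ ENNReal.ofReal (((j : ℝ) + 1) * ∫ s in Icc 0 L, ‖f s‖)
      + 8 * (∫⁻ s in Icc a b, ‖gg γ a b v f s‖ₑ * mk (good γ a b v) s t)
      + (10 * ‖gg γ a b v f t‖ₑ + ENNReal.ofReal (5 * η'))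
      + (ENNReal.ofReal H + ENNReal.ofReal η') := by gcongr
      _ = _ := by rw [← h7]; ring
  have e5 : ∀ᶠ ε in 𝓝[>] (0 : ℝ), ‖CI γ L f ε t‖ₑ ≤
      ENNReal.ofReal (((j : ℝ) + 1) * ∫ s in Icc 0 L, ‖f s‖)
      + 8 * (∫⁻ s in Icc a b, ‖gg γ a b v f s‖ₑ * mk (good γ a b v) s t)
      + 10 * ‖gg γ a b v f t‖ₑ + ENNReal.ofReal H + η := by
    have h2 : Tendsto (fun ε : ℝ => ε / ‖v‖) (𝓝[>] 0) (𝓝[>] 0) := by
      apply tendsto_nhdsWithin_iff.mpr
      constructor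
      · have : Tendsto (fun ε : ℝ => ε / ‖v‖) (𝓝 0) (𝓝 (0 / ‖v‖)) := by
          apply Continuous.tendsto; fun_prop
        rw [zero_div] at this
        exact this.mono_left nhdsWithin_le_nhds
      · filter_upwards [self_mem_nhdsWithin] with ε hε
        simp only [mem_Ioi] at hε ⊢; positivity
    filter_upwards [h2.eventually e4] with ε h
    rwa [div_mul_cancel₀ _ hv0.ne'] at h
  exact limsup_le_of_le (by isBoundedDefault) e5

theorem piece {L : ℝ} (hL : 0 < L) {γ : ℝ → ℂ} (hγ : LipschitzWith 1 γ) {a b : ℝ} (ha : 0 ≤ a)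
    (hab : a < b) (hb : b ≤ L) {v : ℂ} (hv : v ≠ 0) (j : ℕ) :
    ∃ (S : ℕ → Set ℝ) (c : ℕ → ℝ≥0∞), (∀ i, MeasurableSet (S i)) ∧ (∀ i, c i < ⊤) ∧
      (∀ᵐ t, t ∈ good γ a b v ∩ far γ L a b j → ∃ i, t ∈ S i) ∧
      ∀ (i : ℕ) (f : ℝ → ℂ), MemLp f 2 (volume.restrict (Icc (0 : ℝ) L)) →
        ∫⁻ t in S i, (Filter.limsup (fun ε : ℝ => ‖CI γ L f ε t‖ₑ) (nhdsWithin (0 : ℝ) (Ioi 0))) ^ 2
          ≤ c i * ∫⁻ t in Icc (0 : ℝ) L, ‖f t‖ₑ ^ 2 := by
  have hv0 : 0 < ‖v‖ := norm_pos_iff.mpr hv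
  have hgc := good_closed hγ.continuous a b v
  have hfc := far_closed hγ.continuous L a b j
  set E := good γ a b v with hE
  have hEI : E ⊆ Icc a b := fun t ht => ht.1
  obtain ⟨Z, hZ, hZE⟩ := ext_near (eta := fun t => γ t / v) hEI (by
    intro t ht s hs
    have h1 := ht.2 s hs
    have h2 : γ s / v - γ t / v - ((s - t : ℝ) : ℂ) = (γ s - γ t - v * ((s - t : ℝ) : ℂ)) / v := by
      field_simp
    rw [h2, norm_div, div_le_iff₀ hv0]
    linarith)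
  obtain ⟨F, c, hFm, hFI, hc0, hFcov, hF⟩ := near_main hZ hab.le
  let mm : ℝ → ℝ≥0∞ := fun t => ∫⁻ s in Icc a b, mk E s t
  have hmm : Measurable mm := by
    have := (mk_meas E)
    exact Measurable.lintegral_prod_left' this
  have hmmfin : ∀ᵐ t ∂(volume.restrict E), mm t < ⊤ := by
    apply ae_lt_top hmm
    exact (lt_of_le_of_lt (marc hgc hEI hab.le) ENNReal.ofReal_lt_top).ne
  let C : ℝ≥0∞ := ENNReal.ofReal (‖v‖⁻¹ ^ 2)
  refine ⟨fun n => E ∩ far γ L a b j ∩ F n.unpair.1 ∩ {t | mm t ≤ (n.unpair.2 : ℝ≥0∞)},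
    fun n => 4 * (ENNReal.ofReal (((j : ℝ) + 1) ^ 2) * ENNReal.ofReal L * ENNReal.ofReal L
      + 64 * (2 * (n.unpair.2 : ℝ≥0∞) * C) + 100 * C + ENNReal.ofReal (c n.unpair.1) * C),
    ?_, ?_, ?_, ?_⟩
  · intro n
    exact ((hgc.measurableSet.inter hfc.measurableSet).inter (hFm _)).inter
      (measurableSet_le hmm measurable_const)
  · intro n
    have hC : C < ⊤ := ENNReal.ofReal_lt_top
    have hn : ((n.unpair.2 : ℕ) : ℝ≥0∞) < ⊤ := ENNReal.natCast_lt_top _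
    apply ENNReal.mul_lt_top (by norm_num)
    simp only [ENNReal.add_lt_top]
    refine ⟨⟨⟨?_, ?_⟩, ?_⟩, ?_⟩
    · exact ENNReal.mul_lt_top (ENNReal.mul_lt_top ENNReal.ofReal_lt_top ENNReal.ofReal_lt_top)
        ENNReal.ofReal_lt_top
    · exact ENNReal.mul_lt_top (by norm_num) (ENNReal.mul_lt_top (ENNReal.mul_lt_top (by norm_num) hn) hC)
    · exact ENNReal.mul_lt_top (by norm_num) hC
    · exact ENNReal.mul_lt_top ENNReal.ofReal_lt_top hC
  · rw [ae_restrict_iff' hgc.measurableSet] at hmmfin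
    rw [ae_restrict_iff' measurableSet_Icc] at hFcov
    filter_upwards [hmmfin, hFcov] with t h1 h2 h3
    obtain ⟨l, hl⟩ := h2 (hEI h3.1)
    obtain ⟨i, hi⟩ := ENNReal.exists_nat_gt (h1 h3.1).ne
    refine ⟨Nat.pair l i, ?_⟩
    simp only [Nat.unpair_pair]
    exact ⟨⟨h3, hl⟩, hi.le⟩
  · intro n f hf
    set l := n.unpair.1 with hl
    set i := n.unpair.2 with hi
    set S : Set ℝ := E ∩ far γ L a b j ∩ F l ∩ {t | mm t ≤ (i : ℝ≥0∞)} with hS
    have hSm : MeasurableSet S := ((hgc.measurableSet.inter hfc.measurableSet).inter (hFm _)).inter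
      (measurableSet_le hmm measurable_const)
    have hSE : S ⊆ E := fun t ht => ht.1.1.1
    have hSF : S ⊆ F l := fun t ht => ht.1.2
    have hSL : S ⊆ Icc 0 L := fun t ht => Icc_subset_Icc ha hb (hEI (hSE ht))
    have hfi : IntegrableOn f (Icc 0 L) := by
      have : MemLp f 1 (volume.restrict (Icc (0 : ℝ) L)) := hf.mono_exponent (by norm_num)
      exact memLp_one_iff_integrable.mp this
    set g := gg γ a b v f with hg
    have hgL := gg_memLp hγ ha hb (v := v) hf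
    rw [← hg] at hgL
    have hgs : ∀ x, x ∉ Icc a b → g x = 0 := gg_supp f
    have hgi : Integrable g := memLp_intble hgL hgs
    obtain ⟨H, hHm, hH0, hHb, hHT⟩ := hF l g hgL hgs
    have hball := leb_ball hgi.norm (fun x => norm_nonneg _)
    set Q : ℝ≥0∞ := ∫⁻ t in Icc (0 : ℝ) L, ‖f t‖ₑ ^ 2 with hQ
    have hgQ : ∫⁻ s, ‖g s‖ₑ ^ 2 ≤ C * Q := gg_lint hγ ha hb f
    set A0 : ℝ≥0∞ := ENNReal.ofReal (((j : ℝ) + 1) * ∫ s in Icc 0 L, ‖f s‖) with hA0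
    set R : ℝ → ℝ≥0∞ := fun t => ∫⁻ s in Icc a b, ‖g s‖ₑ * mk E s t with hR
    have hptw : ∀ᵐ t ∂(volume.restrict S),
        Filter.limsup (fun ε : ℝ => ‖CI γ L f ε t‖ₑ) (nhdsWithin (0 : ℝ) (Ioi 0)) ≤
          A0 + 8 * R t + 10 * ‖g t‖ₑ + ENNReal.ofReal (H t) := by
      have h1 : ∀ᵐ t ∂(volume.restrict S), ∀ η > 0, ∀ᶠ ε in 𝓝[>] (0 : ℝ), ‖T Z ε g t‖ ≤ H t + η :=
        ae_mono (Measure.restrict_mono hSF le_rfl) hHT
      filter_upwards [h1, ae_restrict_of_ae hball, ae_restrict_mem hSm] with t h2 h3 h4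
      exact piece_ae hγ ha hab hb hv hZ hZE hfi (hSE h4) h4.1.1.2 h3 (hH0 t) h2
    have hA0' : A0 ^ 2 ≤ ENNReal.ofReal (((j : ℝ) + 1) ^ 2) * (ENNReal.ofReal L * Q) := by
      have h1 : A0 = ENNReal.ofReal ((j : ℝ) + 1) * ∫⁻ s in Icc (0 : ℝ) L, ‖f s‖ₑ := by
        rw [hA0, ENNReal.ofReal_mul (by positivity), ofReal_integral_norm_eq_lintegral_enorm hfi]
      rw [h1, mul_pow, ENNReal.ofReal_pow (by positivity)]
      gcongr
      exact cs_L hf.1.enorm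
    have hvS : volume S ≤ ENNReal.ofReal L := by
      calc volume S ≤ volume (Icc (0 : ℝ) L) := measure_mono hSL
        _ = ENNReal.ofReal L := by simp
    have hgm : AEMeasurable (fun t => ‖g t‖ₑ) volume := hgL.1.enorm
    have hR2 : ∫⁻ t in S, R t ^ 2 ≤ 2 * (i : ℝ≥0∞) * (C * Q) := by
      have h1 := marc2 hgc (w := fun s => ‖g s‖ₑ) (a := a) (b := b) hgm.restrict (j := (i : ℝ≥0∞)) hSm hSE
        (fun t ht => ht.2)
      refine h1.trans ?_
      gcongr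
      exact (setLIntegral_le_lintegral _ _).trans hgQ
    have hH2 : ∫⁻ t in S, ENNReal.ofReal (H t) ^ 2 ≤ ENNReal.ofReal (c l) * (C * Q) := by
      calc ∫⁻ t in S, ENNReal.ofReal (H t) ^ 2 ≤ ∫⁻ t in F l, ENNReal.ofReal (H t) ^ 2 :=
            lintegral_mono_set hSF
        _ ≤ ENNReal.ofReal (c l) * ∫⁻ x, ‖g x‖ₑ ^ 2 := hHb
        _ ≤ _ := by gcongr
    have hg2 : ∫⁻ t in S, ‖g t‖ₑ ^ 2 ≤ C * Q := (setLIntegral_le_lintegral _ _).trans hgQ
    have hRm : AEMeasurable R (volume.restrict S) := by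
      have h1 : AEMeasurable (fun p : ℝ × ℝ => ‖g p.2‖ₑ * mk E p.2 p.1)
          ((volume.restrict S).prod (volume.restrict (Icc a b))) := by
        have q1 : AEMeasurable (fun p : ℝ × ℝ => ‖g p.2‖ₑ)
            ((volume.restrict S).prod (volume.restrict (Icc a b))) :=
          (hgm.restrict (s := Icc a b)).comp_snd
        have q2 : AEMeasurable (fun p : ℝ × ℝ => mk E p.2 p.1)
            ((volume.restrict S).prod (volume.restrict (Icc a b))) :=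
          ((mk_meas E).comp (measurable_snd.prodMk measurable_fst)).aemeasurable
        exact q1.mul q2
      exact h1.lintegral_prod_right'
    have hHm' : AEMeasurable (fun t => ENNReal.ofReal (H t)) (volume.restrict S) :=
      (hHm.mono_measure (Measure.restrict_mono hSF le_rfl)).ennreal_ofReal
    calc ∫⁻ t in S, (Filter.limsup (fun ε : ℝ => ‖CI γ L f ε t‖ₑ) (nhdsWithin (0 : ℝ) (Ioi 0))) ^ 2
        ≤ ∫⁻ t in S, 4 * (A0 ^ 2 + (8 * R t) ^ 2 + (10 * ‖g t‖ₑ) ^ 2 + ENNReal.ofReal (H t) ^ 2) := by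
          apply lintegral_mono_ae
          filter_upwards [hptw] with t ht
          exact (pow_le_pow_left' ht 2).trans (sum4_sq _ _ _ _)
      _ = 4 * (A0 ^ 2 * volume S + 64 * (∫⁻ t in S, R t ^ 2) + 100 * (∫⁻ t in S, ‖g t‖ₑ ^ 2)
            + ∫⁻ t in S, ENNReal.ofReal (H t) ^ 2) := by
          rw [lintegral_const_mul' _ _ (by norm_num)]
          congr 1
          have m1 : AEMeasurable (fun t => (8 * R t) ^ 2) (volume.restrict S) :=
            (hRm.const_mul 8).pow_const 2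
          have m2 : AEMeasurable (fun t => (10 * ‖g t‖ₑ) ^ 2) (volume.restrict S) :=
            ((hgm.restrict).const_mul 10).pow_const 2
          have m3 : AEMeasurable (fun t => ENNReal.ofReal (H t) ^ 2) (volume.restrict S) :=
            hHm'.pow_const 2
          rw [lintegral_add_right' _ m3, lintegral_add_right' _ m2, lintegral_add_right' _ m1]
          congr 1
          congr 1
          · congr 1
            · simp
            · simp_rw [mul_pow]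
              rw [lintegral_const_mul' _ _ (by norm_num)]
              norm_num
          · simp_rw [mul_pow]
            rw [lintegral_const_mul' _ _ (by norm_num)]
            norm_num
      _ ≤ 4 * (ENNReal.ofReal (((j : ℝ) + 1) ^ 2) * (ENNReal.ofReal L * Q) * ENNReal.ofReal L
            + 64 * (2 * (i : ℝ≥0∞) * (C * Q)) + 100 * (C * Q) + ENNReal.ofReal (c l) * (C * Q)) := by
          gcongr
      _ = _ := by ring

end Pool.Agent.H799R2.CI
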