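import Pool.Agent.H799R2.CI.Meas

set_option autoImplicit false

open MeasureTheory Set Filter
open scoped ENNReal NNReal ComplexConjugate Topology

namespace Pool.Agent.H799R2.CI

private theorem symid_lower {Z : ℝ → ℂ} (hZ : Near Z) (x y : ℝ) :
    (1 / 2) * |y - x| ≤ ‖Z y - Z x‖ := by
  have h := hZ y x
  have h2 : ‖((y - x : ℝ) : ℂ)‖ = |y - x| := by rw [Complex.norm_real, Real.norm_eq_abs]
  have h3 : ‖((y - x : ℝ) : ℂ)‖ ≤ ‖Z y - Z x‖ + ‖Z y - Z x - ((y - x : ℝ) : ℂ)‖ := by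
    calc ‖((y - x : ℝ) : ℂ)‖ = ‖(Z y - Z x) - (Z y - Z x - ((y - x : ℝ) : ℂ))‖ := by
          congr 1; ring
      _ ≤ _ := norm_sub_le _ _
  linarith

private theorem symid_kt_bound {Z : ℝ → ℂ} (hZ : Near Z) {ε : ℝ} (hε : 0 < ε) (x y : ℝ) :
    ‖kt Z ε x y‖ ≤ 2 / ε := by
  unfold kt
  split_ifs with h
  · unfold k
    rw [norm_inv]
    have h1 := symid_lower hZ x y
    have h2 : ε / 2 ≤ ‖Z y - Z x‖ := by linarith
    calc ‖Z y - Z x‖⁻¹ ≤ (ε / 2)⁻¹ := by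
          apply inv_anti₀ (by positivity) h2
      _ = 2 / ε := by rw [inv_div]
  · simp; positivity

/-! ### abstract version -/

theorem symid_int {μ : Measure ℝ} [IsFiniteMeasure μ] {F : ℝ → ℂ} (hF : Integrable F μ)
    {h : ℝ × ℝ × ℝ → ℂ} (hm : Measurable h) {M : ℝ} (hM : ∀ p, ‖h p‖ ≤ M) :
    Integrable (fun p : ℝ × ℝ × ℝ => (F p.2.1 * F p.2.2) * h p) (μ.prod (μ.prod μ)) := by
  have h1 : Integrable (fun q : ℝ × ℝ => F q.1 * F q.2) (μ.prod μ) := hF.mul_prod hF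
  have h2 : Integrable (fun p : ℝ × ℝ × ℝ => (1 : ℂ) * (F p.2.1 * F p.2.2))
      (μ.prod (μ.prod μ)) := (integrable_const (1 : ℂ)).mul_prod h1
  simp only [one_mul] at h2
  exact h2.mul_bdd hm.aestronglyMeasurable (Eventually.of_forall hM)

theorem symid_fub {μ : Measure ℝ} [IsFiniteMeasure μ] {F : ℝ → ℂ} (hF : Integrable F μ)
    {h : ℝ × ℝ × ℝ → ℂ} (hm : Measurable h) {M : ℝ} (hM : ∀ p, ‖h p‖ ≤ M) :
    ∫ p : ℝ × ℝ × ℝ, (F p.2.1 * F p.2.2) * h p ∂(μ.prod (μ.prod μ)) =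
      ∫ x, ∫ y, ∫ z, (F y * F z) * h (x, y, z) ∂μ ∂μ ∂μ := by
  rw [integral_prod _ (symid_int hF hm hM)]
  refine integral_congr_ae (Eventually.of_forall fun x => ?_)
  have h1 : Integrable (fun q : ℝ × ℝ => F q.1 * F q.2) (μ.prod μ) := hF.mul_prod hF
  have h2 : Integrable (fun q : ℝ × ℝ => (F q.1 * F q.2) * h (x, q)) (μ.prod μ) :=
    h1.mul_bdd (hm.comp measurable_prodMk_left).aestronglyMeasurable
      (Eventually.of_forall fun q => hM (x, q))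
  exact integral_prod _ h2

/-- the abstract symmetrisation identity. -/
theorem symid_abs {μ : Measure ℝ} [IsFiniteMeasure μ] {f : ℝ → ℝ}
    (hF : Integrable (fun y => (f y : ℂ)) μ)
    {κ : ℝ → ℝ → ℂ} (hm : Measurable (fun p : ℝ × ℝ => κ p.1 p.2)) {M : ℝ}
    (hM : ∀ x y, ‖κ x y‖ ≤ M) {A O : ℝ → ℂ} (hA : ∀ x, A x = ∫ y, (f y : ℂ) * κ x y ∂μ)
    (hO : ∀ x, O x = ∫ y, κ x y ∂μ) (hAm : Measurable A) {MA : ℝ} (hMA : ∀ x, ‖A x‖ ≤ MA) :
    ((2 * (∫ x, ‖A x‖ ^ 2 ∂μ) + 4 * (∫ x, f x * (O x * conj (A x)).re ∂μ) : ℝ) : ℂ)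
      = ∫ x, ∫ y, ∫ z, ((f y : ℂ) * (f z : ℂ)) *
        (κ x y * conj (κ x z) + κ x z * conj (κ x y)
    + κ y x * conj (κ y z) + κ y z * conj (κ y x)
    + κ z x * conj (κ z y) + κ z y * conj (κ z x)) ∂μ ∂μ ∂μ := by
  have hM0 : 0 ≤ M := (norm_nonneg _).trans (hM 0 0)
  -- the six kernels
  have mk : ∀ {u v : ℝ × ℝ × ℝ → ℝ}, Measurable u → Measurable v →
      Measurable (fun p => κ (u p) (v p)) := fun hu hv => hm.comp (hu.prodMk hv)
  have mx : Measurable (fun p : ℝ × ℝ × ℝ => p.1) := measurable_fst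
  have my : Measurable (fun p : ℝ × ℝ × ℝ => p.2.1) := measurable_fst.comp measurable_snd
  have mz : Measurable (fun p : ℝ × ℝ × ℝ => p.2.2) := measurable_snd.comp measurable_snd
  have bd : ∀ u v u' v' : ℝ, ‖κ u v * conj (κ u' v')‖ ≤ M * M := by
    intro u v u' v'
    rw [norm_mul, RCLike.norm_conj]
    exact mul_le_mul (hM _ _) (hM _ _) (norm_nonneg _) hM0
  set h₁ : ℝ × ℝ × ℝ → ℂ := fun p => κ p.1 p.2.1 * conj (κ p.1 p.2.2) with hh₁
  set h₂ : ℝ × ℝ × ℝ → ℂ := fun p => κ p.1 p.2.2 * conj (κ p.1 p.2.1) with hh₂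
  set h₃ : ℝ × ℝ × ℝ → ℂ := fun p => κ p.2.1 p.1 * conj (κ p.2.1 p.2.2) with hh₃
  set h₄ : ℝ × ℝ × ℝ → ℂ := fun p => κ p.2.1 p.2.2 * conj (κ p.2.1 p.1) with hh₄
  set h₅ : ℝ × ℝ × ℝ → ℂ := fun p => κ p.2.2 p.1 * conj (κ p.2.2 p.2.1) with hh₅
  set h₆ : ℝ × ℝ × ℝ → ℂ := fun p => κ p.2.2 p.2.1 * conj (κ p.2.2 p.1) with hh₆
  have cm : Measurable (fun w : ℂ => conj w) := Complex.continuous_conj.measurable
  have m₁ : Measurable h₁ := (mk mx my).mul (cm.comp (mk mx mz))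
  have m₂ : Measurable h₂ := (mk mx mz).mul (cm.comp (mk mx my))
  have m₃ : Measurable h₃ := (mk my mx).mul (cm.comp (mk my mz))
  have m₄ : Measurable h₄ := (mk my mz).mul (cm.comp (mk my mx))
  have m₅ : Measurable h₅ := (mk mz mx).mul (cm.comp (mk mz my))
  have m₆ : Measurable h₆ := (mk mz my).mul (cm.comp (mk mz mx))
  have b₁ : ∀ p, ‖h₁ p‖ ≤ M * M := fun p => bd _ _ _ _
  have b₂ : ∀ p, ‖h₂ p‖ ≤ M * M := fun p => bd _ _ _ _
  have b₃ : ∀ p, ‖h₃ p‖ ≤ M * M := fun p => bd _ _ _ _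
  have b₄ : ∀ p, ‖h₄ p‖ ≤ M * M := fun p => bd _ _ _ _
  have b₅ : ∀ p, ‖h₅ p‖ ≤ M * M := fun p => bd _ _ _ _
  have b₆ : ∀ p, ‖h₆ p‖ ≤ M * M := fun p => bd _ _ _ _
  have hsum : ∫ x, ∫ y, ∫ z, ((f y : ℂ) * (f z : ℂ)) *
        (κ x y * conj (κ x z) + κ x z * conj (κ x y)
    + κ y x * conj (κ y z) + κ y z * conj (κ y x)
    + κ z x * conj (κ z y) + κ z y * conj (κ z x)) ∂μ ∂μ ∂μ =
    (∫ x, ∫ y, ∫ z, ((f y : ℂ) * (f z : ℂ)) * h₁ (x, y, z) ∂μ ∂μ ∂μ) +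
    (∫ x, ∫ y, ∫ z, ((f y : ℂ) * (f z : ℂ)) * h₂ (x, y, z) ∂μ ∂μ ∂μ) +
    (∫ x, ∫ y, ∫ z, ((f y : ℂ) * (f z : ℂ)) * h₃ (x, y, z) ∂μ ∂μ ∂μ) +
    (∫ x, ∫ y, ∫ z, ((f y : ℂ) * (f z : ℂ)) * h₄ (x, y, z) ∂μ ∂μ ∂μ) +
    (∫ x, ∫ y, ∫ z, ((f y : ℂ) * (f z : ℂ)) * h₅ (x, y, z) ∂μ ∂μ ∂μ) +
    (∫ x, ∫ y, ∫ z, ((f y : ℂ) * (f z : ℂ)) * h₆ (x, y, z) ∂μ ∂μ ∂μ) := by
    have hms : Measurable (fun p : ℝ × ℝ × ℝ => h₁ p + h₂ p + h₃ p + h₄ p + h₅ p + h₆ p) :=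
      ((((m₁.add m₂).add m₃).add m₄).add m₅).add m₆
    have hbs : ∀ p : ℝ × ℝ × ℝ, ‖h₁ p + h₂ p + h₃ p + h₄ p + h₅ p + h₆ p‖ ≤ 6 * (M * M) := by
      intro p
      have := norm_add_le (h₁ p + h₂ p + h₃ p + h₄ p + h₅ p) (h₆ p)
      have := norm_add_le (h₁ p + h₂ p + h₃ p + h₄ p) (h₅ p)
      have := norm_add_le (h₁ p + h₂ p + h₃ p) (h₄ p)
      have := norm_add_le (h₁ p + h₂ p) (h₃ p)
      have := norm_add_le (h₁ p) (h₂ p)
      linarith [b₁ p, b₂ p, b₃ p, b₄ p, b₅ p, b₆ p]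
    rw [← symid_fub hF m₁ b₁, ← symid_fub hF m₂ b₂, ← symid_fub hF m₃ b₃, ← symid_fub hF m₄ b₄,
      ← symid_fub hF m₅ b₅, ← symid_fub hF m₆ b₆]
    have i₁ := symid_int hF m₁ b₁
    have i₂ := symid_int hF m₂ b₂
    have i₃ := symid_int hF m₃ b₃
    have i₄ := symid_int hF m₄ b₄
    have i₅ := symid_int hF m₅ b₅
    have i₆ := symid_int hF m₆ b₆
    have j₂ : Integrable (fun p : ℝ × ℝ × ℝ => ((f p.2.1 : ℂ) * (f p.2.2 : ℂ)) * h₁ p +
      ((f p.2.1 : ℂ) * (f p.2.2 : ℂ)) * h₂ p) (μ.prod (μ.prod μ)) := i₁.add i₂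
    have j₃ : Integrable (fun p : ℝ × ℝ × ℝ => ((f p.2.1 : ℂ) * (f p.2.2 : ℂ)) * h₁ p +
      ((f p.2.1 : ℂ) * (f p.2.2 : ℂ)) * h₂ p + ((f p.2.1 : ℂ) * (f p.2.2 : ℂ)) * h₃ p)
      (μ.prod (μ.prod μ)) := j₂.add i₃
    have j₄ : Integrable (fun p : ℝ × ℝ × ℝ => ((f p.2.1 : ℂ) * (f p.2.2 : ℂ)) * h₁ p +
      ((f p.2.1 : ℂ) * (f p.2.2 : ℂ)) * h₂ p + ((f p.2.1 : ℂ) * (f p.2.2 : ℂ)) * h₃ p +
      ((f p.2.1 : ℂ) * (f p.2.2 : ℂ)) * h₄ p) (μ.prod (μ.prod μ)) := j₃.add i₄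
    have j₅ : Integrable (fun p : ℝ × ℝ × ℝ => ((f p.2.1 : ℂ) * (f p.2.2 : ℂ)) * h₁ p +
      ((f p.2.1 : ℂ) * (f p.2.2 : ℂ)) * h₂ p + ((f p.2.1 : ℂ) * (f p.2.2 : ℂ)) * h₃ p +
      ((f p.2.1 : ℂ) * (f p.2.2 : ℂ)) * h₄ p + ((f p.2.1 : ℂ) * (f p.2.2 : ℂ)) * h₅ p)
      (μ.prod (μ.prod μ)) := j₄.add i₅
    rw [← integral_add i₁ i₂, ← integral_add j₂ i₃, ← integral_add j₃ i₄,
      ← integral_add j₄ i₅, ← integral_add j₅ i₆]
    have := symid_fub hF hms hbs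
    rw [← this]
    refine integral_congr_ae (Eventually.of_forall fun p => ?_)
    simp only
    ring
  rw [hsum]
  -- conj of A
  have hAc : ∀ x, conj (A x) = ∫ y, (f y : ℂ) * conj (κ x y) ∂μ := by
    intro x
    rw [hA, ← integral_conj]
    refine integral_congr_ae (Eventually.of_forall fun y => ?_)
    simp
  have hOc : ∀ x, conj (O x) = ∫ y, conj (κ x y) ∂μ := by
    intro x
    rw [hO, ← integral_conj]
  -- first and second terms
  have t₁ : ∫ x, ∫ y, ∫ z, ((f y : ℂ) * (f z : ℂ)) * h₁ (x, y, z) ∂μ ∂μ ∂μ =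
      ∫ x, A x * conj (A x) ∂μ := by
    refine integral_congr_ae (Eventually.of_forall fun x => ?_)
    have : ∀ y, ∫ z, ((f y : ℂ) * (f z : ℂ)) * h₁ (x, y, z) ∂μ =
        ((f y : ℂ) * κ x y) * conj (A x) := by
      intro y
      rw [hAc, ← integral_const_mul]
      refine integral_congr_ae (Eventually.of_forall fun z => ?_)
      simp only [hh₁]; ring
    simp only [this]
    rw [integral_mul_const, ← hA]
  have t₂ : ∫ x, ∫ y, ∫ z, ((f y : ℂ) * (f z : ℂ)) * h₂ (x, y, z) ∂μ ∂μ ∂μ =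
      ∫ x, A x * conj (A x) ∂μ := by
    refine integral_congr_ae (Eventually.of_forall fun x => ?_)
    have : ∀ y, ∫ z, ((f y : ℂ) * (f z : ℂ)) * h₂ (x, y, z) ∂μ =
        A x * ((f y : ℂ) * conj (κ x y)) := by
      intro y
      rw [hA, ← integral_mul_const]
      refine integral_congr_ae (Eventually.of_forall fun z => ?_)
      simp only [hh₂]; ring
    simp only [this]
    rw [integral_const_mul, ← hAc]
  -- the mixed kernel
  have hmsw : Measurable (fun p : ℝ × ℝ => κ p.2 p.1) := hm.comp measurable_swap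
  have hint : Integrable (fun p : ℝ × ℝ => (f p.2 : ℂ) * (κ p.2 p.1 * conj (A p.2)))
      (μ.prod μ) := by
    have h1 : Integrable (fun p : ℝ × ℝ => (1 : ℂ) * (f p.2 : ℂ)) (μ.prod μ) :=
      (integrable_const (1 : ℂ)).mul_prod hF
    simp only [one_mul] at h1
    refine h1.mul_bdd (c := M * MA)
      (hmsw.mul (cm.comp (hAm.comp measurable_snd))).aestronglyMeasurable
      (Eventually.of_forall fun p => ?_)
    rw [norm_mul, RCLike.norm_conj]
    exact mul_le_mul (hM _ _) (hMA _) (norm_nonneg _) hM0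
  have q : ∫ x, ∫ y, (f y : ℂ) * (κ y x * conj (A y)) ∂μ ∂μ =
      ∫ y, (f y : ℂ) * (O y * conj (A y)) ∂μ := by
    rw [integral_integral_swap hint]
    refine integral_congr_ae (Eventually.of_forall fun y => ?_)
    simp only
    rw [hO, integral_const_mul, integral_mul_const]
  have q' : ∫ x, ∫ y, (f y : ℂ) * (A y * conj (κ y x)) ∂μ ∂μ =
      ∫ y, (f y : ℂ) * (A y * conj (O y)) ∂μ := by
    have h1 := congrArg (fun w : ℂ => conj w) q
    simp only [← integral_conj] at h1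
    simp only [map_mul, Complex.conj_ofReal, Complex.conj_conj] at h1
    have e1 : ∀ x y, (f y : ℂ) * (A y * conj (κ y x)) = (f y : ℂ) * (conj (κ y x) * A y) := by
      intro x y; ring
    have e2 : ∀ y, (f y : ℂ) * (A y * conj (O y)) = (f y : ℂ) * (conj (O y) * A y) := by
      intro y; ring
    simp only [e1, e2]
    exact h1
  have t₃ : ∫ x, ∫ y, ∫ z, ((f y : ℂ) * (f z : ℂ)) * h₃ (x, y, z) ∂μ ∂μ ∂μ =
      ∫ y, (f y : ℂ) * (O y * conj (A y)) ∂μ := by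
    rw [← q]
    refine integral_congr_ae (Eventually.of_forall fun x => ?_)
    refine integral_congr_ae (Eventually.of_forall fun y => ?_)
    simp only
    rw [hAc, ← integral_const_mul, ← integral_const_mul]
    refine integral_congr_ae (Eventually.of_forall fun z => ?_)
    simp only [hh₃]; ring
  have t₄ : ∫ x, ∫ y, ∫ z, ((f y : ℂ) * (f z : ℂ)) * h₄ (x, y, z) ∂μ ∂μ ∂μ =
      ∫ y, (f y : ℂ) * (A y * conj (O y)) ∂μ := by
    rw [← q']
    refine integral_congr_ae (Eventually.of_forall fun x => ?_)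
    refine integral_congr_ae (Eventually.of_forall fun y => ?_)
    simp only
    rw [hA, ← integral_mul_const, ← integral_const_mul]
    refine integral_congr_ae (Eventually.of_forall fun z => ?_)
    simp only [hh₄]; ring
  -- swap y and z
  have sw : ∀ {h : ℝ × ℝ × ℝ → ℂ} (_ : Measurable h) (_ : ∀ p, ‖h p‖ ≤ M * M) (x : ℝ),
      ∫ y, ∫ z, ((f y : ℂ) * (f z : ℂ)) * h (x, y, z) ∂μ ∂μ =
      ∫ z, ∫ y, ((f y : ℂ) * (f z : ℂ)) * h (x, y, z) ∂μ ∂μ := by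
    intro h hm' hb x
    refine integral_integral_swap ?_
    have h1 : Integrable (fun q : ℝ × ℝ => (f q.1 : ℂ) * (f q.2 : ℂ)) (μ.prod μ) :=
      hF.mul_prod hF
    exact h1.mul_bdd (hm'.comp measurable_prodMk_left).aestronglyMeasurable
      (Eventually.of_forall fun q => hb (x, q))
  have t₅ : ∫ x, ∫ y, ∫ z, ((f y : ℂ) * (f z : ℂ)) * h₅ (x, y, z) ∂μ ∂μ ∂μ =
      ∫ y, (f y : ℂ) * (O y * conj (A y)) ∂μ := by
    rw [← q]
    refine integral_congr_ae (Eventually.of_forall fun x => ?_)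
    simp only
    rw [sw m₅ b₅ x]
    refine integral_congr_ae (Eventually.of_forall fun z => ?_)
    simp only
    rw [hAc, ← integral_const_mul, ← integral_const_mul]
    refine integral_congr_ae (Eventually.of_forall fun y => ?_)
    simp only [hh₅]; ring
  have t₆ : ∫ x, ∫ y, ∫ z, ((f y : ℂ) * (f z : ℂ)) * h₆ (x, y, z) ∂μ ∂μ ∂μ =
      ∫ y, (f y : ℂ) * (A y * conj (O y)) ∂μ := by
    rw [← q']
    refine integral_congr_ae (Eventually.of_forall fun x => ?_)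
    simp only
    rw [sw m₆ b₆ x]
    refine integral_congr_ae (Eventually.of_forall fun z => ?_)
    simp only
    rw [hA, ← integral_mul_const, ← integral_const_mul]
    refine integral_congr_ae (Eventually.of_forall fun y => ?_)
    simp only [hh₆]; ring
  rw [t₁, t₂, t₃, t₄, t₅, t₆]
  -- real parts
  have hP : ∫ x, A x * conj (A x) ∂μ = ((∫ x, ‖A x‖ ^ 2 ∂μ : ℝ) : ℂ) := by
    rw [← integral_complex_ofReal]
    refine integral_congr_ae (Eventually.of_forall fun x => ?_)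
    simp only
    rw [Complex.mul_conj, Complex.normSq_eq_norm_sq]
  have hOm : Measurable O := by
    have : O = fun x => ∫ y, κ x y ∂μ := funext hO
    rw [this]
    exact (hm.stronglyMeasurable.integral_prod_right').measurable
  have hOb : ∀ x, ‖O x‖ ≤ M * μ.real univ := by
    intro x
    rw [hO]
    exact norm_integral_le_of_norm_le_const (Eventually.of_forall fun y => hM x y)
  have hi : Integrable (fun y => (f y : ℂ) * (O y * conj (A y))) μ := by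
    refine hF.mul_bdd (c := (M * μ.real univ) * MA) (hOm.mul (cm.comp hAm)).aestronglyMeasurable
      (Eventually.of_forall fun y => ?_)
    rw [norm_mul, RCLike.norm_conj]
    exact mul_le_mul (hOb _) (hMA _) (norm_nonneg _) ((norm_nonneg _).trans (hOb y))
  have hQc : ∫ y, (f y : ℂ) * (A y * conj (O y)) ∂μ =
      conj (∫ y, (f y : ℂ) * (O y * conj (A y)) ∂μ) := by
    rw [← integral_conj]
    refine integral_congr_ae (Eventually.of_forall fun y => ?_)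
    simp only [map_mul, Complex.conj_ofReal, Complex.conj_conj]
    ring
  have hre : (∫ y, (f y : ℂ) * (O y * conj (A y)) ∂μ).re =
      ∫ x, f x * (O x * conj (A x)).re ∂μ := by
    have h1 := integral_re hi
    simp only [RCLike.re_to_complex] at h1
    rw [← h1]
    refine integral_congr_ae (Eventually.of_forall fun y => ?_)
    simp only
    rw [Complex.re_ofReal_mul]
  rw [hP, hQc, ← hre]
  have hz : ∀ w : ℂ, w + conj w = ((2 * w.re : ℝ) : ℂ) := fun w => by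
    rw [Complex.add_conj]
  have := hz (∫ y, (f y : ℂ) * (O y * conj (A y)) ∂μ)
  push_cast at this ⊢
  linear_combination (-2 : ℂ) * this

theorem sym_id {Z : ℝ → ℂ} (hZ : Near Z) {ε : ℝ} (hε : 0 < ε) {a b : ℝ}
    {f : ℝ → ℝ} (hf : Integrable f) (hs : ∀ x, x ∉ Icc a b → f x = 0) :
    ((2 * (∫ x in Icc a b, ‖T Z ε (fun y => (f y : ℂ)) x‖ ^ 2)
      + 4 * (∫ x in Icc a b, f x *
          (T Z ε (one a b) x * conj (T Z ε (fun y => (f y : ℂ)) x)).re) : ℝ) : ℂ)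
      = ∫ x in Icc a b, ∫ y in Icc a b, ∫ z in Icc a b,
          ((f y : ℂ) * (f z : ℂ)) * kapt Z ε x y z := by
  have hF : Integrable (fun y => (f y : ℂ)) := hf.ofReal
  unfold kapt
  refine symid_abs (μ := volume.restrict (Icc a b)) (κ := kt Z ε) (M := 2 / ε)
    (A := T Z ε (fun y => (f y : ℂ))) (O := T Z ε (one a b))
    (MA := 2 / ε * ∫ y, ‖(f y : ℂ)‖) hF.restrict
    (kt_meas hZ ε) (fun x y => symid_kt_bound hZ hε x y) ?_ ?_ (T_meas hZ ε hF.aestronglyMeasurable)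
    (fun x => T_bound hZ hε hF x)
  · intro x
    unfold T
    refine (setIntegral_eq_integral_of_forall_compl_eq_zero fun y hy => ?_).symm
    simp [hs y hy]
  · intro x
    unfold T one
    rw [← integral_indicator measurableSet_Icc]
    refine integral_congr_ae (Eventually.of_forall fun y => ?_)
    by_cases hy : y ∈ Icc a b <;> simp [hy]

end Pool.Agent.H799R2.CI
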