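import Pool.Agent.H799R2.CI.Alg
import Pool.Agent.H799R2.CI.Err
import Pool.Agent.H799R2.CI.SymId
import Pool.Agent.H799R2.CI.Meas

set_option autoImplicit false
set_option maxHeartbeats 400000
set_option synthInstance.maxHeartbeats 400000

open MeasureTheory Set Filter
open scoped ENNReal NNReal ComplexConjugate Topology

namespace Pool.Agent.H799R2.CI

/-- the symmetric majorant kernel. -/
noncomputable def SS (Z : ℝ → ℂ) (ε x y z : ℝ) : ℝ≥0∞ :=
  ENNReal.ofReal (kap Z x y z) + ENNReal.ofReal (er ε x y z) + ENNReal.ofReal (er ε y x z)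
    + ENNReal.ofReal (er ε z x y)

theorem er_comm (ε c a b : ℝ) : er ε c a b = er ε c b a := by
  unfold er
  have h : (|a - b| ≤ ε ∧ ε < |c - a| ∧ ε < |c - b|) ↔ (|b - a| ≤ ε ∧ ε < |c - b| ∧ ε < |c - a|) := by
    rw [abs_sub_comm a b]; tauto
  by_cases h1 : |a - b| ≤ ε ∧ ε < |c - a| ∧ ε < |c - b|
  · rw [if_pos h1, if_pos (h.mp h1), mul_comm]
  · rw [if_neg h1, if_neg (fun h2 => h1 (h.mpr h2))]

theorem SS_symm (Z : ℝ → ℂ) (ε x y z : ℝ) : SS Z ε x y z = SS Z ε x z y := by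
  unfold SS
  rw [kap_swap23, er_comm ε x y z, er_comm ε y x z, er_comm ε z x y, er_comm ε y z x, er_comm ε z y x]
  rw [add_right_comm]

theorem SS_meas {Z : ℝ → ℂ} (hZ : Near Z) (ε : ℝ) :
    Measurable (fun p : ℝ × ℝ × ℝ => SS Z ε p.1 p.2.1 p.2.2) := by
  unfold SS
  have h1 := kap_meas hZ
  have h2 := er_meas ε
  have h3 : Measurable (fun p : ℝ × ℝ × ℝ => er ε p.2.1 p.1 p.2.2) := by
    have : Measurable (fun p : ℝ × ℝ × ℝ => ((p.2.1, p.1, p.2.2) : ℝ × ℝ × ℝ)) := by fun_prop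
    exact h2.comp this
  have h4 : Measurable (fun p : ℝ × ℝ × ℝ => er ε p.2.2 p.1 p.2.1) := by
    have : Measurable (fun p : ℝ × ℝ × ℝ => ((p.2.2, p.1, p.2.1) : ℝ × ℝ × ℝ)) := by fun_prop
    exact h2.comp this
  exact ((h1.ennreal_ofReal.add h2.ennreal_ofReal).add h3.ennreal_ofReal).add h4.ennreal_ofReal

theorem SS_int {Z : ℝ → ℂ} (hZ : Near Z) {ε : ℝ} (hε : 0 < ε) (a b y : ℝ) :
    ∫⁻ x in Icc a b, ∫⁻ z in Icc a b, SS Z ε x y z ≤ K Z a b y + 96 := by
  have m0 := er_meas ε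
  have hk := kap_meas hZ
  have mk1 : Measurable (fun p : ℝ × ℝ => ENNReal.ofReal (kap Z p.1 y p.2)) := by
    have : Measurable (fun p : ℝ × ℝ => ((p.1, y, p.2) : ℝ × ℝ × ℝ)) := by fun_prop
    exact (hk.comp this).ennreal_ofReal
  have m1 : Measurable (fun p : ℝ × ℝ => ENNReal.ofReal (er ε p.1 y p.2)) := by
    have : Measurable (fun p : ℝ × ℝ => ((p.1, y, p.2) : ℝ × ℝ × ℝ)) := by fun_prop
    exact (m0.comp this).ennreal_ofReal
  have m2 : Measurable (fun p : ℝ × ℝ => ENNReal.ofReal (er ε y p.1 p.2)) := by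
    have : Measurable (fun p : ℝ × ℝ => ((y, p.1, p.2) : ℝ × ℝ × ℝ)) := by fun_prop
    exact (m0.comp this).ennreal_ofReal
  have m3 : Measurable (fun p : ℝ × ℝ => ENNReal.ofReal (er ε p.2 p.1 y)) := by
    have : Measurable (fun p : ℝ × ℝ => ((p.2, p.1, y) : ℝ × ℝ × ℝ)) := by fun_prop
    exact (m0.comp this).ennreal_ofReal
  have hin : ∀ x, ∫⁻ z in Icc a b, SS Z ε x y z =
      (∫⁻ z in Icc a b, ENNReal.ofReal (kap Z x y z)) + (∫⁻ z in Icc a b, ENNReal.ofReal (er ε x y z))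
      + (∫⁻ z in Icc a b, ENNReal.ofReal (er ε y x z)) + ∫⁻ z in Icc a b, ENNReal.ofReal (er ε z x y) := by
    intro x
    unfold SS
    have hx : Measurable (fun z : ℝ => ((x, z) : ℝ × ℝ)) := by fun_prop
    have s2 : Measurable (fun z => ENNReal.ofReal (er ε x y z)) := by
      have h := m1.comp hx
      simp only [Function.comp_def] at h
      exact h
    have s3 : Measurable (fun z => ENNReal.ofReal (er ε y x z)) := by
      have h := m2.comp hx
      simp only [Function.comp_def] at h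
      exact h
    have s4 : Measurable (fun z => ENNReal.ofReal (er ε z x y)) := by
      have h := m3.comp hx
      simp only [Function.comp_def] at h
      exact h
    rw [lintegral_add_right _ s4, lintegral_add_right _ s3, lintegral_add_right _ s2]
  simp_rw [hin]
  have t2 : Measurable (fun x => ∫⁻ z in Icc a b, ENNReal.ofReal (er ε x y z)) :=
    Measurable.lintegral_prod_right' m1
  have t3 : Measurable (fun x => ∫⁻ z in Icc a b, ENNReal.ofReal (er ε y x z)) :=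
    Measurable.lintegral_prod_right' m2
  have t4 : Measurable (fun x => ∫⁻ z in Icc a b, ENNReal.ofReal (er ε z x y)) :=
    Measurable.lintegral_prod_right' m3
  rw [lintegral_add_right _ t4, lintegral_add_right _ t3, lintegral_add_right _ t2]
  have b1 : ∫⁻ x in Icc a b, ∫⁻ z in Icc a b, ENNReal.ofReal (er ε x y z) ≤ 32 :=
    ((setLIntegral_le_lintegral _ _).trans
      (lintegral_mono fun x => setLIntegral_le_lintegral _ _)).trans (er_int2 hε y)
  have b2 : ∫⁻ x in Icc a b, ∫⁻ z in Icc a b, ENNReal.ofReal (er ε y x z) ≤ 32 :=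
    ((setLIntegral_le_lintegral _ _).trans
      (lintegral_mono fun x => setLIntegral_le_lintegral _ _)).trans (er_int1 hε y)
  have b3 : ∫⁻ x in Icc a b, ∫⁻ z in Icc a b, ENNReal.ofReal (er ε z x y) ≤ 32 :=
    ((setLIntegral_le_lintegral _ _).trans
      (lintegral_mono fun x => setLIntegral_le_lintegral _ _)).trans (er_int3 hε y)
  have e96 : (96 : ℝ≥0∞) = 32 + 32 + 32 := by norm_num
  rw [e96]
  unfold K
  calc _ ≤ (∫⁻ x in Icc a b, ∫⁻ z in Icc a b, ENNReal.ofReal (kap Z x y z)) + 32 + 32 + 32 := by gcongr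
    _ = _ := by ring

theorem sym_ineq {Z : ℝ → ℂ} (hZ : Near Z) {ε : ℝ} (hε : 0 < ε) {a b : ℝ}
    {f : ℝ → ℝ} (hf : MemLp f 2 volume) (hs : ∀ x, x ∉ Icc a b → f x = 0) :
    ENNReal.ofReal |2 * (∫ x in Icc a b, ‖T Z ε (fun y => (f y : ℂ)) x‖ ^ 2)
      + 4 * (∫ x in Icc a b, f x *
          (T Z ε (one a b) x * conj (T Z ε (fun y => (f y : ℂ)) x)).re)|
      ≤ ∫⁻ y in Icc a b, ENNReal.ofReal (f y ^ 2) * (K Z a b y + 96) := by
  have hfc : MemLp (fun y => (f y : ℂ)) 2 volume := hf.ofReal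
  have hfi : Integrable f := by
    have := memLp_intble (a := a) (b := b) hfc (fun x hx => by simp [hs x hx])
    have h2 := this.re
    simpa using h2
  have hid := sym_id hZ hε hfi hs
  set r : ℝ := 2 * (∫ x in Icc a b, ‖T Z ε (fun y => (f y : ℂ)) x‖ ^ 2)
      + 4 * (∫ x in Icc a b, f x *
          (T Z ε (one a b) x * conj (T Z ε (fun y => (f y : ℂ)) x)).re) with hr
  have h1 : ENNReal.ofReal |r| = ‖(r : ℂ)‖ₑ := by
    rw [← ofReal_norm, Complex.norm_real, Real.norm_eq_abs]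
  rw [h1, hid]
  set μ : Measure ℝ := volume.restrict (Icc a b) with hμ
  set F : ℝ → ℝ≥0∞ := fun y => ENNReal.ofReal (f y ^ 2) with hF
  have hFm : AEMeasurable F μ := (hf.1.aemeasurable.pow_const 2).ennreal_ofReal.restrict
  have hpt : ∀ x y z, ‖((f y : ℂ) * (f z : ℂ)) * kapt Z ε x y z‖ₑ * 2 ≤ (F y + F z) * SS Z ε x y z := by
    intro x y z
    have hS : ‖kapt Z ε x y z‖ₑ ≤ SS Z ε x y z := by
      unfold SS
      rw [← ofReal_norm, ← ENNReal.ofReal_add (kap_nonneg _ _ _ _) (er_nonneg _ _ _ _),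
        ← ENNReal.ofReal_add (add_nonneg (kap_nonneg _ _ _ _) (er_nonneg _ _ _ _)) (er_nonneg _ _ _ _),
        ← ENNReal.ofReal_add (add_nonneg (add_nonneg (kap_nonneg _ _ _ _) (er_nonneg _ _ _ _))
          (er_nonneg _ _ _ _)) (er_nonneg _ _ _ _)]
      exact ENNReal.ofReal_le_ofReal (kapt_le hZ hε x y z)
    have hff : ‖(f y : ℂ) * (f z : ℂ)‖ₑ * 2 ≤ F y + F z := by
      rw [← ofReal_norm, norm_mul, Complex.norm_real, Complex.norm_real, Real.norm_eq_abs,
        Real.norm_eq_abs, hF]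
      simp only
      have h2 : (2 : ℝ≥0∞) = ENNReal.ofReal 2 := by norm_num
      rw [h2, ← ENNReal.ofReal_mul (by positivity), ← ENNReal.ofReal_add (by positivity) (by positivity)]
      apply ENNReal.ofReal_le_ofReal
      nlinarith [sq_nonneg (|f y| - |f z|), sq_abs (f y), sq_abs (f z)]
    rw [enorm_mul]
    calc ‖(f y : ℂ) * (f z : ℂ)‖ₑ * ‖kapt Z ε x y z‖ₑ * 2
        = (‖(f y : ℂ) * (f z : ℂ)‖ₑ * 2) * ‖kapt Z ε x y z‖ₑ := by ring
      _ ≤ _ := by gcongr
  have hSm := SS_meas hZ ε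
  -- the basic triple integral
  set J : ℝ≥0∞ := ∫⁻ x, ∫⁻ y, ∫⁻ z, F y * SS Z ε x y z ∂μ ∂μ ∂μ with hJ
  have hJ' : ∀ x, ∫⁻ y, ∫⁻ z, F z * SS Z ε x y z ∂μ ∂μ = ∫⁻ y, ∫⁻ z, F y * SS Z ε x y z ∂μ ∂μ := by
    intro x
    have hm : AEMeasurable (fun p : ℝ × ℝ => F p.2 * SS Z ε x p.1 p.2) (μ.prod μ) := by
      refine AEMeasurable.mul (hFm.comp_snd) ?_
      have : Measurable (fun p : ℝ × ℝ => ((x, p.1, p.2) : ℝ × ℝ × ℝ)) := by fun_prop
      exact (hSm.comp this).aemeasurable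
    rw [lintegral_lintegral_swap hm]
    apply lintegral_congr
    intro y
    apply lintegral_congr
    intro z
    rw [SS_symm]
  have hmain : ‖∫ x, ∫ y, ∫ z, ((f y : ℂ) * (f z : ℂ)) * kapt Z ε x y z ∂μ ∂μ ∂μ‖ₑ * 2 ≤ 2 * J := by
    calc ‖∫ x, ∫ y, ∫ z, ((f y : ℂ) * (f z : ℂ)) * kapt Z ε x y z ∂μ ∂μ ∂μ‖ₑ * 2
        ≤ (∫⁻ x, ∫⁻ y, ∫⁻ z, ‖((f y : ℂ) * (f z : ℂ)) * kapt Z ε x y z‖ₑ ∂μ ∂μ ∂μ) * 2 := by
          gcongr
          refine (enorm_integral_le_lintegral_enorm _).trans ?_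
          apply lintegral_mono; intro x
          refine (enorm_integral_le_lintegral_enorm _).trans ?_
          apply lintegral_mono; intro y
          exact enorm_integral_le_lintegral_enorm _
      _ = ∫⁻ x, ∫⁻ y, ∫⁻ z, ‖((f y : ℂ) * (f z : ℂ)) * kapt Z ε x y z‖ₑ * 2 ∂μ ∂μ ∂μ := by
          rw [← lintegral_mul_const' _ _ (by norm_num)]
          apply lintegral_congr; intro x
          rw [← lintegral_mul_const' _ _ (by norm_num)]
          apply lintegral_congr; intro y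
          rw [← lintegral_mul_const' _ _ (by norm_num)]
      _ ≤ ∫⁻ x, ∫⁻ y, ∫⁻ z, (F y + F z) * SS Z ε x y z ∂μ ∂μ ∂μ := by
          apply lintegral_mono; intro x
          apply lintegral_mono; intro y
          apply lintegral_mono; intro z
          exact hpt x y z
      _ = ∫⁻ x, ((∫⁻ y, ∫⁻ z, F y * SS Z ε x y z ∂μ ∂μ) + ∫⁻ y, ∫⁻ z, F z * SS Z ε x y z ∂μ ∂μ) ∂μ := by
          apply lintegral_congr; intro x
          have hy : ∀ y, ∫⁻ z, (F y + F z) * SS Z ε x y z ∂μ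
              = (∫⁻ z, F y * SS Z ε x y z ∂μ) + ∫⁻ z, F z * SS Z ε x y z ∂μ := by
            intro y
            simp_rw [add_mul]
            have : Measurable (fun z => F y * SS Z ε x y z) := by
              have h3 : Measurable (fun z : ℝ => ((x, y, z) : ℝ × ℝ × ℝ)) := by fun_prop
              have h := hSm.comp h3
              simp only [Function.comp_def] at h
              exact h.const_mul _
            rw [lintegral_add_left this]
          simp_rw [hy]
          have hm : AEMeasurable (fun p : ℝ × ℝ => F p.1 * SS Z ε x p.1 p.2) (μ.prod μ) := by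
            refine AEMeasurable.mul (hFm.comp_fst) ?_
            have : Measurable (fun p : ℝ × ℝ => ((x, p.1, p.2) : ℝ × ℝ × ℝ)) := by fun_prop
            exact (hSm.comp this).aemeasurable
          rw [lintegral_add_left' hm.lintegral_prod_right']
      _ = ∫⁻ x, 2 * (∫⁻ y, ∫⁻ z, F y * SS Z ε x y z ∂μ ∂μ) ∂μ := by
          apply lintegral_congr; intro x
          rw [hJ' x, two_mul]
      _ = 2 * J := by rw [lintegral_const_mul' _ _ (by norm_num)]
  have hJle : J ≤ ∫⁻ y, F y * (K Z a b y + 96) ∂μ := by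
    have hpull : ∀ x y, ∫⁻ z, F y * SS Z ε x y z ∂μ = F y * ∫⁻ z, SS Z ε x y z ∂μ := by
      intro x y
      rw [lintegral_const_mul' _ _ (by simp [hF])]
    rw [hJ]
    simp_rw [hpull]
    have hm2 : Measurable (fun p : ℝ × ℝ => ∫⁻ z, SS Z ε p.1 p.2 z ∂μ) := by
      have h3 : Measurable (fun q : (ℝ × ℝ) × ℝ => SS Z ε q.1.1 q.1.2 q.2) := by
        have h0 : Measurable (fun q : (ℝ × ℝ) × ℝ => ((q.1.1, q.1.2, q.2) : ℝ × ℝ × ℝ)) := by fun_prop
        have h := hSm.comp h0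
        simp only [Function.comp_def] at h
        exact h
      exact h3.lintegral_prod_right'
    have hm : AEMeasurable (fun p : ℝ × ℝ => F p.2 * ∫⁻ z, SS Z ε p.1 p.2 z ∂μ) (μ.prod μ) :=
      (hFm.comp_snd).mul hm2.aemeasurable
    rw [lintegral_lintegral_swap hm]
    apply lintegral_mono
    intro y
    simp only
    rw [lintegral_const_mul' _ _ (by simp [hF])]
    gcongr
    exact SS_int hZ hε a b y
  have h2 : ‖∫ x, ∫ y, ∫ z, ((f y : ℂ) * (f z : ℂ)) * kapt Z ε x y z ∂μ ∂μ ∂μ‖ₑ ≤ J := by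
    rw [mul_comm] at hmain
    exact (ENNReal.mul_le_mul_iff_right (by norm_num) (by norm_num)).mp hmain
  exact h2.trans hJle

end Pool.Agent.H799R2.CI
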